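import Pool.Agent.Helper28.TL.Mts

set_option autoImplicit false

namespace Pool.Agent.Helper28.TL

open Polynomial Finset
open Pool.Agent.Helper28.TC (WW WW_nonneg qc qc_abs qc_sq qc_zero ringCharK LP blk pl up cc cc_abs WF
  XK mem_XK Bs XB rB rB_abs rB_none rB_inl rB_inr XB_none XB_inl XB_inr GG BA Cb Cb_nonneg SF ZF
  natDegree_pl cardK)
open Pool.Agent.Helper28.TC.N (Idx f1)

section Vdef

variable {k : ℕ} {g : Fin k → ℕ}

/-- The sum over the points of degree two. -/
noncomputable def WG {p : ℕ} [Fact p.Prime] (i : Fin k) (u : Idx g → ZMod p) : ℝ :=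
  @WF p _ k g (GaloisField p 2) _ _ (Fintype.ofFinite _) i u

/-- The main part of the term. -/
noncomputable def v1 : Bs k → (p : ℕ) → [Fact p.Prime] → (Idx g → ZMod p) → ℝ
  | none, _, _, _ => 0
  | some (Sum.inl i), p, _, u => if p = 2 then 0 else - (2 * WG i u / p)
  | some (Sum.inr (i, j)), p, _, u => if p = 2 then 0 else
      (if i = j then 2 * BB i u / p else 2 * (SA i u * SA j u) / p)

/-- The error term. -/
noncomputable def er (p : ℕ) [Fact p.Prime] (u : Idx g → ZMod p) : ℝ :=
  (1 + ∑ i, |SA i u|) / p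

/-- The constant in the error term. -/
noncomputable def Ce (g : Fin k → ℕ) : ℝ := 2 * Cb g + 4

lemma Ce_nonneg : 0 ≤ Ce g := by
  unfold Ce
  have := Cb_nonneg (g := g)
  linarith

end Vdef

section Cmp

variable {k : ℕ} {g : Fin k → ℕ} {p : ℕ} [Fact p.Prime]

lemma ZA_ge {i : Fin k} {u : Idx g → ZMod p} (h : pl (blk i u) ≠ 0) :
    (p : ℝ) - (2 * g i + 2) ≤ ZA i u := by
  classical
  have e1 : ∀ x : ZMod p, LP (ZMod p) i (some x) u = (pl (blk i u)).eval x := by
    intro x
    unfold pl
    rw [eval_finsetSum]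
    change ∑ j, algebraMap (ZMod p) (ZMod p) (blk i u j) * x ^ (j : ℕ) = _
    refine Finset.sum_congr rfl fun j _ => ?_
    rw [eval_mul, eval_C, eval_pow, eval_X]
    rfl
  have h1 : ((univ : Finset (ZMod p)).filter fun x => (pl (blk i u)).eval x = 0).card ≤
      2 * g i + 2 := by
    have hsub : ((univ : Finset (ZMod p)).filter fun x => (pl (blk i u)).eval x = 0) ⊆
        (pl (blk i u)).roots.toFinset := by
      intro x hx
      rw [Multiset.mem_toFinset, mem_roots h, IsRoot.def]
      exact (Finset.mem_filter.1 hx).2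
    exact (Finset.card_le_card hsub).trans ((Multiset.toFinset_card_le _).trans
      ((card_roots' _).trans (natDegree_pl _)))
  have h2 : ∀ x : ZMod p, cc i (some x) u ^ 2 =
      1 - (if (pl (blk i u)).eval x = 0 then (1 : ℝ) else 0) := by
    intro x
    unfold cc
    rw [e1]
    by_cases hx : (pl (blk i u)).eval x = 0
    · rw [hx, qc_zero, if_pos rfl]; ring
    · rw [qc_sq hx, if_neg hx]; ring
  unfold ZA
  rw [Finset.sum_congr rfl fun x _ => h2 x, Finset.sum_sub_distrib, Finset.sum_const,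
    Finset.card_univ, nsmul_eq_mul, mul_one, ZMod.card, ← Finset.sum_filter, Finset.sum_const,
    nsmul_eq_mul, mul_one]
  have h3 : (((univ : Finset (ZMod p)).filter fun x => (pl (blk i u)).eval x = 0).card : ℝ) ≤
      2 * g i + 2 := by exact_mod_cast h1
  linarith

lemma SF_eq (i : Fin k) (u : Idx g → ZMod p) : SF i u = cc i none u + SA i u := by
  unfold SF SA
  rw [Fintype.sum_option]

lemma ZF_eq (i : Fin k) (u : Idx g → ZMod p) : ZF i u = cc i none u ^ 2 + ZA i u := by
  unfold ZF ZA
  rw [Fintype.sum_option]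

lemma Cb_term (i : Fin k) : 2 * (g i : ℝ) + 3 ≤ Cb g := by
  unfold Cb
  exact Finset.single_le_sum (f := fun i => 2 * (g i : ℝ) + 3) (fun i _ => by positivity)
    (Finset.mem_univ i)

lemma cmp_good (hp : p ≠ 2) {u : Idx g → ZMod p} (hu : u ∉ BA p g) (β : Bs k) :
    |f1 β p u - v1 β p u| ≤ Ce g * er p u := by
  classical
  have hp0 : (0 : ℝ) < p := by exact_mod_cast (Fact.out : p.Prime).pos
  have hgood : ∀ i, Squarefree (pl (blk i u)) ∧ 2 * g i + 1 ≤ (pl (blk i u)).natDegree := by
    unfold BA at hu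
    rw [Finset.mem_filter, not_and_not_right] at hu
    exact hu (Finset.mem_univ _)
  have hS : 0 ≤ ∑ i, |SA i u| := Finset.sum_nonneg fun _ _ => abs_nonneg _
  have hCb := Cb_nonneg (g := g)
  have hf : f1 β p u = @XB _ g p _ (GaloisField p 2) _ _ (Fintype.ofFinite _) β u - rB β := by
    unfold f1 GG
    rw [if_pos ⟨hp, hu⟩]
  rw [hf]
  unfold er Ce
  rw [← mul_div_assoc, le_div_iff₀ hp0]
  rcases β with _ | i | ⟨i, j⟩
  · rw [XB_none, rB_none]
    change |(2 : ℝ) - 2 - 0| * p ≤ _
    rw [sub_self, sub_self, abs_zero, zero_mul]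
    positivity
  · rw [XB_inl, rB_inl]
    change |- (2 * (ZF i u + WG i u) / p) - (-2) - (if p = 2 then 0 else - (2 * WG i u / p))| * p ≤ _
    rw [if_neg hp]
    have e1 : - (2 * (ZF i u + WG i u) / (p : ℝ)) - (-2) - (- (2 * WG i u / p)) =
        2 * (p - ZF i u) / p := by field_simp; ring
    rw [e1, abs_div, abs_of_pos hp0, div_mul_cancel₀ _ hp0.ne', abs_mul, ZF_eq]
    have h1 := ZA_ge (hgood i).1.ne_zero
    have h2 := ZA_le i u
    have h3 : cc i none u ^ 2 ≤ 1 := by
      rw [← sq_abs]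
      exact pow_le_one₀ (abs_nonneg _) (cc_abs _ _ _)
    have h4 : 0 ≤ cc i none u ^ 2 := sq_nonneg _
    have h5 := Cb_term (g := g) i
    have h6 : |(p : ℝ) - (cc i none u ^ 2 + ZA i u)| ≤ 2 * g i + 2 := by
      rw [abs_le]
      constructor
      · have : (0 : ℝ) ≤ g i := Nat.cast_nonneg _
        linarith
      · linarith
    rw [abs_of_pos (by norm_num : (0 : ℝ) < 2)]
    nlinarith [mul_nonneg hCb hS]
  · rw [XB_inr, rB_inr]
    change |2 * (SF i u * SF j u) / p - (if i = j then 2 else 0) - (if p = 2 then 0 else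
      (if i = j then 2 * BB i u / p else 2 * (SA i u * SA j u) / p))| * p ≤ _
    rw [if_neg hp]
    have hi := Finset.single_le_sum (f := fun i => |SA i u|) (fun i _ => abs_nonneg _)
      (Finset.mem_univ i)
    have hci := cc_abs i none u
    by_cases hij : i = j
    · subst hij
      rw [if_pos rfl, if_pos rfl]
      have e1 : 2 * (SF i u * SF i u) / (p : ℝ) - 2 - 2 * BB i u / p =
          2 * ((cc i none u ^ 2 + 2 * cc i none u * SA i u) + (ZA i u - p)) / p := by
        rw [SF_eq]
        have := SA_sq i u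
        have e2 : (cc i none u + SA i u) * (cc i none u + SA i u) =
          cc i none u ^ 2 + 2 * cc i none u * SA i u + SA i u ^ 2 := by ring
        rw [e2, this]
        field_simp
        ring
      rw [e1, abs_div, abs_of_pos hp0, div_mul_cancel₀ _ hp0.ne', abs_mul]
      have h1 := ZA_ge (hgood i).1.ne_zero
      have h2 := ZA_le i u
      have h3 : |cc i none u ^ 2| ≤ 1 := by
        rw [abs_pow]
        exact pow_le_one₀ (abs_nonneg _) hci
      have h5 := Cb_term (g := g) i
      have h6 : |ZA i u - p| ≤ 2 * g i + 2 := by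
        rw [abs_le]
        constructor
        · linarith
        · have : (0 : ℝ) ≤ g i := Nat.cast_nonneg _
          linarith
      have h7 : |2 * cc i none u * SA i u| ≤ 2 * |SA i u| := by
        rw [abs_mul, abs_mul, abs_of_pos (by norm_num : (0 : ℝ) < 2)]
        nlinarith [abs_nonneg (SA i u), abs_nonneg (cc i none u)]
      have h8 : |cc i none u ^ 2 + 2 * cc i none u * SA i u + (ZA i u - p)| ≤
          1 + 2 * |SA i u| + (2 * g i + 2) := by
        refine (abs_add_le _ _).trans ?_
        refine add_le_add ((abs_add_le _ _).trans (add_le_add h3 h7)) h6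
      rw [abs_of_pos (by norm_num : (0 : ℝ) < 2)]
      nlinarith [mul_nonneg hCb hS]
    · rw [if_neg hij, if_neg hij]
      have hj := Finset.single_le_sum (f := fun i => |SA i u|) (fun i _ => abs_nonneg _)
        (Finset.mem_univ j)
      have hcj := cc_abs j none u
      have e1 : 2 * (SF i u * SF j u) / (p : ℝ) - 0 - 2 * (SA i u * SA j u) / p =
          2 * ((cc i none u * SA j u + SA i u * cc j none u) + cc i none u * cc j none u) / p := by
        rw [SF_eq, SF_eq]
        field_simp
        ring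
      rw [e1, abs_div, abs_of_pos hp0, div_mul_cancel₀ _ hp0.ne', abs_mul]
      have h1 : |cc i none u * SA j u| ≤ |SA j u| := by
        rw [abs_mul]
        exact mul_le_of_le_one_left (abs_nonneg _) hci
      have h2 : |SA i u * cc j none u| ≤ |SA i u| := by
        rw [abs_mul]
        exact mul_le_of_le_one_right (abs_nonneg _) hcj
      have h3 : |cc i none u * cc j none u| ≤ 1 := abs_mul_le_one hci hcj
      have h8 : |cc i none u * SA j u + SA i u * cc j none u + cc i none u * cc j none u| ≤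
          |SA j u| + |SA i u| + 1 := by
        refine (abs_add_le _ _).trans ?_
        exact add_le_add ((abs_add_le _ _).trans (add_le_add h1 h2)) h3
      rw [abs_of_pos (by norm_num : (0 : ℝ) < 2)]
      nlinarith [mul_nonneg hCb hS]

lemma cmp_bad {u : Idx g → ZMod p} (hu : ¬ (p ≠ 2 ∧ u ∉ BA p g)) (β : Bs k) :
    |f1 β p u - v1 β p u| ≤ 2 + |v1 β p u| := by
  classical
  have hf : f1 β p u = - rB β := by
    unfold f1 GG
    rw [if_neg hu]
  rw [hf]
  refine (abs_sub _ _).trans ?_
  rw [abs_neg]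
  have := rB_abs β
  linarith

end Cmp

section VMts

variable {R : Type} [CommRing R] {k d : ℕ} {g : Fin k → ℕ} {M H p q K : ℕ} [NeZero M]
  [Fact p.Prime] [Fact q.Prime] (b : Fin d → R) (c : Fin d → ℤ) (hc : ∑ l, (c l : R) * b l = 1)
  (φ : R →+* ZMod p) (φ' : R →+* ZMod q) (h : p ∣ M) (h' : q ∣ M) {κ : Fin k → ℕ}
  (hA : ∀ i N, 1 ≤ N → N ≤ K ^ 4 → ∃ q0 q1, 1 ≤ q0 ∧ q0 ^ (4 * κ i) ≤ N ∧
    Adm (2 * g i + 2) M H (κ i) q0 q1 N)

lemma pair_aux {Z S x y P Q c : ℝ} (hP : 0 < P) (hQ : 0 < Q) (hx : x = 2 / P) (hy : y = 2 / Q)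
    (hZ : 0 ≤ Z) (hc : |c| ≤ Z * (S ^ 2 * Real.sqrt (P * Q))) :
    |x * y * c| ≤ Z * ((2 * S / Real.sqrt P) * (2 * S / Real.sqrt Q)) := by
  have sP : 0 < Real.sqrt P := Real.sqrt_pos.2 hP
  have sQ : 0 < Real.sqrt Q := Real.sqrt_pos.2 hQ
  have eP : Real.sqrt P ^ 2 = P := Real.sq_sqrt hP.le
  have eQ : Real.sqrt Q ^ 2 = Q := Real.sq_sqrt hQ.le
  have hxy : 0 ≤ x * y := by rw [hx, hy]; positivity
  rw [abs_mul, abs_of_nonneg hxy]
  refine (mul_le_mul_of_nonneg_left hc hxy).trans (le_of_eq ?_)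
  rw [hx, hy, Real.sqrt_mul hP.le]
  generalize Real.sqrt P = s at sP eP
  generalize Real.sqrt Q = t at sQ eQ
  rw [← eP, ← eQ]
  field_simp

include hc hA in
lemma v1_pair (hpq : p ≠ q) (hpK : p ≤ K) (hqK : q ≤ K) (β : Bs k) :
    |∑ a : Idx g × Fin d → ZMod M, WW H a * (v1 β p (rdM b φ h a) * v1 β q (rdM b φ' h' a))| ≤
      ZZ (Idx g × Fin d) M H *
        ((2 * SC κ / Real.sqrt p) * (2 * SC κ / Real.sqrt q)) := by
  have hp0 : (0 : ℝ) < p := by exact_mod_cast (Fact.out : p.Prime).pos
  have hq0 : (0 : ℝ) < q := by exact_mod_cast (Fact.out : q.Prime).pos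
  have hSC := one_le_SC κ
  have hZ : 0 ≤ ZZ (Idx g × Fin d) M H := ZZ_nonneg
  have hR : 0 ≤ ZZ (Idx g × Fin d) M H *
        ((2 * SC κ / Real.sqrt p) * (2 * SC κ / Real.sqrt q)) := by positivity
  rcases β with _ | i | ⟨i, j⟩
  · have e1 : ∀ a : Idx g × Fin d → ZMod M,
        WW H a * (v1 none p (rdM b φ h a) * v1 none q (rdM b φ' h' a)) = 0 := by
      intro a
      change WW H a * ((0 : ℝ) * 0) = 0
      ring
    rw [Finset.sum_congr rfl fun a _ => e1 a, Finset.sum_const_zero, abs_zero]
    exact hR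
  · by_cases hp : p = 2
    · have e1 : ∀ a : Idx g × Fin d → ZMod M, WW H a * (v1 (some (Sum.inl i)) p (rdM b φ h a) *
          v1 (some (Sum.inl i)) q (rdM b φ' h' a)) = 0 := by
        intro a
        have : v1 (some (Sum.inl i)) p (rdM b φ h a) = 0 := if_pos hp
        rw [this, zero_mul, mul_zero]
      rw [Finset.sum_congr rfl fun a _ => e1 a, Finset.sum_const_zero, abs_zero]
      exact hR
    by_cases hq : q = 2
    · have e1 : ∀ a : Idx g × Fin d → ZMod M, WW H a * (v1 (some (Sum.inl i)) p (rdM b φ h a) *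
          v1 (some (Sum.inl i)) q (rdM b φ' h' a)) = 0 := by
        intro a
        have : v1 (some (Sum.inl i)) q (rdM b φ' h' a) = 0 := if_pos hq
        rw [this, mul_zero, mul_zero]
      rw [Finset.sum_congr rfl fun a _ => e1 a, Finset.sum_const_zero, abs_zero]
      exact hR
    let _ : Fintype (GaloisField p 2) := Fintype.ofFinite _
    let _ : Fintype (GaloisField q 2) := Fintype.ofFinite _
    have h1 := mtW (H := H) b c hc φ φ' h h' hA (GaloisField p 2) (GaloisField q 2) hpq hp hq
      (cardK p) (cardK q) hpK hqK (i := i)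
    have e1 : ∀ a : Idx g × Fin d → ZMod M, WW H a * (v1 (some (Sum.inl i)) p (rdM b φ h a) *
        v1 (some (Sum.inl i)) q (rdM b φ' h' a)) = (2 / (p : ℝ)) * (2 / (q : ℝ)) * (WW H a *
        (WF (GaloisField p 2) i (rdM b φ h a) * WF (GaloisField q 2) i (rdM b φ' h' a))) := by
      intro a
      have e2 : v1 (some (Sum.inl i)) p (rdM b φ h a) =
          - (2 * WF (GaloisField p 2) i (rdM b φ h a) / p) := if_neg hp
      have e3 : v1 (some (Sum.inl i)) q (rdM b φ' h' a) =
          - (2 * WF (GaloisField q 2) i (rdM b φ' h' a) / q) := if_neg hq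
      rw [e2, e3]
      field_simp
    rw [Finset.sum_congr rfl fun a _ => e1 a, ← Finset.mul_sum]
    exact pair_aux hp0 hq0 rfl rfl hZ h1
  · by_cases hp : p = 2
    · have e1 : ∀ a : Idx g × Fin d → ZMod M,
          WW H a * (v1 (some (Sum.inr (i, j))) p (rdM b φ h a) *
          v1 (some (Sum.inr (i, j))) q (rdM b φ' h' a)) = 0 := by
        intro a
        have : v1 (some (Sum.inr (i, j))) p (rdM b φ h a) = 0 := if_pos hp
        rw [this, zero_mul, mul_zero]
      rw [Finset.sum_congr rfl fun a _ => e1 a, Finset.sum_const_zero, abs_zero]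
      exact hR
    by_cases hq : q = 2
    · have e1 : ∀ a : Idx g × Fin d → ZMod M,
          WW H a * (v1 (some (Sum.inr (i, j))) p (rdM b φ h a) *
          v1 (some (Sum.inr (i, j))) q (rdM b φ' h' a)) = 0 := by
        intro a
        have : v1 (some (Sum.inr (i, j))) q (rdM b φ' h' a) = 0 := if_pos hq
        rw [this, mul_zero, mul_zero]
      rw [Finset.sum_congr rfl fun a _ => e1 a, Finset.sum_const_zero, abs_zero]
      exact hR
    by_cases hij : i = j
    · have h1 := mtB (H := H) b c hc φ φ' h h' hA hpq hp hq hpK hqK (i := i)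
      have e1 : ∀ a : Idx g × Fin d → ZMod M,
          WW H a * (v1 (some (Sum.inr (i, j))) p (rdM b φ h a) *
          v1 (some (Sum.inr (i, j))) q (rdM b φ' h' a)) =
          (2 / (p : ℝ)) * (2 / (q : ℝ)) * (WW H a *
          (BB i (rdM b φ h a) * BB i (rdM b φ' h' a))) := by
        intro a
        have e2 : v1 (some (Sum.inr (i, j))) p (rdM b φ h a) =
            2 * BB i (rdM b φ h a) / p := (if_neg hp).trans (if_pos hij)
        have e3 : v1 (some (Sum.inr (i, j))) q (rdM b φ' h' a) =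
            2 * BB i (rdM b φ' h' a) / q := (if_neg hq).trans (if_pos hij)
        rw [e2, e3]
        field_simp
      rw [Finset.sum_congr rfl fun a _ => e1 a, ← Finset.mul_sum]
      exact pair_aux hp0 hq0 rfl rfl hZ h1
    · have h1 := mtS (H := H) b c hc φ φ' h h' hA hpq hp hq hpK hqK (i := i) (j := j)
        (fun h => hij h.symm)
      have e1 : ∀ a : Idx g × Fin d → ZMod M,
          WW H a * (v1 (some (Sum.inr (i, j))) p (rdM b φ h a) *
          v1 (some (Sum.inr (i, j))) q (rdM b φ' h' a)) =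
          (2 / (p : ℝ)) * (2 / (q : ℝ)) * (WW H a *
          ((SA i (rdM b φ h a) * SA j (rdM b φ h a)) *
            (SA i (rdM b φ' h' a) * SA j (rdM b φ' h' a)))) := by
        intro a
        have e2 : v1 (some (Sum.inr (i, j))) p (rdM b φ h a) =
            2 * (SA i (rdM b φ h a) * SA j (rdM b φ h a)) / p := (if_neg hp).trans (if_neg hij)
        have e3 : v1 (some (Sum.inr (i, j))) q (rdM b φ' h' a) =
            2 * (SA i (rdM b φ' h' a) * SA j (rdM b φ' h' a)) / q := (if_neg hq).trans (if_neg hij)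
        rw [e2, e3]
        field_simp
      rw [Finset.sum_congr rfl fun a _ => e1 a, ← Finset.mul_sum]
      exact pair_aux hp0 hq0 rfl rfl hZ h1

include hc hA in
lemma v1_sq (hpK : p ≤ K) (β : Bs k) :
    ∑ a : Idx g × Fin d → ZMod M, WW H a * v1 β p (rdM b φ h a) ^ 2 ≤
      ZZ (Idx g × Fin d) M H * (88 * SC κ) := by
  have hp0 : (0 : ℝ) < p := by exact_mod_cast (Fact.out : p.Prime).pos
  have hSC := one_le_SC κ
  have hZ : 0 ≤ ZZ (Idx g × Fin d) M H := ZZ_nonneg
  have hR : 0 ≤ ZZ (Idx g × Fin d) M H * (88 * SC κ) := by positivity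
  rcases β with _ | i | ⟨i, j⟩
  · have e1 : ∀ a : Idx g × Fin d → ZMod M,
        WW H a * v1 none p (rdM b φ h a) ^ 2 = 0 := by
      intro a
      change WW H a * (0 : ℝ) ^ 2 = 0
      ring
    rw [Finset.sum_congr rfl fun a _ => e1 a, Finset.sum_const_zero]
    exact hR
  · by_cases hp : p = 2
    · have e1 : ∀ a : Idx g × Fin d → ZMod M,
          WW H a * v1 (some (Sum.inl i)) p (rdM b φ h a) ^ 2 = 0 := by
        intro a
        have : v1 (some (Sum.inl i)) p (rdM b φ h a) = 0 := if_pos hp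
        rw [this]
        ring
      rw [Finset.sum_congr rfl fun a _ => e1 a, Finset.sum_const_zero]
      exact hR
    let _ : Fintype (GaloisField p 2) := Fintype.ofFinite _
    have h1 := mtWW (H := H) b c hc φ h hA (GaloisField p 2) hp (cardK p) hpK (i := i)
    have e1 : ∀ a : Idx g × Fin d → ZMod M,
        WW H a * v1 (some (Sum.inl i)) p (rdM b φ h a) ^ 2 =
        (4 / (p : ℝ) ^ 2) * (WW H a * WF (GaloisField p 2) i (rdM b φ h a) ^ 2) := by
      intro a
      have e2 : v1 (some (Sum.inl i)) p (rdM b φ h a) =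
          - (2 * WF (GaloisField p 2) i (rdM b φ h a) / p) := if_neg hp
      rw [e2]
      field_simp
      ring
    rw [Finset.sum_congr rfl fun a _ => e1 a, ← Finset.mul_sum]
    refine (mul_le_mul_of_nonneg_left h1 (by positivity)).trans ?_
    have e3 : 4 / (p : ℝ) ^ 2 * (ZZ (Idx g × Fin d) M H * (10 * SC κ * (p : ℝ) ^ 2)) =
        ZZ (Idx g × Fin d) M H * (40 * SC κ) := by field_simp; ring
    rw [e3]
    apply mul_le_mul_of_nonneg_left _ hZ
    linarith
  · by_cases hp : p = 2
    · have e1 : ∀ a : Idx g × Fin d → ZMod M,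
          WW H a * v1 (some (Sum.inr (i, j))) p (rdM b φ h a) ^ 2 = 0 := by
        intro a
        have : v1 (some (Sum.inr (i, j))) p (rdM b φ h a) = 0 := if_pos hp
        rw [this]
        ring
      rw [Finset.sum_congr rfl fun a _ => e1 a, Finset.sum_const_zero]
      exact hR
    by_cases hij : i = j
    · have h1 := mtBB (H := H) b c hc φ h hA hp hpK (i := i)
      have e1 : ∀ a : Idx g × Fin d → ZMod M,
          WW H a * v1 (some (Sum.inr (i, j))) p (rdM b φ h a) ^ 2 =
          (4 / (p : ℝ) ^ 2) * (WW H a * BB i (rdM b φ h a) ^ 2) := by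
        intro a
        have e2 : v1 (some (Sum.inr (i, j))) p (rdM b φ h a) =
            2 * BB i (rdM b φ h a) / p := (if_neg hp).trans (if_pos hij)
        rw [e2]
        field_simp
        ring
      rw [Finset.sum_congr rfl fun a _ => e1 a, ← Finset.mul_sum]
      refine (mul_le_mul_of_nonneg_left h1 (by positivity)).trans ?_
      have e3 : 4 / (p : ℝ) ^ 2 * (ZZ (Idx g × Fin d) M H * (10 * SC κ * (p : ℝ) ^ 2)) =
          ZZ (Idx g × Fin d) M H * (40 * SC κ) := by field_simp; ring
      rw [e3]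
      apply mul_le_mul_of_nonneg_left _ hZ
      linarith
    · have h1 := mtS4 (H := H) b c hc φ h hA hp hpK (i := i)
      have h2 := mtS4 (H := H) b c hc φ h hA hp hpK (i := j)
      have e1 : ∀ a : Idx g × Fin d → ZMod M,
          WW H a * v1 (some (Sum.inr (i, j))) p (rdM b φ h a) ^ 2 ≤
          (2 / (p : ℝ) ^ 2) * (WW H a * SA i (rdM b φ h a) ^ 4) +
            (2 / (p : ℝ) ^ 2) * (WW H a * SA j (rdM b φ h a) ^ 4) := by
        intro a
        have e2 : v1 (some (Sum.inr (i, j))) p (rdM b φ h a) =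
            2 * (SA i (rdM b φ h a) * SA j (rdM b φ h a)) / p := (if_neg hp).trans (if_neg hij)
        rw [e2]
        have e3 : (2 * (SA i (rdM b φ h a) * SA j (rdM b φ h a)) / p) ^ 2 ≤
            (2 / (p : ℝ) ^ 2) * (SA i (rdM b φ h a) ^ 4 + SA j (rdM b φ h a) ^ 4) := by
          have e4 : (2 * (SA i (rdM b φ h a) * SA j (rdM b φ h a)) / p) ^ 2 =
              (2 / (p : ℝ) ^ 2) * (2 * (SA i (rdM b φ h a) ^ 2 * SA j (rdM b φ h a) ^ 2)) := by
            field_simp
          rw [e4]
          apply mul_le_mul_of_nonneg_left _ (by positivity)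
          nlinarith [sq_nonneg (SA i (rdM b φ h a) ^ 2 - SA j (rdM b φ h a) ^ 2)]
        have e5 := mul_le_mul_of_nonneg_left e3 (WW_nonneg H a)
        linarith
      refine (Finset.sum_le_sum fun a _ => e1 a).trans ?_
      rw [Finset.sum_add_distrib, ← Finset.mul_sum, ← Finset.mul_sum, ← mul_add]
      refine (mul_le_mul_of_nonneg_left (add_le_add h1 h2) (by positivity)).trans (le_of_eq ?_)
      field_simp
      ring

end VMts

end Pool.Agent.Helper28.TL
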