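import Pool.Agent.Helper28.TC.AbsFin
import Pool.Agent.Helper28.TL.VV

set_option autoImplicit false

namespace Pool.Agent.Helper28.TL

open Finset
open Pool.Agent.Helper28.TC (WW WW_nonneg sum_WW box_le card_box final_aux bx up IS RM RM_nonneg
  sum_RM IS_le_RM PI PR gb gb_nonneg gb_super prime_sums AA AA_nonneg PI_eq_PR sum_inv_sq
  sum_inv_sqrt term_bound quad)

section Mean

variable {J : Type} [Fintype J] [DecidableEq J] {M H : ℕ} [NeZero M]

lemma ZZ_eq (h : H < M) : ZZ J M H = (((H : ℝ) + 1) * M) ^ Fintype.card J := by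
  have h1 := sum_WW (J := J) (A := PUnit) H (0 : ZMod M →+ PUnit)
    (fun x => ⟨0, Subsingleton.elim _ _⟩) 1 (Subsingleton.elim _ _) one_pos
    (by rw [one_mul]; exact h) (fun _ => 1)
  simp only [mul_one, Finset.sum_const, Finset.card_univ] at h1
  unfold ZZ
  rw [h1]
  simp

/-- A bound for the sum over the box. -/
lemma box_mean {B : ℕ} (hM : M = 8 * B * H) (hB : 1 ≤ B) (hH : 1 ≤ H)
    (Y : (J → ZMod M) → ℝ) (hY : ∀ a, 0 ≤ Y a) {r : ℝ} (hr : 0 ≤ r)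
    (h : ∑ a, WW H a * Y a ≤ ZZ J M H * r) :
    ∑ a ∈ bx J B, Y (fun m => ((a m : ℤ) : ZMod M)) ≤ AA J B * r := by
  have hHM : H < M := by rw [hM]; nlinarith
  have h1 := box_le (M := M) H (J := J) (B := B) (by rw [hM]; nlinarith) (by rw [hM]; nlinarith)
    Y hY
  refine h1.trans ?_
  have h7 : (0 : ℝ) ≤ (2 / ((H : ℝ) + 1) ^ 2) ^ Fintype.card J :=
    pow_nonneg (div_nonneg (by norm_num) (sq_nonneg _)) _
  refine (mul_le_mul_of_nonneg_left h h7).trans ?_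
  rw [ZZ_eq hHM]
  unfold AA
  rw [card_box]
  exact final_aux (Nat.cast_nonneg _) (Nat.cast_nonneg _) (by rw [hM]; push_cast; ring) hr

end Mean

section Seq

variable {J : Type} [Fintype J] [DecidableEq J] (tm : ℕ → (J → ℤ) → ℝ)

/-- The sequence of the terms up to `K`. -/
noncomputable def xl (K : ℕ) (a : J → ℤ) (i : ℕ) : ℝ :=
  if i.Prime ∧ i ≤ K then Real.log i * tm i a else 0

omit [Fintype J] [DecidableEq J] in
lemma IS_xl (K : ℕ) (a : J → ℤ) (b n : ℕ) :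
    IS (xl tm K a) b n = ∑ p ∈ PI K b n, Real.log p * tm p a := by
  unfold IS xl PI
  rw [Finset.sum_filter]

/-- The second moments of the sums over sets of primes. -/
structure Mom (K B : ℕ) (C D : ℝ) : Prop where
  hC : 0 ≤ C
  hD : 0 ≤ D
  mom : ∀ P : Finset ℕ, (∀ p ∈ P, p.Prime ∧ p ≤ K) → ∀ c : ℕ → ℝ,
    ∑ a ∈ bx J B, (∑ p ∈ P, c p * tm p a) ^ 2 ≤
      AA J B * (D * ∑ p ∈ P, c p ^ 2 + (∑ p ∈ P, |c p| * (C / Real.sqrt p)) ^ 2)

lemma mom_of {M H K B : ℕ} [NeZero M] {C D : ℝ} (hC : 0 ≤ C) (hD : 0 ≤ D)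
    (hM : M = 8 * B * H) (hB : 1 ≤ B) (hH : 1 ≤ H)
    (hmod : ∀ p, p.Prime → p ≤ K → ∀ a : J → ℤ,
      tm p (up fun m => ((a m : ℤ) : ZMod M)) = tm p a)
    (hd : ∀ p, p.Prime → p ≤ K → ∑ a : J → ZMod M, WW H a * tm p (up a) ^ 2 ≤ ZZ J M H * D)
    (ho : ∀ p q, p.Prime → q.Prime → p ≤ K → q ≤ K → p ≠ q →
      |∑ a : J → ZMod M, WW H a * (tm p (up a) * tm q (up a))| ≤
        ZZ J M H * ((C / Real.sqrt p) * (C / Real.sqrt q))) :
    Mom tm K B C D := by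
  refine ⟨hC, hD, fun P hP c => ?_⟩
  have hR0 : 0 ≤ D * ∑ p ∈ P, c p ^ 2 +
      (∑ p ∈ P, |c p| * (C / Real.sqrt p)) ^ 2 := by
    have h6 : 0 ≤ ∑ p ∈ P, c p ^ 2 := Finset.sum_nonneg fun p _ => sq_nonneg _
    exact add_nonneg (mul_nonneg hD h6) (sq_nonneg _)
  have h2 : ∑ a ∈ bx J B, (∑ p ∈ P, c p * tm p a) ^ 2 =
      ∑ a ∈ bx J B, (∑ p ∈ P, c p * tm p (up fun m => ((a m : ℤ) : ZMod M))) ^ 2 := by
    refine Finset.sum_congr rfl fun a _ => ?_
    congr 1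
    refine Finset.sum_congr rfl fun p hp => ?_
    rw [hmod p (hP p hp).1 (hP p hp).2]
  rw [h2]
  refine box_mean hM hB hH (fun a => (∑ p ∈ P, c p * tm p (up a)) ^ 2) (fun a => sq_nonneg _) hR0 ?_
  have h3 : ∑ a : J → ZMod M, WW H a * (∑ p ∈ P, c p * tm p (up a)) ^ 2 =
      ∑ p ∈ P, ∑ q ∈ P, c p * c q *
        ∑ a : J → ZMod M, WW H a * (tm p (up a) * tm q (up a)) := by
    simp_rw [sq, Finset.sum_mul_sum, Finset.mul_sum]
    rw [Finset.sum_comm]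
    refine Finset.sum_congr rfl fun p hp => ?_
    rw [Finset.sum_comm]
    refine Finset.sum_congr rfl fun q hq => Finset.sum_congr rfl fun a _ => ?_
    ring
  rw [h3]
  apply quad P c (fun p => C / Real.sqrt p)
    (fun p q => ∑ a : J → ZMod M, WW H a * (tm p (up a) * tm q (up a))) (ZZ J M H) D ZZ_nonneg
  · intro p _; positivity
  · intro p hp
    have := hd p (hP p hp).1 (hP p hp).2
    simp_rw [sq] at this
    linarith
  · intro p hp q hq hpq
    exact ho p q (hP p hp).1 (hP q hq).1 (hP p hp).2 (hP q hq).2 hpq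

variable {tm} {K B : ℕ} {C D : ℝ} (F : Mom tm K B C D)

include F in
lemma moment_RML (k : ℕ) :
    ∑ a ∈ bx J B, RM (xl tm K a) k 0 ≤
      ((k : ℝ) + 1) ^ 2 * (AA J B * ((D + 4 * C ^ 2) * ((k : ℝ) ^ 2 * 2 ^ k))) := by
  have hIS : ∀ b n, ∑ a ∈ bx J B, IS (xl tm K a) b n ^ 2 ≤ gb (AA J B) C D K b n := by
    intro b n
    simp_rw [IS_xl]
    refine F.mom (PI K b n) ?_ fun p => Real.log p
    intro p hp
    unfold PI at hp
    exact (Finset.mem_filter.1 hp).2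
  refine (sum_RM (bx J B) (fun a => xl tm K a) (gb (AA J B) C D K)
    (gb_nonneg (AA_nonneg J B) F.hD K) (gb_super (AA_nonneg J B) F.hC K) hIS k 0).trans ?_
  apply mul_le_mul_of_nonneg_left _ (by positivity)
  have h := prime_sums (A := AA J B) (C := C) (D := D) (L := (k : ℝ)) F.hC F.hD
    (Nat.cast_nonneg k) (2 ^ k) (PI K 0 (2 ^ k)) (AA_nonneg J B)
    (by
      intro p hp
      unfold PI at hp
      rw [Finset.mem_filter, Finset.mem_Ico] at hp
      exact ⟨hp.2.1.one_le, by omega⟩)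
    (by
      intro p hp
      unfold PI at hp
      rw [Finset.mem_filter, Finset.mem_Ico, zero_add] at hp
      have h1 : Real.log p ≤ Real.log ((2 : ℝ) ^ k) :=
        Real.log_le_log (by exact_mod_cast hp.2.1.pos) (by exact_mod_cast hp.1.2.le)
      rw [Real.log_pow] at h1
      have h2 : Real.log 2 ≤ 1 := by
        have := Real.log_two_lt_d9; linarith
      have h3 : (0 : ℝ) ≤ k := Nat.cast_nonneg k
      nlinarith)
  push_cast at h
  exact h

include F in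
open Classical in
lemma bad_levelL {e : ℝ} (he : 0 < e) {j : ℕ} (hj : 1 ≤ j) :
    (((bx J B).filter fun a =>
      e * ((2 : ℝ) ^ j * ((j : ℝ) * Real.log 2) ^ 6) < RM (xl tm K a) (j + 1) 0).card : ℝ) ≤
      AA J B * (D + 4 * C ^ 2) / e * (72 / Real.log 2 ^ 6) * (1 / (j : ℝ) ^ 2) := by
  have hl : 0 < Real.log 2 := Real.log_pos (by norm_num)
  have hD : 0 ≤ AA J B * (D + 4 * C ^ 2) := by
    have := AA_nonneg J B
    have hC1 := F.hC
    have hD1 := F.hD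
    positivity
  apply term_bound (div_nonneg hD he.le) hl hj
  have h1 := moment_RML F (j + 1)
  have h2 : (((bx J B).filter fun a =>
      e * ((2 : ℝ) ^ j * ((j : ℝ) * Real.log 2) ^ 6) < RM (xl tm K a) (j + 1) 0).card : ℝ) *
      (e * ((2 : ℝ) ^ j * ((j : ℝ) * Real.log 2) ^ 6)) ≤
        ∑ a ∈ bx J B, RM (xl tm K a) (j + 1) 0 := by
    rw [← nsmul_eq_mul, ← Finset.sum_const]
    refine (Finset.sum_le_sum fun a ha => (Finset.mem_filter.1 ha).2.le).trans ?_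
    exact Finset.sum_le_sum_of_subset_of_nonneg (Finset.filter_subset _ _)
      fun a _ _ => RM_nonneg _ _ _
  have h3 := h2.trans h1
  have e1 : (((j + 1 : ℕ) : ℝ) + 1) ^ 2 *
      (AA J B * (D + 4 * C ^ 2) / e * ((((j + 1 : ℕ) : ℝ)) ^ 2 * 2 ^ (j + 1))) =
      (((j + 1 : ℕ) : ℝ) + 1) ^ 2 *
        (AA J B * ((D + 4 * C ^ 2) * ((((j + 1 : ℕ) : ℝ)) ^ 2 * 2 ^ (j + 1)))) / e := by
    field_simp
  rw [e1, le_div_iff₀ he]
  refine le_trans (le_of_eq ?_) h3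
  ring

omit [Fintype J] [DecidableEq J] in
lemma exceedL {c : ℝ} (hc : 0 ≤ c) {T : ℕ} (hT : 2 ≤ T) (hTK : T ≤ K) {a : J → ℤ}
    (h : c * (Real.sqrt T * Real.log T ^ 3) < |∑ p ∈ PR T, Real.log p * tm p a|) :
    c ^ 2 * ((2 : ℝ) ^ (Nat.log 2 T) * (((Nat.log 2 T : ℕ) : ℝ) * Real.log 2) ^ 6) <
      RM (xl tm K a) (Nat.log 2 T + 1) 0 := by
  have hT0 : (0 : ℝ) < T := by exact_mod_cast (by omega : 0 < T)
  have hT1 : (1 : ℝ) ≤ T := by exact_mod_cast (by omega : 1 ≤ T)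
  have h1 : T + 1 ≤ 2 ^ (Nat.log 2 T + 1) := Nat.lt_pow_succ_log_self (by norm_num) T
  have h2 : 2 ^ Nat.log 2 T ≤ T := Nat.pow_log_le_self 2 (by omega)
  have h3 := IS_le_RM (xl tm K a) (Nat.log 2 T + 1) 0 (T + 1) h1
  rw [IS_xl, PI_eq_PR hTK] at h3
  refine lt_of_lt_of_le ?_ h3
  set X := ∑ p ∈ PR T, Real.log p * tm p a with hX
  have hs : 0 < Real.sqrt T := Real.sqrt_pos.2 hT0
  have hlog : 0 ≤ Real.log T := Real.log_nonneg hT1
  have h5 : (c * (Real.sqrt T * Real.log T ^ 3)) ^ 2 < |X| ^ 2 :=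
    pow_lt_pow_left₀ h (by positivity) (by norm_num)
  rw [mul_pow, mul_pow, sq_abs, Real.sq_sqrt hT0.le] at h5
  refine lt_of_le_of_lt ?_ h5
  have h7 : ((Nat.log 2 T : ℕ) : ℝ) * Real.log 2 ≤ Real.log T := by
    rw [← Real.log_pow]
    exact Real.log_le_log (by positivity) (by exact_mod_cast h2)
  have h8 : (0 : ℝ) ≤ ((Nat.log 2 T : ℕ) : ℝ) * Real.log 2 :=
    mul_nonneg (Nat.cast_nonneg _) (Real.log_nonneg (by norm_num))
  have h9 : (Real.log T ^ 3) ^ 2 = Real.log T ^ 6 := by ring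
  rw [h9]
  apply mul_le_mul_of_nonneg_left _ (sq_nonneg c)
  exact mul_le_mul (by exact_mod_cast h2) (pow_le_pow_left₀ h8 h7 6) (pow_nonneg h8 6) hT0.le

end Seq

section Pos

variable {J : Type} [Fintype J] [DecidableEq J] (y : ℕ → (J → ℤ) → ℝ)

/-- The sum of a nonnegative family up to `2 ^ (j + 1)`. -/
noncomputable def PS (K j : ℕ) (a : J → ℤ) : ℝ :=
  ∑ p ∈ PI K 0 (2 ^ (j + 1)), Real.log p * y p a

omit [Fintype J] [DecidableEq J] in
lemma PR_sub {K T : ℕ} (hTK : T ≤ K) : PR T ⊆ PI K 0 (2 ^ (Nat.log 2 T + 1)) := by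
  intro p hp
  unfold PR at hp
  rw [Finset.mem_filter, Finset.mem_Icc] at hp
  unfold PI
  rw [Finset.mem_filter, Finset.mem_Ico]
  have h1 : T < 2 ^ (Nat.log 2 T + 1) := Nat.lt_pow_succ_log_self (by norm_num) T
  exact ⟨⟨Nat.zero_le _, by omega⟩, hp.2, hp.1.2.trans hTK⟩

variable {y} (hy : ∀ p a, 0 ≤ y p a)

include hy in
omit [Fintype J] [DecidableEq J] in
lemma le_PS {K T : ℕ} (hTK : T ≤ K) (a : J → ℤ) :
    ∑ p ∈ PR T, Real.log p * y p a ≤ PS y K (Nat.log 2 T) a := by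
  apply Finset.sum_le_sum_of_subset_of_nonneg (PR_sub hTK)
  intro p hp _
  unfold PI at hp
  rw [Finset.mem_filter] at hp
  exact mul_nonneg (Real.log_nonneg (by exact_mod_cast hp.2.1.one_le)) (hy p a)

include hy in
omit [Fintype J] [DecidableEq J] in
lemma PS_nonneg {K j : ℕ} (a : J → ℤ) : 0 ≤ PS y K j a := by
  unfold PS
  apply Finset.sum_nonneg
  intro p hp
  unfold PI at hp
  rw [Finset.mem_filter] at hp
  exact mul_nonneg (Real.log_nonneg (by exact_mod_cast hp.2.1.one_le)) (hy p a)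

include hy in
open Classical in
lemma level_pos {K B j : ℕ} {θ S : ℝ} (hθ : 0 < θ)
    (hm : ∑ a ∈ bx J B, PS y K j a ≤ S) :
    (((bx J B).filter fun a => θ < PS y K j a).card : ℝ) ≤ S / θ := by
  rw [le_div_iff₀ hθ, ← nsmul_eq_mul, ← Finset.sum_const]
  refine ((Finset.sum_le_sum fun a ha => (Finset.mem_filter.1 ha).2.le).trans ?_).trans hm
  exact Finset.sum_le_sum_of_subset_of_nonneg (Finset.filter_subset _ _)
    fun a _ _ => PS_nonneg hy a

lemma log_le_of_mem {K j p : ℕ} (hp : p ∈ PI K 0 (2 ^ (j + 1))) :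
    0 ≤ Real.log p ∧ Real.log p ≤ (j : ℝ) + 1 := by
  unfold PI at hp
  rw [Finset.mem_filter, Finset.mem_Ico, zero_add] at hp
  refine ⟨Real.log_nonneg (by exact_mod_cast hp.2.1.one_le), ?_⟩
  have h1 : Real.log p ≤ Real.log ((2 : ℝ) ^ (j + 1)) :=
    Real.log_le_log (by exact_mod_cast hp.2.1.pos) (by exact_mod_cast hp.1.2.le)
  rw [Real.log_pow] at h1
  have h2 : Real.log 2 ≤ 1 := by
    have := Real.log_two_lt_d9; linarith
  have h3 : (0 : ℝ) ≤ ((j + 1 : ℕ) : ℝ) := Nat.cast_nonneg _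
  push_cast at h1 h3
  nlinarith

lemma PI_sub_Icc {K j : ℕ} : PI K 0 (2 ^ (j + 1)) ⊆ Icc 1 (2 ^ (j + 1)) := by
  intro p hp
  unfold PI at hp
  rw [Finset.mem_filter, Finset.mem_Ico, zero_add] at hp
  exact Finset.mem_Icc.2 ⟨hp.2.1.one_le, hp.1.2.le⟩

/-- The mean of the sum for the error terms. -/
lemma mean_sqrt {K B j : ℕ} {m : ℝ} (hm0 : 0 ≤ m)
    (hm : ∀ p, p.Prime → p ≤ K → ∑ a ∈ bx J B, y p a ≤ AA J B * (m / Real.sqrt p)) :
    ∑ a ∈ bx J B, PS y K j a ≤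
      AA J B * (m * (((j : ℝ) + 1) * (2 * Real.sqrt (2 ^ (j + 1))))) := by
  have hA := AA_nonneg J B
  unfold PS
  rw [Finset.sum_comm]
  simp_rw [← Finset.mul_sum]
  calc ∑ p ∈ PI K 0 (2 ^ (j + 1)), Real.log p * ∑ a ∈ bx J B, y p a
      ≤ ∑ p ∈ PI K 0 (2 ^ (j + 1)), AA J B * (m * ((j : ℝ) + 1)) * (1 / Real.sqrt p) := by
        refine Finset.sum_le_sum fun p hp => ?_
        have hl := log_le_of_mem hp
        have hp' := hp
        unfold PI at hp'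
        rw [Finset.mem_filter] at hp'
        have h1 := hm p hp'.2.1 hp'.2.2
        have h0 : 0 ≤ AA J B * (m / Real.sqrt p) := by positivity
        calc _ ≤ Real.log p * (AA J B * (m / Real.sqrt p)) := mul_le_mul_of_nonneg_left h1 hl.1
          _ ≤ ((j : ℝ) + 1) * (AA J B * (m / Real.sqrt p)) := mul_le_mul_of_nonneg_right hl.2 h0
          _ = _ := by ring
    _ = AA J B * (m * ((j : ℝ) + 1)) * ∑ p ∈ PI K 0 (2 ^ (j + 1)), 1 / Real.sqrt p := by
        rw [Finset.mul_sum]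
    _ ≤ AA J B * (m * ((j : ℝ) + 1)) * ∑ p ∈ Icc 1 (2 ^ (j + 1) : ℕ), 1 / Real.sqrt (p : ℕ) := by
        apply mul_le_mul_of_nonneg_left _ (by positivity)
        exact Finset.sum_le_sum_of_subset_of_nonneg PI_sub_Icc fun p _ _ => by positivity
    _ ≤ AA J B * (m * ((j : ℝ) + 1)) * (2 * Real.sqrt ((2 ^ (j + 1) : ℕ) : ℝ)) :=
        mul_le_mul_of_nonneg_left (sum_inv_sqrt _) (by positivity)
    _ = _ := by push_cast; ring

/-- The mean of the sum for the squares. -/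
lemma mean_one {K B j : ℕ} {m : ℝ} (hm0 : 0 ≤ m)
    (hm : ∀ p, p.Prime → p ≤ K → ∑ a ∈ bx J B, y p a ≤ AA J B * m) :
    ∑ a ∈ bx J B, PS y K j a ≤ AA J B * (m * (((j : ℝ) + 1) * 2 ^ (j + 1))) := by
  have hA := AA_nonneg J B
  unfold PS
  rw [Finset.sum_comm]
  simp_rw [← Finset.mul_sum]
  calc ∑ p ∈ PI K 0 (2 ^ (j + 1)), Real.log p * ∑ a ∈ bx J B, y p a
      ≤ ∑ p ∈ PI K 0 (2 ^ (j + 1)), AA J B * (m * ((j : ℝ) + 1)) := by
        refine Finset.sum_le_sum fun p hp => ?_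
        have hl := log_le_of_mem hp
        have hp' := hp
        unfold PI at hp'
        rw [Finset.mem_filter] at hp'
        have h1 := hm p hp'.2.1 hp'.2.2
        have h0 : 0 ≤ AA J B * m := by positivity
        calc _ ≤ Real.log p * (AA J B * m) := mul_le_mul_of_nonneg_left h1 hl.1
          _ ≤ ((j : ℝ) + 1) * (AA J B * m) := mul_le_mul_of_nonneg_right hl.2 h0
          _ = _ := by ring
    _ = (PI K 0 (2 ^ (j + 1))).card * (AA J B * (m * ((j : ℝ) + 1))) := by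
        rw [Finset.sum_const, nsmul_eq_mul]
    _ ≤ (2 : ℝ) ^ (j + 1) * (AA J B * (m * ((j : ℝ) + 1))) := by
        apply mul_le_mul_of_nonneg_right _ (by positivity)
        have h1 := Finset.card_le_card (PI_sub_Icc (K := K) (j := j))
        rw [Nat.card_Icc, Nat.add_sub_cancel] at h1
        exact_mod_cast h1
    _ = _ := by ring

/-- The level sets of the error terms. -/
lemma level_sqrt_aux {A m e l : ℝ} (hA : 0 ≤ A) (hm : 0 ≤ m) (he : 0 < e) (hl : 0 < l) {j : ℕ}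
    (hj : 1 ≤ j) :
    A * (m * (((j : ℝ) + 1) * (2 * Real.sqrt (2 ^ (j + 1))))) /
      (e * (Real.sqrt (2 ^ j) * ((j : ℝ) * l) ^ 3)) ≤ A * m / e * (6 / l ^ 3) * (1 / (j : ℝ) ^ 2) := by
  have hj' : (1 : ℝ) ≤ j := by exact_mod_cast hj
  have hj0 : (0 : ℝ) < j := by linarith
  have hs : 0 < Real.sqrt (2 ^ j) := Real.sqrt_pos.2 (by positivity)
  have e1 : Real.sqrt (2 ^ (j + 1)) = Real.sqrt 2 * Real.sqrt (2 ^ j) := by
    rw [pow_succ, mul_comm, Real.sqrt_mul (by norm_num)]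
  have h2 : Real.sqrt 2 ≤ 3 / 2 := by
    rw [Real.sqrt_le_left (by norm_num)]
    norm_num
  rw [e1, div_le_iff₀ (by positivity)]
  have e2 : A * m / e * (6 / l ^ 3) * (1 / (j : ℝ) ^ 2) *
      (e * (Real.sqrt (2 ^ j) * ((j : ℝ) * l) ^ 3)) = A * (m * (6 * j * Real.sqrt (2 ^ j))) := by
    field_simp
  rw [e2]
  apply mul_le_mul_of_nonneg_left _ hA
  apply mul_le_mul_of_nonneg_left _ hm
  have h3 : ((j : ℝ) + 1) * (2 * (Real.sqrt 2 * Real.sqrt (2 ^ j))) =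
      (((j : ℝ) + 1) * (2 * Real.sqrt 2)) * Real.sqrt (2 ^ j) := by ring
  rw [h3]
  apply mul_le_mul_of_nonneg_right _ hs.le
  have h4 : 0 ≤ Real.sqrt 2 := Real.sqrt_nonneg 2
  nlinarith

lemma level_one_aux {A m e l : ℝ} (hA : 0 ≤ A) (hm : 0 ≤ m) (he : 0 < e) (hl : 0 < l) {j : ℕ}
    (hj : 1 ≤ j) :
    A * (m * (((j : ℝ) + 1) * 2 ^ (j + 1))) /
      (e * (2 ^ j * ((j : ℝ) * l) ^ 3)) ≤ A * m / e * (6 / l ^ 3) * (1 / (j : ℝ) ^ 2) := by
  have hj' : (1 : ℝ) ≤ j := by exact_mod_cast hj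
  have hj0 : (0 : ℝ) < j := by linarith
  have hs : (0 : ℝ) < 2 ^ j := by positivity
  rw [div_le_iff₀ (by positivity)]
  have e2 : A * m / e * (6 / l ^ 3) * (1 / (j : ℝ) ^ 2) *
      (e * (2 ^ j * ((j : ℝ) * l) ^ 3)) = A * (m * (6 * j * 2 ^ j)) := by
    field_simp
  rw [e2]
  apply mul_le_mul_of_nonneg_left _ hA
  apply mul_le_mul_of_nonneg_left _ hm
  rw [pow_succ]
  nlinarith

end Pos

end Pool.Agent.Helper28.TL
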