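import Pool.Agent.Helper28.TL.Wt
import Pool.Agent.Helper28.TC.NLink

set_option autoImplicit false

namespace Pool.Agent.Helper28.TL

open Polynomial Finset
open Pool.Agent.Helper28.TC (WW qc qc_sum ringCharK LP up)
open Pool.Agent.Helper28.TC.N (Idx redc rd rd_eq redc_apply)

section LX

variable {R : Type} [CommRing R] {k d : ℕ} {g : Fin k → ℕ} {M p : ℕ} [NeZero M] [Fact p.Prime]
  (b : Fin d → R) (φ : R →+* ZMod p) (h : p ∣ M)

/-- The reduction of the coordinates modulo `M`. -/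
def rdM : (Idx g × Fin d → ZMod M) →+ (Idx g → ZMod p) :=
  (redc fun l => φ (b l)).comp
    { toFun := fun a x => ZMod.castHom h (ZMod p) (a x)
      map_zero' := by funext x; simp
      map_add' := by
        intro a a'
        funext x
        exact map_add (ZMod.castHom h (ZMod p)) (a x) (a' x) }

omit [NeZero M] in
lemma rdM_apply (a : Idx g × Fin d → ZMod M) (x : Idx g) :
    rdM b φ h a x = ∑ l, ZMod.castHom h (ZMod p) (a (x, l)) * φ (b l) := rfl

lemma rd_up (a : Idx g × Fin d → ZMod M) : rd b φ (up a) = rdM b φ h a := by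
  rw [rd_eq]
  funext x
  rw [rdM_apply, redc_apply]
  refine Finset.sum_congr rfl fun l _ => ?_
  rw [Pool.Agent.Helper28.TC.up_cast h]

variable (K : Type) [Field K] [Algebra (ZMod p) K]

/-- The value of the polynomial `i` at a point. -/
noncomputable def LX (i : Fin k) (x : K) : (Idx g × Fin d → ZMod M) →+ K :=
  (LP K i (some x)).comp (rdM b φ h)

omit [NeZero M] in
lemma LX_apply (i : Fin k) (x : K) (a : Idx g × Fin d → ZMod M) :
    LX b φ h K i x a = LP K i (some x) (rdM b φ h a) := rfl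

omit [NeZero M] in
lemma rdM_kap (i i' : Fin k) (l : Fin d) (P : ℤ[X]) (j : Fin (2 * g i' + 3)) :
    rdM b φ h (kap i l P : Idx g × Fin d → ZMod M) ⟨i', j⟩ =
      if i' = i then ((P.coeff (j : ℕ) : ℤ) : ZMod p) * φ (b l) else 0 := by
  rw [rdM_apply]
  by_cases hi : i' = i
  · rw [if_pos hi, Finset.sum_eq_single l]
    · rw [kap_apply, if_pos ⟨hi, rfl⟩, map_intCast]
    · intro l' _ hl'
      rw [kap_apply, if_neg fun h => hl' h.2, map_zero, zero_mul]
    · intro h; exact absurd (Finset.mem_univ _) h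
  · rw [if_neg hi]
    refine Finset.sum_eq_zero fun l' _ => ?_
    rw [kap_apply, if_neg fun h => hi h.1, map_zero, zero_mul]

omit [NeZero M] in
lemma LX_kap (i : Fin k) (x : K) (l : Fin d) {P : ℤ[X]} (hP : P.natDegree ≤ 2 * g i + 2) :
    LX b φ h K i x (kap i l P : Idx g × Fin d → ZMod M) =
      algebraMap (ZMod p) K (φ (b l)) * aeval x P := by
  have h1 : LX b φ h K i x (kap i l P : Idx g × Fin d → ZMod M) =
      ∑ j : Fin (2 * g i + 3), algebraMap (ZMod p) K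
        (rdM b φ h (kap i l P : Idx g × Fin d → ZMod M) ⟨i, j⟩) * x ^ (j : ℕ) := rfl
  rw [h1, aeval_eq_sum_range' (show P.natDegree < 2 * g i + 3 by omega), Finset.sum_range,
    Finset.mul_sum]
  refine Finset.sum_congr rfl fun j _ => ?_
  rw [rdM_kap, if_pos rfl, map_mul, map_intCast, zsmul_eq_mul]
  ring

omit [NeZero M] in
lemma LX_kap_ne {i i' : Fin k} (hi : i' ≠ i) (x : K) (l : Fin d) (P : ℤ[X]) :
    LX b φ h K i' x (kap i l P : Idx g × Fin d → ZMod M) = 0 := by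
  have h1 : LX b φ h K i' x (kap i l P : Idx g × Fin d → ZMod M) =
      ∑ j : Fin (2 * g i' + 3), algebraMap (ZMod p) K
        (rdM b φ h (kap i l P : Idx g × Fin d → ZMod M) ⟨i', j⟩) * x ^ (j : ℕ) := rfl
  rw [h1]
  refine Finset.sum_eq_zero fun j _ => ?_
  rw [rdM_kap, if_neg hi, map_zero, zero_mul]

end LX

section Itp

/-- Interpolation at the points `X` by polynomials of degree at most three. -/
def Itp (p : ℕ) {K Ω : Type} [CommRing K] [Algebra (ZMod p) K] (X : Ω → K) : Prop :=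
  ∀ r : Ω → K, ∃ v : Fin (3 + 1) → ZMod p, ∀ s, TC.ev K (some (X s)) v = r s

/-- The polynomial with given coefficients. -/
noncomputable def cub (z : Fin (3 + 1) → ℤ) : ℤ[X] := ∑ j, C (z j) * X ^ (j : ℕ)

lemma cub_natDegree (z : Fin (3 + 1) → ℤ) : (cub z).natDegree ≤ 3 := by
  unfold cub
  apply natDegree_sum_le_of_forall_le
  intro j _
  refine (natDegree_C_mul_X_pow_le _ _).trans ?_
  have := j.2
  omega

lemma aeval_cub {p : ℕ} {K : Type} [CommRing K] [Algebra (ZMod p) K] (z : Fin (3 + 1) → ℤ)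
    (v : Fin (3 + 1) → ZMod p) (hz : ∀ j, ((z j : ℤ) : ZMod p) = v j) (x : K) :
    aeval x (cub z) = TC.ev K (some x) v := by
  unfold cub
  rw [map_sum]
  change _ = ∑ j, algebraMap (ZMod p) K (v j) * x ^ (j : ℕ)
  refine Finset.sum_congr rfl fun j _ => ?_
  rw [map_mul, map_pow, aeval_X, aeval_C, ← hz j, map_intCast]
  simp only [algebraMap_int_eq, eq_intCast]

lemma itp_one {p : ℕ} [Fact p.Prime] {K Ω : Type} [CommRing K] [Algebra (ZMod p) K] {X : Ω → K}
    (hX : Itp p X) (r : Ω → K) : ∃ P : ℤ[X], P.natDegree ≤ 3 ∧ ∀ s, aeval (X s) P = r s := by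
  obtain ⟨v, hv⟩ := hX r
  refine ⟨cub fun j => ((v j).val : ℤ), cub_natDegree _, fun s => ?_⟩
  rw [aeval_cub _ v (fun j => by simp), hv]

lemma itp_two {p q : ℕ} [Fact p.Prime] [Fact q.Prime] (hpq : p ≠ q) {K₁ K₂ Ω₁ Ω₂ : Type}
    [CommRing K₁] [Algebra (ZMod p) K₁] [CommRing K₂] [Algebra (ZMod q) K₂] {X₁ : Ω₁ → K₁}
    {X₂ : Ω₂ → K₂} (h₁ : Itp p X₁) (h₂ : Itp q X₂) (r₁ : Ω₁ → K₁) (r₂ : Ω₂ → K₂) :
    ∃ P : ℤ[X], P.natDegree ≤ 3 ∧ (∀ s, aeval (X₁ s) P = r₁ s) ∧ ∀ s, aeval (X₂ s) P = r₂ s := by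
  obtain ⟨v, hv⟩ := h₁ r₁
  obtain ⟨w, hw⟩ := h₂ r₂
  have hco : Nat.Coprime p q := (Nat.coprime_primes Fact.out Fact.out).2 hpq
  have h3 : ∀ j, ∃ z : ℤ, ((z : ℤ) : ZMod p) = v j ∧ ((z : ℤ) : ZMod q) = w j := by
    intro j
    obtain ⟨n, hn1, hn2⟩ := Nat.chineseRemainder hco (v j).val (w j).val
    refine ⟨(n : ℤ), ?_, ?_⟩
    · rw [Int.cast_natCast, ← ZMod.natCast_zmod_val (v j)]
      exact (ZMod.natCast_eq_natCast_iff _ _ _).2 hn1
    · rw [Int.cast_natCast, ← ZMod.natCast_zmod_val (w j)]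
      exact (ZMod.natCast_eq_natCast_iff _ _ _).2 hn2
  choose z hz1 hz2 using h3
  refine ⟨cub z, cub_natDegree z, fun s => ?_, fun s => ?_⟩
  · rw [aeval_cub z v hz1, hv]
  · rw [aeval_cub z w hz2, hw]

end Itp

section Params

/-- The parameters are admissible: `κ` is the length of the small polynomials, `q0` and `q1` bound
the coefficients, `N` bounds the size of the ring. -/
structure Adm (D M H κ q0 q1 N : ℕ) : Prop where
  one : 1 ≤ κ
  deg : 5 * κ ≤ D
  lt0 : N < (q0 + 1) ^ (4 * κ)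
  lt1 : N < (q1 + 1) ^ κ
  le : q0 ≤ q1
  mod : 4 * κ * q1 * H < M

/-- The primitive polynomials of degree less than `κ` with small coefficients. -/
def Sml (κ q0 : ℕ) (G : ℤ[X]) : Prop :=
  G.IsPrimitive ∧ G.natDegree < κ ∧ ∀ n, |G.coeff n| ≤ ((2 ^ κ * (4 * κ * q0) : ℕ) : ℤ)

end Params

section Two

variable {R : Type} [CommRing R] {k d : ℕ} {g : Fin k → ℕ} {M H p q : ℕ} [NeZero M]
  [Fact p.Prime] [Fact q.Prime] (b : Fin d → R) (c : Fin d → ℤ) (hc : ∑ l, (c l : R) * b l = 1)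
  (φ : R →+* ZMod p) (φ' : R →+* ZMod q) (h : p ∣ M) (h' : q ∣ M)
  (K₁ K₂ : Type) [Field K₁] [Fintype K₁] [Algebra (ZMod p) K₁] [Field K₂] [Fintype K₂]
  [Algebra (ZMod q) K₂] {Ω₁ Ω₂ : Type} [Fintype Ω₁] [DecidableEq Ω₁] [Fintype Ω₂]
  [DecidableEq Ω₂]

lemma sum_qc_single {K Ω : Type} [Field K] [Fintype K] (hK : ringChar K ≠ 2) [Fintype Ω]
    [DecidableEq Ω] (s : Ω) (r : Ω → K) :
    ∑ c : K, ∏ t, qc K (r t + (Pi.single s c : Ω → K) t) = 0 := by
  have h1 : ∀ c : K, ∏ t, qc K (r t + (Pi.single s c : Ω → K) t) =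
      qc K (r s + c) * ∏ t ∈ univ.erase s, qc K (r t) := by
    intro c
    rw [← Finset.mul_prod_erase univ _ (Finset.mem_univ s), Pi.single_eq_same]
    congr 1
    refine Finset.prod_congr rfl fun t ht => ?_
    rw [Pi.single_eq_of_ne (Finset.ne_of_mem_erase ht), add_zero]
  rw [Finset.sum_congr rfl fun c _ => h1 c, ← Finset.sum_mul]
  have h2 : ∑ c : K, qc K (r s + c) = ∑ c, qc K c := Equiv.sum_comp (Equiv.addLeft (r s)) (qc K)
  rw [h2, qc_sum hK, zero_mul]

include hc in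
theorem two_clusters (hpq : p ≠ q) (hp : p ≠ 2) (hq : q ≠ 2) (i : Fin k) {X₁ : Ω₁ → K₁}
    {X₂ : Ω₂ → K₂} (h₁ : Itp p X₁) (h₂ : Itp q X₂) {κ q0 q1 N : ℕ}
    (ha : Adm (2 * g i + 2) M H κ q0 q1 N)
    (hN : Fintype.card K₁ ^ Fintype.card Ω₁ * Fintype.card K₂ ^ Fintype.card Ω₂ ≤ N)
    (F : (Idx g × Fin d → ZMod M) → ℝ) (hF : ∀ a l P, F (a + kap i l P) = F a)
    (hne : ∑ a, WW H a * ((∏ s, qc K₁ (LX b φ h K₁ i (X₁ s) a)) *
      (∏ s, qc K₂ (LX b φ' h' K₂ i (X₂ s) a)) * F a) ≠ 0) :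
    ∃ G, Sml κ q0 G ∧ (∀ s, aeval (X₁ s) G = 0) ∧ ∀ s, aeval (X₂ s) G = 0 := by
  classical
  have e1 : ∀ (P : ℤ[X]) s, (aeval (X₁, X₂) P : (Ω₁ → K₁) × (Ω₂ → K₂)).1 s = aeval (X₁ s) P := by
    intro P s
    exact (aeval_algHom_apply ((Pi.evalRingHom (fun _ : Ω₁ => K₁) s).comp
      (RingHom.fst (Ω₁ → K₁) (Ω₂ → K₂))).toIntAlgHom (X₁, X₂) P).symm
  have e2 : ∀ (P : ℤ[X]) s, (aeval (X₁, X₂) P : (Ω₁ → K₁) × (Ω₂ → K₂)).2 s = aeval (X₂ s) P := by
    intro P s
    exact (aeval_algHom_apply ((Pi.evalRingHom (fun _ : Ω₂ => K₂) s).comp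
      (RingHom.snd (Ω₁ → K₁) (Ω₂ → K₂))).toIntAlgHom (X₁, X₂) P).symm
  obtain ⟨G, hG1, hG2, hG3, hG4⟩ := lemB (M := M) (H := H) (𝓡 := (Ω₁ → K₁) × (Ω₂ → K₂)) i (X₁, X₂)
    (fun l => (fun _ => algebraMap (ZMod p) K₁ (φ (b l)), fun _ => algebraMap (ZMod q) K₂ (φ' (b l))))
    c (by
      have h3 := congrArg φ hc
      have h4 := congrArg φ' hc
      rw [map_sum, map_one] at h3 h4
      apply Prod.ext
      · funext s
        rw [Prod.fst_sum, Finset.sum_apply]
        have h5 := congrArg (algebraMap (ZMod p) K₁) h3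
        rw [map_sum, map_one] at h5
        refine Eq.trans ?_ h5
        refine Finset.sum_congr rfl fun l _ => ?_
        rw [map_mul, map_mul, map_intCast, map_intCast]
        rfl
      · funext s
        rw [Prod.snd_sum, Finset.sum_apply]
        have h5 := congrArg (algebraMap (ZMod q) K₂) h4
        rw [map_sum, map_one] at h5
        refine Eq.trans ?_ h5
        refine Finset.sum_congr rfl fun l _ => ?_
        rw [map_mul, map_mul, map_intCast, map_intCast]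
        rfl)
    { toFun := fun a => (fun s => LX b φ h K₁ i (X₁ s) a, fun s => LX b φ' h' K₂ i (X₂ s) a)
      map_zero' := by
        apply Prod.ext
        · funext s; simp
        · funext s; simp
      map_add' := by
        intro a a'
        apply Prod.ext
        · funext s; simp
        · funext s; simp }
    (by
      intro l P hP
      apply Prod.ext
      · funext s
        change LX b φ h K₁ i (X₁ s) (kap i l P) = algebraMap (ZMod p) K₁ (φ (b l)) *
          (aeval (X₁, X₂) P : (Ω₁ → K₁) × (Ω₂ → K₂)).1 s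
        rw [LX_kap b φ h K₁ i (X₁ s) l hP, e1]
      · funext s
        change LX b φ' h' K₂ i (X₂ s) (kap i l P) = algebraMap (ZMod q) K₂ (φ' (b l)) *
          (aeval (X₁, X₂) P : (Ω₁ → K₁) × (Ω₂ → K₂)).2 s
        rw [LX_kap b φ' h' K₂ i (X₂ s) l hP, e2])
    (fun r => (∏ s, qc K₁ (r.1 s)) * ∏ s, qc K₂ (r.2 s)) F hF ha.one ha.deg
    (by rw [Fintype.card_prod, Fintype.card_fun, Fintype.card_fun]; exact hN)
    ha.lt0 ha.lt1 ha.le ha.mod
    (by
      rintro ⟨r₁, r₂⟩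
      obtain ⟨P, hP1, hP2, hP3⟩ := itp_two hpq h₁ h₂ r₁ r₂
      refine ⟨P, hP1, Prod.ext ?_ ?_⟩
      · funext s; exact (e1 P s).trans (hP2 s)
      · funext s; exact (e2 P s).trans (hP3 s))
    hne
  refine ⟨G, ⟨hG1, hG2, hG3⟩, ?_, ?_⟩
  · intro s
    by_contra hs
    obtain ⟨x, hx1, hx2⟩ := hG4 (univ.image fun c : K₁ => ((Pi.single s c : Ω₁ → K₁), (0 : Ω₂ → K₂)))
      ((Finset.univ_nonempty (α := K₁)).image _) (by
        intro r
        rw [Finset.sum_image (by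
          intro c _ c' _ hcc
          exact Pi.single_injective s (Prod.ext_iff.1 hcc).1)]
        change ∑ c : K₁, (∏ t, qc K₁ (r.1 t + (Pi.single s c : Ω₁ → K₁) t)) *
          (∏ t, qc K₂ (r.2 t + (0 : Ω₂ → K₂) t)) = 0
        rw [← Finset.sum_mul, sum_qc_single (ringCharK (p := p) K₁ hp), zero_mul])
    apply hx2
    obtain ⟨c, _, rfl⟩ := Finset.mem_image.1 hx1
    refine ⟨(Pi.single s (c / aeval (X₁ s) G), 0), ?_⟩
    apply Prod.ext
    · funext t
      change (Pi.single s c : Ω₁ → K₁) t = (aeval (X₁, X₂) G : (Ω₁ → K₁) × (Ω₂ → K₂)).1 t *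
        (Pi.single s (c / aeval (X₁ s) G) : Ω₁ → K₁) t
      rw [e1]
      by_cases hts : t = s
      · rw [hts, Pi.single_eq_same, Pi.single_eq_same, mul_div_cancel₀ _ hs]
      · rw [Pi.single_eq_of_ne hts, Pi.single_eq_of_ne hts, mul_zero]
    · funext t
      change (0 : K₂) = _ * (0 : K₂)
      rw [mul_zero]
  · intro s
    by_contra hs
    obtain ⟨x, hx1, hx2⟩ := hG4 (univ.image fun c : K₂ => ((0 : Ω₁ → K₁), (Pi.single s c : Ω₂ → K₂)))
      ((Finset.univ_nonempty (α := K₂)).image _) (by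
        intro r
        rw [Finset.sum_image (by
          intro c _ c' _ hcc
          exact Pi.single_injective s (Prod.ext_iff.1 hcc).2)]
        change ∑ c : K₂, (∏ t, qc K₁ (r.1 t + (0 : Ω₁ → K₁) t)) *
          (∏ t, qc K₂ (r.2 t + (Pi.single s c : Ω₂ → K₂) t)) = 0
        rw [← Finset.mul_sum, sum_qc_single (ringCharK (p := q) K₂ hq), mul_zero])
    apply hx2
    obtain ⟨c, _, rfl⟩ := Finset.mem_image.1 hx1
    refine ⟨(0, Pi.single s (c / aeval (X₂ s) G)), ?_⟩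
    apply Prod.ext
    · funext t
      change (0 : K₁) = _ * (0 : K₁)
      rw [mul_zero]
    · funext t
      change (Pi.single s c : Ω₂ → K₂) t = (aeval (X₁, X₂) G : (Ω₁ → K₁) × (Ω₂ → K₂)).2 t *
        (Pi.single s (c / aeval (X₂ s) G) : Ω₂ → K₂) t
      rw [e2]
      by_cases hts : t = s
      · rw [hts, Pi.single_eq_same, Pi.single_eq_same, mul_div_cancel₀ _ hs]
      · rw [Pi.single_eq_of_ne hts, Pi.single_eq_of_ne hts, mul_zero]

end Two

section One

variable {R : Type} [CommRing R] {k d : ℕ} {g : Fin k → ℕ} {M H p : ℕ} [NeZero M]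
  [Fact p.Prime] (b : Fin d → R) (c : Fin d → ℤ) (hc : ∑ l, (c l : R) * b l = 1)
  (φ : R →+* ZMod p) (h : p ∣ M) (K : Type) [Field K] [Fintype K] [Algebra (ZMod p) K]
  {Ω : Type} [Fintype Ω] [DecidableEq Ω]

include hc in
theorem one_cluster (hp : p ≠ 2) (i : Fin k) {X : Ω → K} (h₁ : Itp p X) {κ q0 q1 N : ℕ}
    (ha : Adm (2 * g i + 2) M H κ q0 q1 N) (hN : Fintype.card K ^ Fintype.card Ω ≤ N)
    {n : ℕ} (t : Fin n → Ω)
    (hne : ∑ a : Idx g × Fin d → ZMod M, WW H a * (∏ m, qc K (LX b φ h K i (X (t m)) a)) ≠ 0) :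
    ∃ G, Sml κ q0 G ∧ ∀ m₀, (∀ m, m ≠ m₀ → t m ≠ t m₀) → aeval (X (t m₀)) G = 0 := by
  classical
  have e1 : ∀ (P : ℤ[X]) s, (aeval X P : Ω → K) s = aeval (X s) P := by
    intro P s
    exact (aeval_algHom_apply (Pi.evalRingHom (fun _ : Ω => K) s).toIntAlgHom X P).symm
  obtain ⟨G, hG1, hG2, hG3, hG4⟩ := lemB (M := M) (H := H) (𝓡 := Ω → K) i X
    (fun l => fun _ => algebraMap (ZMod p) K (φ (b l)))
    c (by
      have h3 := congrArg φ hc
      rw [map_sum, map_one] at h3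
      funext s
      rw [Finset.sum_apply]
      have h5 := congrArg (algebraMap (ZMod p) K) h3
      rw [map_sum, map_one] at h5
      refine Eq.trans ?_ h5
      refine Finset.sum_congr rfl fun l _ => ?_
      rw [map_mul, map_mul, map_intCast, map_intCast]
      rfl)
    { toFun := fun a => fun s => LX b φ h K i (X s) a
      map_zero' := by funext s; simp
      map_add' := by intro a a'; funext s; simp }
    (by
      intro l P hP
      funext s
      change LX b φ h K i (X s) (kap i l P) = algebraMap (ZMod p) K (φ (b l)) *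
        (aeval X P : Ω → K) s
      rw [LX_kap b φ h K i (X s) l hP, e1])
    (fun r => ∏ m, qc K (r (t m))) (fun _ => 1) (fun _ _ _ => rfl) ha.one ha.deg
    (by rw [Fintype.card_fun]; exact hN)
    ha.lt0 ha.lt1 ha.le ha.mod
    (by
      intro r
      obtain ⟨P, hP1, hP2⟩ := itp_one h₁ r
      refine ⟨P, hP1, ?_⟩
      funext s; exact (e1 P s).trans (hP2 s))
    (by simpa using hne)
  refine ⟨G, ⟨hG1, hG2, hG3⟩, ?_⟩
  intro m₀ hm₀
  by_contra hs
  obtain ⟨x, hx1, hx2⟩ := hG4 (univ.image fun c : K => (Pi.single (t m₀) c : Ω → K))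
    ((Finset.univ_nonempty (α := K)).image _) (by
      intro r
      rw [Finset.sum_image (by
        intro c _ c' _ hcc
        exact Pi.single_injective (t m₀) hcc)]
      change ∑ c : K, ∏ m, qc K (r (t m) + (Pi.single (t m₀) c : Ω → K) (t m)) = 0
      have h1 : ∀ c : K, ∏ m, qc K (r (t m) + (Pi.single (t m₀) c : Ω → K) (t m)) =
          qc K (r (t m₀) + c) * ∏ m ∈ univ.erase m₀, qc K (r (t m)) := by
        intro c
        rw [← Finset.mul_prod_erase univ _ (Finset.mem_univ m₀), Pi.single_eq_same]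
        congr 1
        refine Finset.prod_congr rfl fun m hm => ?_
        rw [Pi.single_eq_of_ne (hm₀ m (Finset.ne_of_mem_erase hm)), add_zero]
      rw [Finset.sum_congr rfl fun c _ => h1 c, ← Finset.sum_mul]
      have h2 : ∑ c : K, qc K (r (t m₀) + c) = ∑ c, qc K c :=
        Equiv.sum_comp (Equiv.addLeft (r (t m₀))) (qc K)
      rw [h2, qc_sum (ringCharK (p := p) K hp), zero_mul])
  apply hx2
  obtain ⟨c, _, rfl⟩ := Finset.mem_image.1 hx1
  refine ⟨Pi.single (t m₀) (c / aeval (X (t m₀)) G), ?_⟩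
  funext s
  change (Pi.single (t m₀) c : Ω → K) s = (aeval X G : Ω → K) s *
    (Pi.single (t m₀) (c / aeval (X (t m₀)) G) : Ω → K) s
  rw [e1]
  by_cases hts : s = t m₀
  · rw [hts, Pi.single_eq_same, Pi.single_eq_same, mul_div_cancel₀ _ hs]
  · rw [Pi.single_eq_of_ne hts, Pi.single_eq_of_ne hts, mul_zero]

end One

end Pool.Agent.Helper28.TL
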