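import Pool.Agent.Helper28.TL.Clu

set_option autoImplicit false

namespace Pool.Agent.Helper28.TL

open Polynomial Finset
open Pool.Agent.Helper28.TC (WW WW_nonneg qc qc_sum ringCharK LP up sep sepK surjK evH ev)
open Pool.Agent.Helper28.TC.N (Idx)

section Itps

variable {p : ℕ} [Fact p.Prime]

lemma itp_of_sep {K Ω : Type} [CommRing K] [Algebra (ZMod p) K] [Fintype Ω] [DecidableEq Ω]
    {X : Ω → K} (h : ∀ (s : Ω) (r : K), ∃ v : Fin (3 + 1) → ZMod p, ev K (some (X s)) v = r ∧
      ∀ t, t ≠ s → ev K (some (X t)) v = 0) : Itp p X := by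
  intro r
  choose v hv hv' using fun s => h s (r s)
  refine ⟨∑ s, v s, fun s => ?_⟩
  have h1 : ev K (some (X s)) (∑ t, v t) = ∑ t, ev K (some (X s)) (v t) :=
    map_sum (evH K (some (X s))) v univ
  rw [h1, Finset.sum_eq_single s]
  · exact hv s
  · intro t _ ht
    exact hv' t s ht.symm
  · intro h; exact absurd (Finset.mem_univ _) h

lemma itp_inj {Ω : Type} [Fintype Ω] [DecidableEq Ω] {X : Ω → ZMod p}
    (hX : Function.Injective X) (hc : Fintype.card Ω ≤ 4) : Itp p X := by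
  apply itp_of_sep
  intro s r
  obtain ⟨v, hv, hv'⟩ := sep (D := 3) ((univ.erase s).image fun t => some (X t)) (by
    refine Finset.card_image_le.trans ?_
    rw [Finset.card_erase_of_mem (Finset.mem_univ _), Finset.card_univ]
    omega) (some (X s)) (by
    intro h
    obtain ⟨t, ht, he⟩ := Finset.mem_image.1 h
    exact (Finset.ne_of_mem_erase ht) (hX (Option.some_injective _ he))) r
  refine ⟨v, hv, fun t ht => hv' _ ?_⟩
  exact Finset.mem_image.2 ⟨t, Finset.mem_erase.2 ⟨ht, Finset.mem_univ _⟩, rfl⟩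

variable {K : Type} [Field K] [Algebra (ZMod p) K] [Fintype K]

lemma itp_unit (hK : Fintype.card K = p ^ 2) {x : K} (hx : x ∉ (algebraMap (ZMod p) K).range) :
    Itp p (fun _ : Unit => x) := by
  intro r
  obtain ⟨v, hv⟩ := surjK (D := 3) (by norm_num) hK hx (r ())
  exact ⟨v, fun _ => hv⟩

lemma itp_pair (hK : Fintype.card K = p ^ 2) {x y : K}
    (hx : x ∉ (algebraMap (ZMod p) K).range) (hy : y ∉ (algebraMap (ZMod p) K).range)
    (hxy : y ≠ x) (hxy' : y ≠ x ^ p) : Itp p ![x, y] := by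
  have hyx : x ≠ y ^ p := by
    rintro rfl
    apply hxy'
    rw [← pow_mul, ← sq, ← hK, FiniteField.pow_card]
  apply itp_of_sep
  intro s r
  fin_cases s
  · obtain ⟨v, hv, hv'⟩ := sepK (D := 3) (by norm_num) hK hx hy hxy hxy' r
    refine ⟨v, hv, fun t ht => ?_⟩
    fin_cases t
    · exact absurd rfl ht
    · exact hv'
  · obtain ⟨v, hv, hv'⟩ := sepK (D := 3) (by norm_num) hK hy hx hxy.symm hyx r
    refine ⟨v, hv, fun t ht => ?_⟩
    fin_cases t
    · exact hv'
    · exact absurd rfl ht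

end Itps

section Root

lemma exists_root {N m : ℕ} (hN : 1 ≤ N) (hm : 1 ≤ m) :
    ∃ q, 1 ≤ q ∧ q ^ m ≤ N ∧ N < (q + 1) ^ m := by
  have hex : ∃ q, N < (q + 1) ^ m := by
    refine ⟨N, lt_of_lt_of_le (Nat.lt_succ_self N) ?_⟩
    exact Nat.le_self_pow (by omega) _
  classical
  refine ⟨Nat.find hex, ?_, ?_, Nat.find_spec hex⟩
  · rw [Nat.one_le_iff_ne_zero]
    intro h
    have h1 := Nat.find_spec hex
    rw [h, zero_add, one_pow] at h1
    omega
  · by_contra hcon
    push Not at hcon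
    have h1 : Nat.find hex ≠ 0 := by
      intro h
      have h1 := Nat.find_spec hex
      rw [h, zero_add, one_pow] at h1
      omega
    have h2 := Nat.find_min hex (m := Nat.find hex - 1) (by omega)
    apply h2
    have h3 : Nat.find hex - 1 + 1 = Nat.find hex := by omega
    rw [h3]
    exact hcon

end Root

section Count

/-- The bound for the number of small polynomials. -/
def cG (κ q0 : ℕ) : ℕ := (2 * (2 ^ κ * (4 * κ * q0)) + 1) ^ κ

open Classical in
/-- The finite set of the polynomials of degree less than `κ` with small coefficients. -/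
noncomputable def smlF (κ q0 : ℕ) : Finset ℤ[X] :=
  (Fintype.piFinset fun _ : Fin κ => Finset.Icc (-((2 ^ κ * (4 * κ * q0) : ℕ) : ℤ))
    ((2 ^ κ * (4 * κ * q0) : ℕ) : ℤ)).image fun w => ∑ j : Fin κ, C (w j) * X ^ (j : ℕ)

lemma card_smlF (κ q0 : ℕ) : (smlF κ q0).card ≤ cG κ q0 := by
  classical
  refine Finset.card_image_le.trans ?_
  rw [Fintype.card_piFinset, Finset.prod_const, Finset.card_univ, Fintype.card_fin, Int.card_Icc]
  unfold cG
  apply le_of_eq
  congr 1
  omega

lemma mem_smlF {κ q0 : ℕ} {G : ℤ[X]} (hG : Sml κ q0 G) : G ∈ smlF κ q0 := by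
  classical
  unfold smlF
  rw [Finset.mem_image]
  refine ⟨fun j => G.coeff j, ?_, ?_⟩
  · rw [Fintype.mem_piFinset]
    intro j
    rw [Finset.mem_Icc]
    exact abs_le.1 (hG.2.2 j)
  · rw [← Finset.sum_range fun j => C (G.coeff j) * X ^ j]
    conv_rhs => rw [G.as_sum_range_C_mul_X_pow' hG.2.1]

open Classical in
/-- The number of the tuples which are related to a small polynomial. -/
lemma card_exists {Z : Type} (S : Finset Z) (P : ℤ[X] → Z → Prop) {κ q0 n : ℕ}
    (hP : ∀ G, Sml κ q0 G → ∃ T : Finset Z, T.card ≤ n ∧ ∀ z, P G z → z ∈ T) :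
    (S.filter fun z => ∃ G, Sml κ q0 G ∧ P G z).card ≤ cG κ q0 * n := by
  choose! T hT1 hT2 using hP
  have hsub : (S.filter fun z => ∃ G, Sml κ q0 G ∧ P G z) ⊆
      ((smlF κ q0).filter (Sml κ q0)).biUnion fun G => T G := by
    intro z hz
    obtain ⟨hz1, G, hG, hPG⟩ := Finset.mem_filter.1 hz
    rw [Finset.mem_biUnion]
    exact ⟨G, Finset.mem_filter.2 ⟨mem_smlF hG, hG⟩, hT2 G hG z hPG⟩
  refine (Finset.card_le_card hsub).trans (Finset.card_biUnion_le.trans ?_)
  refine (Finset.sum_le_sum fun G hG => hT1 G (Finset.mem_filter.1 hG).2).trans ?_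
  rw [Finset.sum_const, smul_eq_mul]
  exact Nat.mul_le_mul_right n ((Finset.card_filter_le _ _).trans (card_smlF κ q0))

/-- A primitive polynomial of degree less than `κ` has at most `κ` roots in a finite field. -/
lemma card_root {p κ q0 : ℕ} [Fact p.Prime] {K : Type} [Field K] [Fintype K] [Algebra (ZMod p) K]
    {G : ℤ[X]} [DecidablePred fun x : K => aeval x G = 0] (hG : Sml κ q0 G) :
    ((univ : Finset K).filter fun x => aeval x G = 0).card ≤ κ := by
  classical
  have hch : CharP K p := charP_of_injective_algebraMap (algebraMap (ZMod p) K).injective p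
  have hne : G.map (Int.castRingHom K) ≠ 0 := by
    intro h0
    have h1 : C (p : ℤ) ∣ G := by
      rw [C_dvd_iff_dvd_coeff]
      intro n
      have h2 : (G.map (Int.castRingHom K)).coeff n = 0 := by rw [h0, coeff_zero]
      rw [coeff_map, eq_intCast] at h2
      exact (CharP.intCast_eq_zero_iff K p _).1 h2
    have h3 := hG.1 _ h1
    have h4 := Int.isUnit_iff_natAbs_eq.1 h3
    rw [Int.natAbs_natCast] at h4
    exact (Fact.out : p.Prime).one_lt.ne' h4
  have hsub : ((univ : Finset K).filter fun x => aeval x G = 0) ⊆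
      (G.map (Int.castRingHom K)).roots.toFinset := by
    intro x hx
    rw [Multiset.mem_toFinset, mem_roots hne, IsRoot.def, eval_map]
    have h1 := (Finset.mem_filter.1 hx).2
    rw [aeval_def] at h1
    exact h1
  refine (Finset.card_le_card hsub).trans ((Multiset.toFinset_card_le _).trans
    ((card_roots' _).trans (natDegree_map_le.trans hG.2.1.le)))

/-- The constant. -/
noncomputable def CGr (κ : ℕ) : ℝ := (2 ^ (κ + 4) * κ) ^ κ

lemma CGr_nonneg (κ : ℕ) : 0 ≤ CGr κ := by unfold CGr; positivity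

lemma cG_le {κ q0 N : ℕ} (hκ : 1 ≤ κ) (hq : 1 ≤ q0) (hN : q0 ^ (4 * κ) ≤ N) :
    (cG κ q0 : ℝ) ≤ CGr κ * Real.sqrt (Real.sqrt N) := by
  have h1 : ((q0 : ℝ)) ^ κ ≤ Real.sqrt (Real.sqrt N) := by
    apply Real.le_sqrt_of_sq_le
    apply Real.le_sqrt_of_sq_le
    have h2 : ((q0 : ℝ)) ^ (4 * κ) ≤ N := by exact_mod_cast hN
    calc (((q0 : ℝ) ^ κ) ^ 2) ^ 2 = (q0 : ℝ) ^ (4 * κ) := by rw [← pow_mul, ← pow_mul]; ring_nf
      _ ≤ N := h2
  have h3 : ((cG κ q0 : ℕ) : ℝ) ≤ CGr κ * (q0 : ℝ) ^ κ := by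
    unfold cG CGr
    rw [← mul_pow]
    push_cast
    apply pow_le_pow_left₀ (by positivity)
    have h4 : (1 : ℝ) ≤ 2 ^ κ := one_le_pow₀ (by norm_num)
    have h5 : (1 : ℝ) ≤ κ := by exact_mod_cast hκ
    have h6 : (1 : ℝ) ≤ q0 := by exact_mod_cast hq
    have h7 : (1 : ℝ) ≤ 2 ^ κ * (κ * q0) := by
      have := mul_le_mul h5 h6 zero_le_one (by linarith)
      nlinarith
    have h8 : (2 : ℝ) ^ (κ + 4) = 16 * 2 ^ κ := by rw [pow_add]; ring
    rw [h8]
    nlinarith
  exact h3.trans (mul_le_mul_of_nonneg_left h1 (CGr_nonneg κ))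

end Count

section Terms

variable {M H : ℕ} [NeZero M] {J : Type} [Fintype J] [DecidableEq J]

/-- The total weight. -/
noncomputable def ZZ (J : Type) [Fintype J] [DecidableEq J] (M H : ℕ) [NeZero M] : ℝ :=
  ∑ a : J → ZMod M, WW H a

lemma ZZ_nonneg : 0 ≤ ZZ J M H := Finset.sum_nonneg fun a _ => WW_nonneg H a

/-- A sum over terms which are mostly zero. -/
lemma sum_terms {Z : Type} (S B : Finset Z) (T : Z → (J → ZMod M) → ℝ)
    (hT : ∀ z a, |T z a| ≤ 1) (hB : ∀ z ∈ S, ∑ a : J → ZMod M, WW H a * T z a ≠ 0 → z ∈ B) :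
    |∑ a : J → ZMod M, WW H a * ∑ z ∈ S, T z a| ≤ ZZ J M H * B.card := by
  classical
  have h1 : ∑ a : J → ZMod M, WW H a * ∑ z ∈ S, T z a =
      ∑ z ∈ S, ∑ a : J → ZMod M, WW H a * T z a := by
    simp_rw [Finset.mul_sum]
    rw [Finset.sum_comm]
  have h2 : ∑ z ∈ S, ∑ a : J → ZMod M, WW H a * T z a =
      ∑ z ∈ S.filter (fun z => z ∈ B), ∑ a : J → ZMod M, WW H a * T z a := by
    rw [Finset.sum_filter]
    refine Finset.sum_congr rfl fun z hz => ?_
    by_cases h : z ∈ B
    · rw [if_pos h]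
    · rw [if_neg h]
      by_contra hne
      exact h (hB z hz hne)
  have h3 : ∀ z, |∑ a : J → ZMod M, WW H a * T z a| ≤ ZZ J M H := by
    intro z
    refine (Finset.abs_sum_le_sum_abs _ _).trans ?_
    refine Finset.sum_le_sum fun a _ => ?_
    rw [abs_mul, abs_of_nonneg (WW_nonneg H a)]
    exact mul_le_of_le_one_right (WW_nonneg H a) (hT z a)
  rw [h1, h2]
  refine (Finset.abs_sum_le_sum_abs _ _).trans ((Finset.sum_le_sum fun z _ => h3 z).trans ?_)
  rw [Finset.sum_const, nsmul_eq_mul, mul_comm]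
  apply mul_le_mul_of_nonneg_left _ ZZ_nonneg
  have h4 : (S.filter fun z => z ∈ B).card ≤ B.card := by
    apply Finset.card_le_card
    intro z hz
    exact (Finset.mem_filter.1 hz).2
  exact_mod_cast h4

end Terms

end Pool.Agent.Helper28.TL
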