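import Pool.Agent.Helper28.TL.Dsc

set_option autoImplicit false

namespace Pool.Agent.Helper28.TL

open Polynomial Finset
open Pool.Agent.Helper28.TC (blk pl BA bx card_box PR Bs)
open Pool.Agent.Helper28.TC.N (Idx pol rd map_pol hom_finite card_hom_le exists_ne_zero good_iff
  tt t1 t1_eq f1)

section Det

variable {R : Type} [CommRing R] {k d : ℕ} {g : Fin k → ℕ} (b : Module.Basis (Fin d) ℤ R)

lemma BT_nonneg (p : ℕ) (a : Idx g × Fin d → ℤ) : 0 ≤ BT b p a := by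
  classical
  unfold BT
  by_cases hp : p.Prime
  · have hpf : Fact p.Prime := ⟨hp⟩
    have hfin : Finite (R →+* ZMod p) := hom_finite b
    have := Fintype.ofFinite (R →+* ZMod p)
    rw [HT_eq]
    exact Finset.sum_nonneg fun φ _ => by split_ifs <;> norm_num
  · unfold HT
    rw [dif_neg hp]

lemma YT_nonneg (β : Bs k) (p : ℕ) (a : Idx g × Fin d → ℤ) : 0 ≤ YT b β p a := by
  unfold YT
  by_cases hp : p.Prime
  · have hpf : Fact p.Prime := ⟨hp⟩
    have hfin : Finite (R →+* ZMod p) := hom_finite b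
    have := Fintype.ofFinite (R →+* ZMod p)
    rw [HT_eq]
    exact Finset.sum_nonneg fun φ _ => sq_nonneg _
  · unfold HT
    rw [dif_neg hp]

lemma ET_nonneg (p : ℕ) (a : Idx g × Fin d → ℤ) : 0 ≤ ET b p a := by
  unfold ET
  by_cases hp : p.Prime
  · have hpf : Fact p.Prime := ⟨hp⟩
    have hfin : Finite (R →+* ZMod p) := hom_finite b
    have := Fintype.ofFinite (R →+* ZMod p)
    rw [HT_eq]
    exact Finset.sum_nonneg fun φ _ => er_nonneg _
  · unfold HT
    rw [dif_neg hp]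

/-- The difference of the term and its main part. -/
lemma tt_sub {w : ∀ p : ℕ, (R →+* ZMod p) → ℝ} (hw : ∀ p φ, |w p φ| ≤ 1) (β : Bs k) {p : ℕ}
    (hp : p.Prime) (a : Idx g × Fin d → ℤ) :
    |tt b w β p a - VT b w β p a| ≤ Ce g * ET b p a +
      (2 * BT b p a + Real.sqrt (BT b p a) * Real.sqrt (YT b β p a)) := by
  classical
  have hpf : Fact p.Prime := ⟨hp⟩
  have hfin : Finite (R →+* ZMod p) := hom_finite b
  have := Fintype.ofFinite (R →+* ZMod p)
  have e1 : tt b w β p a = ∑ φ : R →+* ZMod p, w p φ * f1 β p (rd b φ a) := by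
    unfold tt
    rw [finsum_eq_sum_of_fintype]
    exact Finset.sum_congr rfl fun φ _ => by rw [t1_eq]
  have e2 : VT b w β p a = ∑ φ : R →+* ZMod p, w p φ * v1 β p (rd b φ a) := HT_eq _ _ _
  have e3 : ET b p a = ∑ φ : R →+* ZMod p, er p (rd b φ a) := HT_eq _ _ _
  have e4 : BT b p a = ∑ φ : R →+* ZMod p,
    if ¬ (p ≠ 2 ∧ rd b φ a ∉ BA p g) then (1 : ℝ) else 0 := HT_eq _ _ _
  have e5 : YT b β p a = ∑ φ : R →+* ZMod p, v1 β p (rd b φ a) ^ 2 := HT_eq _ _ _
  have hCe := Ce_nonneg (g := g)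
  have h1 : ∀ φ : R →+* ZMod p,
      |w p φ * f1 β p (rd b φ a) - w p φ * v1 β p (rd b φ a)| ≤
      Ce g * er p (rd b φ a) + (2 * (if ¬ (p ≠ 2 ∧ rd b φ a ∉ BA p g) then (1 : ℝ) else 0) +
        (if ¬ (p ≠ 2 ∧ rd b φ a ∉ BA p g) then (1 : ℝ) else 0) * |v1 β p (rd b φ a)|) := by
    intro φ
    rw [← mul_sub, abs_mul]
    have h2 : |w p φ| * |f1 β p (rd b φ a) - v1 β p (rd b φ a)| ≤
        |f1 β p (rd b φ a) - v1 β p (rd b φ a)| :=
      mul_le_of_le_one_left (abs_nonneg _) (hw p φ)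
    refine h2.trans ?_
    have h3 := er_nonneg (g := g) (rd b φ a)
    by_cases h : ¬ (p ≠ 2 ∧ rd b φ a ∉ BA p g)
    · rw [if_pos h]
      have h4 := cmp_bad h β
      have h5 : 0 ≤ Ce g * er p (rd b φ a) := mul_nonneg hCe h3
      linarith
    · rw [if_neg h]
      rw [not_not] at h
      have h4 := cmp_good h.1 h.2 β
      linarith
  rw [e1, e2, ← Finset.sum_sub_distrib]
  refine (Finset.abs_sum_le_sum_abs _ _).trans ((Finset.sum_le_sum fun φ _ => h1 φ).trans ?_)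
  rw [Finset.sum_add_distrib, Finset.sum_add_distrib, ← Finset.mul_sum, ← Finset.mul_sum, ← e3,
    ← e4]
  have h2 : ∑ φ : R →+* ZMod p, (if ¬ (p ≠ 2 ∧ rd b φ a ∉ BA p g) then (1 : ℝ) else 0) *
      |v1 β p (rd b φ a)| ≤ Real.sqrt (BT b p a) * Real.sqrt (YT b β p a) := by
    refine (Real.sum_mul_le_sqrt_mul_sqrt _ _ _).trans (le_of_eq ?_)
    rw [e4, e5]
    congr 2
    · refine Finset.sum_congr rfl fun φ _ => ?_
      split_ifs <;> norm_num
    · refine Finset.sum_congr rfl fun φ _ => ?_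
      rw [sq_abs]
  linarith

/-- The sum of the terms. -/
lemma sum_tt {w : ∀ p : ℕ, (R →+* ZMod p) → ℝ} (hw : ∀ p φ, |w p φ| ≤ 1) (β : Bs k) (T : ℕ)
    (a : Idx g × Fin d → ℤ) :
    |∑ p ∈ PR T, Real.log p * tt b w β p a| ≤ |∑ p ∈ PR T, Real.log p * VT b w β p a| +
      (Ce g * ∑ p ∈ PR T, Real.log p * ET b p a +
        (2 * ∑ p ∈ PR T, Real.log p * BT b p a +
          Real.sqrt (∑ p ∈ PR T, Real.log p * BT b p a) *
            Real.sqrt (∑ p ∈ PR T, Real.log p * YT b β p a))) := by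
  have hPR : ∀ p ∈ PR T, p.Prime := fun p hp => (Finset.mem_filter.1 hp).2
  have hlog : ∀ p ∈ PR T, 0 ≤ Real.log p := fun p hp =>
    Real.log_nonneg (by exact_mod_cast (hPR p hp).one_le)
  have e1 : ∑ p ∈ PR T, Real.log p * tt b w β p a = ∑ p ∈ PR T, Real.log p * VT b w β p a +
      ∑ p ∈ PR T, Real.log p * (tt b w β p a - VT b w β p a) := by
    rw [← Finset.sum_add_distrib]
    exact Finset.sum_congr rfl fun p _ => by ring
  rw [e1]
  refine (abs_add_le _ _).trans (add_le_add le_rfl ?_)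
  refine (Finset.abs_sum_le_sum_abs _ _).trans ?_
  have h1 : ∀ p ∈ PR T, |Real.log p * (tt b w β p a - VT b w β p a)| ≤
      Ce g * (Real.log p * ET b p a) + (2 * (Real.log p * BT b p a) +
        Real.sqrt (Real.log p * BT b p a) * Real.sqrt (Real.log p * YT b β p a)) := by
    intro p hp
    rw [abs_mul, abs_of_nonneg (hlog p hp)]
    refine (mul_le_mul_of_nonneg_left (tt_sub b hw β (hPR p hp) a) (hlog p hp)).trans
      (le_of_eq ?_)
    rw [Real.sqrt_mul (hlog p hp), Real.sqrt_mul (hlog p hp)]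
    have h2 : Real.sqrt (Real.log p) * Real.sqrt (BT b p a) *
        (Real.sqrt (Real.log p) * Real.sqrt (YT b β p a)) =
        (Real.sqrt (Real.log p) * Real.sqrt (Real.log p)) *
          (Real.sqrt (BT b p a) * Real.sqrt (YT b β p a)) := by ring
    rw [h2, Real.mul_self_sqrt (hlog p hp)]
    ring
  refine (Finset.sum_le_sum h1).trans ?_
  rw [Finset.sum_add_distrib, Finset.sum_add_distrib, ← Finset.mul_sum, ← Finset.mul_sum]
  have h3 : ∑ p ∈ PR T, Real.sqrt (Real.log p * BT b p a) * Real.sqrt (Real.log p * YT b β p a) ≤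
      Real.sqrt (∑ p ∈ PR T, Real.log p * BT b p a) *
        Real.sqrt (∑ p ∈ PR T, Real.log p * YT b β p a) := by
    refine (Real.sum_mul_le_sqrt_mul_sqrt _ _ _).trans (le_of_eq ?_)
    congr 2
    · refine Finset.sum_congr rfl fun p hp => ?_
      rw [Real.sq_sqrt (mul_nonneg (hlog p hp) (BT_nonneg b p a))]
    · refine Finset.sum_congr rfl fun p hp => ?_
      rw [Real.sq_sqrt (mul_nonneg (hlog p hp) (YT_nonneg b β p a))]
  linarith

/-- The numerical inequality. -/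
lemma final_real {V E Bd Y C c s t L lB ε : ℝ} (hs : 1 ≤ s) (ht : t = s ^ 2) (hL : 0 ≤ L)
    (hc : 0 ≤ c) (hV : V ≤ 1 / 4 * (s * L ^ 3)) (hC : 0 ≤ C) (hE : E ≤ ε * (s * L ^ 3))
    (hε : C * ε ≤ 1 / 4) (hB0 : 0 ≤ Bd) (hB : Bd ≤ c * lB) (hlB : lB ≤ 2 * L)
    (hY : Y ≤ t * L ^ 3) (hcL : 32 * c ≤ L ^ 2) :
    V + (C * E + (2 * Bd + Real.sqrt Bd * Real.sqrt Y)) ≤ s * L ^ 3 := by
  have hsL : 0 ≤ s * L ^ 3 := by positivity
  have h1 : C * E ≤ 1 / 4 * (s * L ^ 3) := by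
    calc C * E ≤ C * (ε * (s * L ^ 3)) := mul_le_mul_of_nonneg_left hE hC
      _ = (C * ε) * (s * L ^ 3) := by ring
      _ ≤ _ := mul_le_mul_of_nonneg_right hε hsL
  have h2 : Bd ≤ 2 * c * L := by
    refine hB.trans ?_
    calc c * lB ≤ c * (2 * L) := mul_le_mul_of_nonneg_left hlB hc
      _ = _ := by ring
  have h3 : 2 * c * L ≤ 1 / 16 * L ^ 3 := by nlinarith
  have h4 : 1 / 16 * L ^ 3 ≤ 1 / 16 * (s * L ^ 3) := by
    have : 0 ≤ L ^ 3 := by positivity
    nlinarith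
  have h5 : Real.sqrt Bd * Real.sqrt Y ≤ 1 / 4 * (s * L ^ 3) := by
    rw [← Real.sqrt_mul hB0]
    apply Real.sqrt_le_iff.2
    refine ⟨by positivity, ?_⟩
    rcases le_total Y 0 with hY0 | hY0
    · have : Bd * Y ≤ 0 := mul_nonpos_of_nonneg_of_nonpos hB0 hY0
      have h6 : 0 ≤ (1 / 4 * (s * L ^ 3)) ^ 2 := sq_nonneg _
      linarith
    · calc Bd * Y ≤ (1 / 16 * L ^ 3) * (t * L ^ 3) :=
            mul_le_mul (h2.trans h3) hY hY0 (by positivity)
        _ = _ := by rw [ht]; ring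
  linarith

end Det

end Pool.Agent.Helper28.TL
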