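import Pool.Agent.Helper28.TL.Prs

set_option autoImplicit false

namespace Pool.Agent.Helper28.TL

open Polynomial Finset
open Pool.Agent.Helper28.TC (WW WW_nonneg qc qc_abs ringCharK LP up cc cc_abs WF XK mem_XK)
open Pool.Agent.Helper28.TC.N (Idx)

section Dia

variable {R : Type} [CommRing R] {k d : ℕ} {g : Fin k → ℕ} {M H p : ℕ} [NeZero M]
  [Fact p.Prime] (b : Fin d → R) (c : Fin d → ℤ) (hc : ∑ l, (c l : R) * b l = 1)
  (φ : R →+* ZMod p) (h : p ∣ M)

include hc in
lemma one_tuple (hp : p ≠ 2) (i : Fin k) {κ q0 q1 N : ℕ}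
    (ha : Adm (2 * g i + 2) M H κ q0 q1 N) (hN : p ^ 4 ≤ N) (w : Fin 4 → ZMod p)
    (hne : ∑ a : Idx g × Fin d → ZMod M, WW H a *
      (∏ m, qc (ZMod p) (LX b φ h (ZMod p) i (w m) a)) ≠ 0) :
    ∃ G, Sml κ q0 G ∧ ∀ m₀, (∀ m, m ≠ m₀ → w m ≠ w m₀) → aeval (w m₀) G = 0 := by
  classical
  have hcard : Fintype.card (↥(univ.image w)) ≤ 4 := by
    rw [Fintype.card_coe]
    exact Finset.card_image_le.trans (by simp)
  obtain ⟨G, hG, hG1⟩ := one_cluster (H := H) b c hc φ h (ZMod p) (Ω := ↥(univ.image w)) hp i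
    (X := Subtype.val) (itp_inj Subtype.val_injective hcard) ha
    (by
      rw [ZMod.card]
      exact (Nat.pow_le_pow_right (Fact.out : p.Prime).pos hcard).trans hN)
    (fun m : Fin 4 => (⟨w m, Finset.mem_image_of_mem w (Finset.mem_univ m)⟩ : ↥(univ.image w))) hne
  refine ⟨G, hG, fun m₀ hm₀ => hG1 m₀ fun m hm he => hm₀ m hm ?_⟩
  exact congrArg Subtype.val he

/-- The condition on the points of a nonvanishing term. -/
def QQ (κ q0 : ℕ) (z : (ZMod p × ZMod p) × (ZMod p × ZMod p)) : Prop :=
  ∃ G, Sml κ q0 G ∧ ((aeval z.1.1 G = 0 ∧ aeval z.2.1 G = 0) ∧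
    (z.1.2 = z.2.2 ∨ (aeval z.1.2 G = 0 ∧ aeval z.2.2 G = 0)))

open Classical in
lemma card_QQ (κ q0 : ℕ) :
    ((univ : Finset ((ZMod p × ZMod p) × (ZMod p × ZMod p))).filter (QQ κ q0)).card ≤
      cG κ q0 * (κ * κ * (p + κ * κ)) := by
  apply card_exists
  intro G hG
  obtain ⟨r, hr⟩ : ∃ r, r = ((univ : Finset (ZMod p)).filter fun x => aeval x G = 0) := ⟨_, rfl⟩
  have hrc : r.card ≤ κ := by
    rw [hr]
    exact card_root (p := p) (K := ZMod p) hG
  have hrm : ∀ x, aeval x G = 0 → x ∈ r := by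
    intro x hx
    rw [hr, Finset.mem_filter]
    exact ⟨Finset.mem_univ _, hx⟩
  refine ⟨((r ×ˢ r) ×ˢ (univ : Finset (ZMod p))).image (fun z => ((z.1.1, z.2), (z.1.2, z.2))) ∪
    ((r ×ˢ r) ×ˢ (r ×ˢ r)).image (fun z => ((z.1.1, z.2.1), (z.1.2, z.2.2))), ?_, ?_⟩
  · refine (Finset.card_union_le _ _).trans ?_
    have h1 : (((r ×ˢ r) ×ˢ (univ : Finset (ZMod p))).image
        (fun z => ((z.1.1, z.2), (z.1.2, z.2)))).card ≤ κ * κ * p := by
      refine Finset.card_image_le.trans ?_
      rw [Finset.card_product, Finset.card_product, Finset.card_univ, ZMod.card]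
      exact Nat.mul_le_mul_right p (Nat.mul_le_mul hrc hrc)
    have h2 : (((r ×ˢ r) ×ˢ (r ×ˢ r)).image
        (fun z => ((z.1.1, z.2.1), (z.1.2, z.2.2)))).card ≤ κ * κ * (κ * κ) := by
      refine Finset.card_image_le.trans ?_
      rw [Finset.card_product, Finset.card_product]
      exact Nat.mul_le_mul (Nat.mul_le_mul hrc hrc) (Nat.mul_le_mul hrc hrc)
    calc _ ≤ κ * κ * p + κ * κ * (κ * κ) := Nat.add_le_add h1 h2
      _ = _ := by ring
  · rintro ⟨⟨x, y⟩, ⟨x', y'⟩⟩ ⟨⟨h1, h2⟩, h3⟩
    simp only at h1 h2 h3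
    rw [Finset.mem_union]
    rcases h3 with h3 | ⟨h3, h4⟩
    · left
      rw [Finset.mem_image]
      refine ⟨((x, x'), y), ?_, ?_⟩
      · rw [Finset.mem_product, Finset.mem_product]
        exact ⟨⟨hrm _ h1, hrm _ h2⟩, Finset.mem_univ _⟩
      · rw [h3]
    · right
      rw [Finset.mem_image]
      refine ⟨((x, x'), (y, y')), ?_, rfl⟩
      rw [Finset.mem_product, Finset.mem_product, Finset.mem_product]
      exact ⟨⟨hrm _ h1, hrm _ h2⟩, ⟨hrm _ h3, hrm _ h4⟩⟩

include hc in
/-- The second moment of the sum over the pairs of distinct points. -/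
lemma diagB (hp : p ≠ 2) {i : Fin k} {κ q0 q1 N : ℕ}
    (ha : Adm (2 * g i + 2) M H κ q0 q1 N) (hN : p ^ 4 ≤ N) :
    |∑ a : Idx g × Fin d → ZMod M, WW H a * (BB i (rdM b φ h a) * BB i (rdM b φ h a))| ≤
      ZZ (Idx g × Fin d) M H *
        ((2 * p ^ 2 + 4 * (cG κ q0 * (κ * κ * (p + κ * κ))) : ℕ) : ℝ) := by
  classical
  have e0 : ∀ a : Idx g × Fin d → ZMod M, BB i (rdM b φ h a) * BB i (rdM b φ h a) =
      ∑ z ∈ (univ : Finset (ZMod p)).offDiag ×ˢ (univ : Finset (ZMod p)).offDiag,
        (cc i (some z.1.1) (rdM b φ h a) * cc i (some z.1.2) (rdM b φ h a)) *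
        (cc i (some z.2.1) (rdM b φ h a) * cc i (some z.2.2) (rdM b φ h a)) := by
    intro a
    unfold BB
    rw [Finset.sum_mul_sum, ← Finset.sum_product']
  simp_rw [e0]
  obtain ⟨Q, hQ⟩ : ∃ Q, Q = ((univ : Finset ((ZMod p × ZMod p) × (ZMod p × ZMod p))).filter
    (QQ κ q0)) := ⟨_, rfl⟩
  have hQm : ∀ z, QQ κ q0 z → z ∈ Q := by
    intro z hz
    rw [hQ, Finset.mem_filter]
    exact ⟨Finset.mem_univ _, hz⟩
  have hQc : Q.card ≤ cG κ q0 * (κ * κ * (p + κ * κ)) := by rw [hQ]; exact card_QQ κ q0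
  obtain ⟨P, hP⟩ : ∃ P : Finset ((ZMod p × ZMod p) × (ZMod p × ZMod p)),
      P = (univ : Finset (ZMod p × ZMod p)).image (fun z => (z, z)) ∪
        (univ : Finset (ZMod p × ZMod p)).image (fun z => (z, z.swap)) := ⟨_, rfl⟩
  have hPc : P.card ≤ 2 * p ^ 2 := by
    rw [hP]
    refine (Finset.card_union_le _ _).trans ?_
    have h1 : ((univ : Finset (ZMod p × ZMod p)).image (fun z => (z, z))).card ≤ p ^ 2 := by
      refine Finset.card_image_le.trans ?_
      rw [Finset.card_univ, Fintype.card_prod, ZMod.card, sq]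
    have h2 : ((univ : Finset (ZMod p × ZMod p)).image (fun z => (z, z.swap))).card ≤ p ^ 2 := by
      refine Finset.card_image_le.trans ?_
      rw [Finset.card_univ, Fintype.card_prod, ZMod.card, sq]
    omega
  have h1 := sum_terms (M := M) (H := H) (J := Idx g × Fin d)
    ((univ : Finset (ZMod p)).offDiag ×ˢ (univ : Finset (ZMod p)).offDiag)
    (P ∪ (Q ∪ Q.image (fun z => (z.1, z.2.swap)) ∪
      (Q.image (fun z => (z.1.swap, z.2)) ∪ Q.image (fun z => (z.1.swap, z.2.swap)))))
    (fun z a => (cc i (some z.1.1) (rdM b φ h a) * cc i (some z.1.2) (rdM b φ h a)) *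
        (cc i (some z.2.1) (rdM b φ h a) * cc i (some z.2.2) (rdM b φ h a)))
    (fun z a => abs_mul_le_one (abs_mul_le_one (cc_abs _ _ _) (cc_abs _ _ _))
      (abs_mul_le_one (cc_abs _ _ _) (cc_abs _ _ _)))
    (by
      rintro ⟨⟨x, y⟩, ⟨x', y'⟩⟩ hz hne
      rw [Finset.mem_product, Finset.mem_offDiag, Finset.mem_offDiag] at hz
      have hxy : x ≠ y := hz.1.2.2
      have hxy' : x' ≠ y' := hz.2.2.2
      obtain ⟨G, hG, hG1⟩ := one_tuple (H := H) b c hc φ h hp i ha hN ![x, y, x', y'] (by
        intro h0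
        apply hne
        rw [← h0]
        refine Finset.sum_congr rfl fun a _ => ?_
        rw [Fin.prod_univ_four]
        change WW H a * ((cc i (some x) (rdM b φ h a) * cc i (some y) (rdM b φ h a)) *
          (cc i (some x') (rdM b φ h a) * cc i (some y') (rdM b φ h a))) =
          WW H a * (cc i (some x) (rdM b φ h a) * cc i (some y) (rdM b φ h a) *
          cc i (some x') (rdM b φ h a) * cc i (some y') (rdM b φ h a))
        ring)
      have r0 : y ≠ x → x' ≠ x → y' ≠ x → aeval x G = 0 := by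
        intro h1 h2 h3
        apply hG1 0
        intro m hm
        fin_cases m
        · exact absurd rfl hm
        · exact h1
        · exact h2
        · exact h3
      have r1 : x ≠ y → x' ≠ y → y' ≠ y → aeval y G = 0 := by
        intro h1 h2 h3
        apply hG1 1
        intro m hm
        fin_cases m
        · exact h1
        · exact absurd rfl hm
        · exact h2
        · exact h3
      have r2 : x ≠ x' → y ≠ x' → y' ≠ x' → aeval x' G = 0 := by
        intro h1 h2 h3
        apply hG1 2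
        intro m hm
        fin_cases m
        · exact h1
        · exact h2
        · exact absurd rfl hm
        · exact h3
      have r3 : x ≠ y' → y ≠ y' → x' ≠ y' → aeval y' G = 0 := by
        intro h1 h2 h3
        apply hG1 3
        intro m hm
        fin_cases m
        · exact h1
        · exact h2
        · exact h3
        · exact absurd rfl hm
      rw [Finset.mem_union, Finset.mem_union, Finset.mem_union, Finset.mem_union]
      by_cases c1 : x = x'
      · by_cases c2 : y = y'
        · left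
          rw [hP, Finset.mem_union]
          left
          rw [Finset.mem_image]
          exact ⟨(x, y), Finset.mem_univ _, by rw [c1, c2]⟩
        · -- `y` and `y'` are zeros
          right; right; right
          rw [Finset.mem_image]
          refine ⟨((y, x), (y', x')), hQm _ ⟨G, hG, ⟨r1 hxy (fun h => hxy (c1.trans h))
            (fun h => c2 h.symm), r3 (fun h => hxy' (c1.symm.trans h)) c2 hxy'⟩, Or.inl c1⟩, rfl⟩
      · by_cases c2 : x = y'
        · by_cases c3 : y = x'
          · left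
            rw [hP, Finset.mem_union]
            right
            rw [Finset.mem_image]
            exact ⟨(x, y), Finset.mem_univ _, by rw [c2, c3]; rfl⟩
          · -- `y` and `x'` are zeros
            right; right; left
            rw [Finset.mem_image]
            refine ⟨((y, x), (x', y')), hQm _ ⟨G, hG, ⟨r1 hxy (fun h => c3 h.symm)
              (fun h => hxy (c2.trans h)), r2 c1 c3 hxy'.symm⟩, Or.inl c2⟩, rfl⟩
        · -- `x` is a zero
          have z0 := r0 hxy.symm (fun h => c1 h.symm) (fun h => c2 h.symm)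
          by_cases c3 : y = x'
          · right; left; right
            rw [Finset.mem_image]
            refine ⟨((x, y), (y', x')), hQm _ ⟨G, hG, ⟨z0, r3 c2
              (fun h => hxy' (c3.symm.trans h)) hxy'⟩, Or.inl c3⟩, rfl⟩
          · by_cases c4 : y = y'
            · right; left; left
              exact hQm _ ⟨G, hG, ⟨z0, r2 c1 c3 hxy'.symm⟩, Or.inl c4⟩
            · right; left; left
              exact hQm _ ⟨G, hG, ⟨z0, r2 c1 c3 hxy'.symm⟩, Or.inr ⟨r1 hxy (fun h => c3 h.symm)
                (fun h => c4 h.symm), r3 c2 c4 hxy'⟩⟩)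
  refine h1.trans ?_
  apply mul_le_mul_of_nonneg_left _ ZZ_nonneg
  have h2 : (P ∪ (Q ∪ Q.image (fun z => (z.1, z.2.swap)) ∪
      (Q.image (fun z => (z.1.swap, z.2)) ∪ Q.image (fun z => (z.1.swap, z.2.swap))))).card ≤
      2 * p ^ 2 + 4 * (cG κ q0 * (κ * κ * (p + κ * κ))) := by
    refine (Finset.card_union_le _ _).trans ?_
    have s1 := Finset.card_union_le (Q ∪ Q.image (fun z => (z.1, z.2.swap)))
      (Q.image (fun z => (z.1.swap, z.2)) ∪ Q.image (fun z => (z.1.swap, z.2.swap)))
    have s2 := Finset.card_union_le Q (Q.image (fun z => (z.1, z.2.swap)))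
    have s3 := Finset.card_union_le (Q.image (fun z => (z.1.swap, z.2)))
      (Q.image (fun z => (z.1.swap, z.2.swap)))
    have t1 : (Q.image (fun z => (z.1, z.2.swap))).card ≤ Q.card := Finset.card_image_le
    have t2 : (Q.image (fun z => (z.1.swap, z.2))).card ≤ Q.card := Finset.card_image_le
    have t3 : (Q.image (fun z => (z.1.swap, z.2.swap))).card ≤ Q.card := Finset.card_image_le
    omega
  exact_mod_cast h2

variable (K : Type) [Field K] [Fintype K] [Algebra (ZMod p) K]

include hc in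
/-- The second moment of the sum over the points of degree two. -/
lemma diagW (hp : p ≠ 2) (hK : Fintype.card K = p ^ 2) {i : Fin k} {κ q0 q1 N : ℕ}
    (ha : Adm (2 * g i + 2) M H κ q0 q1 N) (hN : p ^ 4 ≤ N) :
    |∑ a : Idx g × Fin d → ZMod M, WW H a * (WF K i (rdM b φ h a) * WF K i (rdM b φ h a))| ≤
      ZZ (Idx g × Fin d) M H * ((2 * p ^ 2 + cG κ q0 * (κ * κ) : ℕ) : ℝ) := by
  classical
  have e0 : ∀ a : Idx g × Fin d → ZMod M, WF K i (rdM b φ h a) * WF K i (rdM b φ h a) =
      ∑ z ∈ (XK (p := p) K) ×ˢ (XK (p := p) K),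
        qc K (LP K i (some z.1) (rdM b φ h a)) * qc K (LP K i (some z.2) (rdM b φ h a)) := by
    intro a
    unfold WF
    rw [Finset.sum_mul_sum, ← Finset.sum_product']
  simp_rw [e0]
  have h1 := sum_terms (M := M) (H := H) (J := Idx g × Fin d)
    ((XK (p := p) K) ×ˢ (XK (p := p) K))
    (((univ : Finset K).image (fun x => (x, x)) ∪ (univ : Finset K).image (fun x => (x, x ^ p))) ∪
      ((univ : Finset (K × K)).filter fun z => ∃ G, Sml κ q0 G ∧
      (aeval z.1 G = 0 ∧ aeval z.2 G = 0)))
    (fun z a => qc K (LP K i (some z.1) (rdM b φ h a)) * qc K (LP K i (some z.2) (rdM b φ h a)))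
    (fun z a => abs_mul_le_one (qc_abs _) (qc_abs _))
    (by
      rintro ⟨x, y⟩ hz hne
      rw [Finset.mem_product, mem_XK, mem_XK] at hz
      rw [Finset.mem_union, Finset.mem_union]
      by_cases c1 : y = x
      · left; left
        rw [Finset.mem_image]
        exact ⟨x, Finset.mem_univ _, by rw [c1]⟩
      by_cases c2 : y = x ^ p
      · left; right
        rw [Finset.mem_image]
        exact ⟨x, Finset.mem_univ _, by rw [c2]⟩
      right
      rw [Finset.mem_filter]
      refine ⟨Finset.mem_univ _, ?_⟩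
      obtain ⟨G, hG, hG1⟩ := one_cluster (H := H) b c hc φ h K (Ω := Fin 2) hp i
        (X := ![x, y]) (itp_pair hK hz.1 hz.2 c1 c2) ha
        (by
          rw [hK, Fintype.card_fin, ← pow_mul]
          exact hN)
        (id : Fin 2 → Fin 2)
        (by
          intro h0
          apply hne
          rw [← h0]
          refine Finset.sum_congr rfl fun a _ => ?_
          rw [Fin.prod_univ_two]
          rfl)
      exact ⟨G, hG, hG1 0 (fun m hm => hm), hG1 1 (fun m hm => hm)⟩)
  refine h1.trans ?_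
  apply mul_le_mul_of_nonneg_left _ ZZ_nonneg
  have h2 : (((univ : Finset K).image (fun x => (x, x)) ∪
      (univ : Finset K).image (fun x => (x, x ^ p))) ∪
      ((univ : Finset (K × K)).filter fun z => ∃ G, Sml κ q0 G ∧
      (aeval z.1 G = 0 ∧ aeval z.2 G = 0))).card ≤ 2 * p ^ 2 + cG κ q0 * (κ * κ) := by
    refine (Finset.card_union_le _ _).trans ?_
    have s1 := Finset.card_union_le ((univ : Finset K).image (fun x => (x, x)))
      ((univ : Finset K).image (fun x => (x, x ^ p)))
    have t1 : ((univ : Finset K).image (fun x => (x, x))).card ≤ p ^ 2 := by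
      refine Finset.card_image_le.trans ?_
      rw [Finset.card_univ, hK]
    have t2 : ((univ : Finset K).image (fun x => (x, x ^ p))).card ≤ p ^ 2 := by
      refine Finset.card_image_le.trans ?_
      rw [Finset.card_univ, hK]
    have t3 := card_pairs (p := p) (q := p) (K₁ := K) (K₂ := K) κ q0
    omega
  exact_mod_cast h2

end Dia

end Pool.Agent.Helper28.TL
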