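import Pool.Agent.Helper28.TL.Pf
import Pool.Agent.Helper28.TL.Hom

set_option autoImplicit false

namespace Pool.Agent.Helper28.TL

open Polynomial Finset
open Pool.Agent.Helper28.TC (blk pl BA bx card_box PR)
open Pool.Agent.Helper28.TC.N (Idx pol rd map_pol hom_finite card_hom_le exists_ne_zero good_iff)

section Root

/-- The leading coefficient times the resultant of the polynomial and of its derivative. -/
noncomputable def Dsc {R : Type} [CommRing R] (n : ℕ) (f : R[X]) : R :=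
  f.coeff n * resultant f (derivative f) n (n - 1)

variable {R : Type} [CommRing R] {F : Type} [Field F]

lemma map_Dsc (φ : R →+* F) (n : ℕ) (f : R[X]) : φ (Dsc n f) = Dsc n (f.map φ) := by
  unfold Dsc
  rw [map_mul, coeff_map, derivative_map, resultant_map_map]

lemma Dsc_zero {n : ℕ} (hn : n ≠ 0) {f : F[X]} (hf : f.natDegree ≤ n)
    (h : ¬ (Squarefree f ∧ n - 1 ≤ f.natDegree)) : Dsc n f = 0 := by
  unfold Dsc
  by_contra hne
  have h1 : f.coeff n ≠ 0 := fun h => hne (by rw [h, zero_mul])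
  have h2 : resultant f (derivative f) n (n - 1) ≠ 0 := fun h => hne (by rw [h, mul_zero])
  have h3 : n ≤ f.natDegree := le_natDegree_of_ne_zero h1
  have h4 : ¬ Squarefree f := fun h5 => h ⟨h5, by omega⟩
  unfold Squarefree at h4
  push Not at h4
  obtain ⟨x, ⟨y, hy⟩, hx⟩ := h4
  have hd : (derivative f).natDegree ≤ n - 1 :=
    (natDegree_derivative_le f).trans (Nat.sub_le_sub_right hf 1)
  obtain ⟨p, q, _, _, hpq⟩ := exists_mul_add_mul_eq_C_resultant f (derivative f) hf hd
    (Or.inl hn)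
  have h5 : x ∣ f := ⟨x * y, by rw [hy]; ring⟩
  have h6 : x ∣ derivative f := by
    rw [hy, mul_assoc, derivative_mul, derivative_mul]
    exact ⟨derivative x * y + (derivative x * y + x * derivative y), by ring⟩
  have h7 : x ∣ C (resultant f (derivative f) n (n - 1)) := by
    rw [← hpq]
    exact dvd_add (h5.mul_right _) (h6.mul_right _)
  exact hx (isUnit_of_dvd_unit h7 (isUnit_C.2 (isUnit_iff_ne_zero.2 h2)))

end Root

section Poly

variable {J : Type} {R : Type} [CommRing R]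

lemma Pf_sylvester {f h : (J → ℤ) → R[X]} (hf : ∀ n, Pf 1 fun a => (f a).coeff n)
    (hh : ∀ n, Pf 1 fun a => (h a).coeff n) (m n : ℕ) (i j : Fin (m + n)) :
    Pf 1 fun a => sylvester (f a) (h a) m n i j := by
  unfold sylvester
  simp only [Matrix.of_apply]
  refine Fin.addCases (fun j₁ => ?_) (fun j₁ => ?_) j
  · simp only [Fin.addCases_left]
    split_ifs
    · exact hh _
    · exact Pf.const 1 0
  · simp only [Fin.addCases_right]
    split_ifs
    · exact hf _
    · exact Pf.const 1 0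

lemma Pf_Dsc {f : (J → ℤ) → R[X]} (hf : ∀ n, Pf 1 fun a => (f a).coeff n) {n : ℕ} (hn : 1 ≤ n) :
    Pf (2 * n) fun a => Dsc n (f a) := by
  have hd : ∀ n, Pf 1 fun a => (derivative (f a)).coeff n := by
    intro n
    simp_rw [coeff_derivative]
    exact (hf (n + 1)).mul_const _
  have h1 := (hf n).mul (Pf.det (fun a => sylvester (f a) (derivative (f a)) n (n - 1))
    (Pf_sylvester hf hd n (n - 1)))
  refine h1.mono ?_
  rw [Fintype.card_fin]
  omega

end Poly

section Norm

variable {J : Type} {R : Type} [CommRing R] {d : ℕ} (b : Module.Basis (Fin d) ℤ R)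

include b in
lemma Pf_norm [Fintype J] {m : ℕ} {F : (J → ℤ) → R} (h : Pf m F) :
    Pf (d * m) fun a => Algebra.norm ℤ (F a) := by
  have h1 : ∀ a, Algebra.norm ℤ (F a) = (Algebra.leftMulMatrix b (F a)).det :=
    fun a => Algebra.norm_eq_matrix_det b (F a)
  simp_rw [h1]
  have h2 := Pf.det (fun a => Algebra.leftMulMatrix b (F a)) (m := m) (fun i j => by
    simp_rw [Algebra.leftMulMatrix_eq_repr_mul]
    exact Pf.lin (b.coord i).toAddMonoidHom (h.mul_const (b j)))
  rwa [Fintype.card_fin] at h2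

include b in
lemma dvd_norm {p : ℕ} [Fact p.Prime] (φ : R →+* ZMod p) {x : R} (hx : φ x = 0) :
    (p : ℤ) ∣ Algebra.norm ℤ x := by
  rw [← ZMod.intCast_zmod_eq_zero_iff_dvd, Algebra.norm_eq_matrix_det b]
  have h1 : (((Algebra.leftMulMatrix b x).det : ℤ) : ZMod p) =
      ((Algebra.leftMulMatrix b x).map (Int.castRingHom (ZMod p))).det := by
    exact (Int.castRingHom (ZMod p)).map_det (Algebra.leftMulMatrix b x)
  rw [h1, ← Matrix.exists_vecMul_eq_zero_iff]
  refine ⟨fun i => φ (b i), ?_, ?_⟩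
  · intro h
    obtain ⟨i, hi⟩ := exists_ne_zero b φ
    exact hi (congrFun h i)
  · funext j
    have h2 : φ (x * b j) = ∑ i, φ (b i) * ((b.repr (x * b j) i : ℤ) : ZMod p) := by
      rw [Pool.Agent.Helper28.TC.N.hom_apply b φ (x * b j)]
      exact Finset.sum_congr rfl fun i _ => mul_comm _ _
    rw [map_mul, hx, zero_mul] at h2
    rw [Pi.zero_apply, h2]
    unfold Matrix.vecMul dotProduct
    refine Finset.sum_congr rfl fun i _ => ?_
    change φ (b i) * (((Algebra.leftMulMatrix b x) i j : ℤ) : ZMod p) = _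
    rw [Algebra.leftMulMatrix_eq_repr_mul]

end Norm

section Pol

variable {R : Type} [CommRing R] {k d : ℕ} {g : Fin k → ℕ} (b : Fin d → R)

lemma coeff_pol' (a : Idx g × Fin d → ℤ) (i : Fin k) (n : ℕ) :
    (pol b a i).coeff n = ∑ j : Fin (2 * g i + 3), if n = j then
      ∑ l, (a (⟨i, j⟩, l) : R) * b l else 0 := by
  unfold pol
  rw [finsetSum_coeff]
  refine Finset.sum_congr rfl fun j _ => ?_
  rw [coeff_C_mul, coeff_X_pow]
  split_ifs <;> simp

lemma Pf_pol (i : Fin k) (n : ℕ) : Pf 1 fun a : Idx g × Fin d → ℤ => (pol b a i).coeff n := by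
  simp_rw [coeff_pol']
  refine Pf.sum _ fun j _ => ?_
  split_ifs
  · exact Pf.sum _ fun l _ => (Pf.var _).mul_const _
  · exact Pf.const 1 0

lemma natDegree_pol (a : Idx g × Fin d → ℤ) (i : Fin k) :
    (pol b a i).natDegree ≤ 2 * g i + 2 := by
  unfold pol
  refine natDegree_sum_le_of_forall_le _ _ fun j _ => ?_
  refine (natDegree_C_mul_X_pow_le _ _).trans ?_
  omega

/-- The special vector: the polynomials `X ^ n - 1`. -/
lemma pol_special {c : Fin d → ℤ} (hc : ∑ l, (c l : R) * b l = 1) (i : Fin k) :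
    pol (g := g) b (fun x => if (x.1.2 : ℕ) = 2 * g x.1.1 + 2 then c x.2 else
      if (x.1.2 : ℕ) = 0 then - c x.2 else 0) i = X ^ (2 * g i + 2) - 1 := by
  ext n
  rw [coeff_pol', coeff_sub, coeff_X_pow, coeff_one]
  have h1 : ∀ j : Fin (2 * g i + 3), (if n = (j : ℕ) then
      ∑ l, (((if (j : ℕ) = 2 * g i + 2 then c l else if (j : ℕ) = 0 then - c l else 0 : ℤ)) : R) *
        b l else 0) = if n = (j : ℕ) then ((if n = 2 * g i + 2 then (1 : R) else 0) -
          (if n = 0 then (1 : R) else 0)) else 0 := by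
    intro j
    by_cases hj : n = (j : ℕ)
    · rw [if_pos hj, if_pos hj, ← hj]
      by_cases h2 : n = 2 * g i + 2
      · have h3 : n ≠ 0 := by omega
        simp only [if_pos h2, if_neg h3, hc, sub_zero]
      · by_cases h3 : n = 0
        · simp only [if_neg h2, if_pos h3, Int.cast_neg, neg_mul, Finset.sum_neg_distrib, hc]
          ring
        · simp only [if_neg h2, if_neg h3, Int.cast_zero, zero_mul, Finset.sum_const_zero,
            sub_zero]
    · rw [if_neg hj, if_neg hj]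
  rw [Finset.sum_congr rfl fun j _ => h1 j]
  by_cases hn : n < 2 * g i + 3
  · rw [Finset.sum_eq_single (⟨n, hn⟩ : Fin (2 * g i + 3))]
    · rw [if_pos rfl]
    · intro j _ hj
      rw [if_neg]
      intro h
      exact hj (Fin.ext h.symm)
    · intro h; exact absurd (Finset.mem_univ _) h
  · rw [Finset.sum_eq_zero]
    · have h2 : n ≠ 2 * g i + 2 := by omega
      have h3 : n ≠ 0 := by omega
      rw [if_neg h2, if_neg h3, sub_zero]
    · intro j _
      rw [if_neg]
      omega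

lemma Dsc_special (n : ℕ) (hn : 2 ≤ n) :
    ∃ z : ℤ, z ≠ 0 ∧ Dsc n (X ^ n - 1 : R[X]) = (z : R) := by
  refine ⟨(-1) ^ (n * (n - 1)) * (-1) ^ (n - 1) * (n : ℤ) ^ n, ?_, ?_⟩
  · have h1 : (n : ℤ) ≠ 0 := by exact_mod_cast (by omega : n ≠ 0)
    have h2 : (n : ℤ) ^ n ≠ 0 := pow_ne_zero _ h1
    have h3 : ((-1 : ℤ)) ^ (n * (n - 1)) ≠ 0 := pow_ne_zero _ (by norm_num)
    have h4 : ((-1 : ℤ)) ^ (n - 1) ≠ 0 := pow_ne_zero _ (by norm_num)
    exact mul_ne_zero (mul_ne_zero h3 h4) h2
  · have hd : derivative (X ^ n - 1 : R[X]) = C (n : R) * X ^ (n - 1) := by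
      rw [derivative_sub, derivative_one, sub_zero, derivative_X_pow]
    have hdeg : (X ^ n - 1 : R[X]).natDegree ≤ n := by
      refine (natDegree_sub_le _ _).trans (max_le (natDegree_X_pow_le n) ?_)
      rw [natDegree_one]; exact Nat.zero_le _
    unfold Dsc
    rw [hd, resultant_C_mul_right, resultant_X_pow_right _ _ _ hdeg, coeff_sub, coeff_X_pow,
      coeff_one, if_pos rfl, if_neg (by omega : n ≠ 0), coeff_sub, coeff_X_pow, coeff_one,
      if_neg (by omega : 0 ≠ n), if_pos rfl]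
    push_cast
    ring

end Pol

section Bad

variable {R : Type} [CommRing R] {k d : ℕ} {g : Fin k → ℕ} (b : Module.Basis (Fin d) ℤ R)

/-- The norm of the discriminant. -/
noncomputable def ND (i : Fin k) (a : Idx g × Fin d → ℤ) : ℤ :=
  Algebra.norm ℤ (Dsc (2 * g i + 2) (pol b a i))

lemma Pf_ND (i : Fin k) : Pf (d * (2 * (2 * g i + 2))) (ND (g := g) b i) :=
  Pf_norm b (Pf_Dsc (fun n => Pf_pol b i n) (by omega))

lemma ND_ne (i : Fin k) : ∃ a, ND (g := g) b i a ≠ 0 := by
  obtain ⟨c, hc⟩ := exists_c b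
  refine ⟨fun x => if (x.1.2 : ℕ) = 2 * g x.1.1 + 2 then c x.2 else
      if (x.1.2 : ℕ) = 0 then - c x.2 else 0, ?_⟩
  unfold ND
  rw [pol_special (g := g) b hc i]
  obtain ⟨z, hz, h⟩ := Dsc_special (R := R) (2 * g i + 2) (by omega)
  rw [h]
  have h1 : ((z : ℤ) : R) = algebraMap ℤ R z := (eq_intCast (algebraMap ℤ R) z).symm
  rw [h1, Algebra.norm_algebraMap_of_basis b]
  exact pow_ne_zero _ hz

open Classical in
/-- The number of bad homomorphisms. -/
noncomputable def BT : ℕ → (Idx g × Fin d → ℤ) → ℝ :=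
  HT (g := g) b fun p _ _ u => if ¬ (p ≠ 2 ∧ u ∉ BA p g) then 1 else 0

lemma bad_dvd {p : ℕ} [Fact p.Prime] (φ : R →+* ZMod p) (a : Idx g × Fin d → ℤ)
    (h : rd b φ a ∈ BA p g) : ∃ i, (p : ℤ) ∣ ND b i a := by
  classical
  unfold BA at h
  rw [Finset.mem_filter] at h
  obtain ⟨_, h⟩ := h
  push Not at h
  obtain ⟨i, hi⟩ := h
  refine ⟨i, dvd_norm b φ ?_⟩
  rw [map_Dsc, map_pol]
  apply Dsc_zero (by omega)
  · exact Pool.Agent.Helper28.TC.natDegree_pl _
  · rintro ⟨h1, h2⟩
    have := hi h1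
    omega

lemma BT_le {p : ℕ} (hp : p.Prime) (a : Idx g × Fin d → ℤ) :
    BT (g := g) b p a ≤ d * ((if p = 2 then 1 else 0) +
      ∑ i, if (p : ℤ) ∣ ND b i a then 1 else 0) := by
  classical
  have hpf : Fact p.Prime := ⟨hp⟩
  have hfin : Finite (R →+* ZMod p) := hom_finite b
  have := Fintype.ofFinite (R →+* ZMod p)
  have hcard : (Fintype.card (R →+* ZMod p) : ℝ) ≤ d := by exact_mod_cast card_hom_le b
  have h0 : 0 ≤ ∑ i, (if (p : ℤ) ∣ ND b i a then (1 : ℝ) else 0) :=
    Finset.sum_nonneg fun i _ => by split_ifs <;> norm_num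
  have h00 : (0 : ℝ) ≤ (if p = 2 then (1 : ℝ) else 0) := by split_ifs <;> norm_num
  unfold BT
  rw [HT_eq]
  have h1 : ∀ φ : R →+* ZMod p, (if ¬ (p ≠ 2 ∧ rd b φ a ∉ BA p g) then (1 : ℝ) else 0) ≤
      (if p = 2 then 1 else 0) + ∑ i, if (p : ℤ) ∣ ND b i a then 1 else 0 := by
    intro φ
    by_cases h : ¬ (p ≠ 2 ∧ rd b φ a ∉ BA p g)
    · rw [if_pos h]
      by_cases hp2 : p = 2
      · rw [if_pos hp2]
        linarith
      · have h2 : rd b φ a ∈ BA p g := by
          by_contra h3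
          exact h ⟨hp2, h3⟩
        obtain ⟨i, hi⟩ := bad_dvd b φ a h2
        have h3 : (1 : ℝ) ≤ ∑ i, (if (p : ℤ) ∣ ND b i a then (1 : ℝ) else 0) := by
          have h4 := Finset.single_le_sum
            (f := fun i => (if (p : ℤ) ∣ ND b i a then (1 : ℝ) else 0))
            (fun i _ => by split_ifs <;> norm_num) (Finset.mem_univ i)
          rw [if_pos hi] at h4
          exact h4
        linarith
    · rw [if_neg h]
      linarith
  refine (Finset.sum_le_sum fun φ _ => h1 φ).trans ?_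
  rw [Finset.sum_const, Finset.card_univ, nsmul_eq_mul]
  exact mul_le_mul_of_nonneg_right hcard (add_nonneg h00 h0)

lemma sum_log_dvd {N : ℤ} (hN : N ≠ 0) (T : ℕ) :
    ∑ p ∈ PR T, Real.log p * (if (p : ℤ) ∣ N then 1 else 0) ≤ Real.log |(N : ℝ)| := by
  classical
  have hN' : N.natAbs ≠ 0 := Int.natAbs_ne_zero.2 hN
  have h1 : ∑ p ∈ PR T, Real.log p * (if (p : ℤ) ∣ N then (1 : ℝ) else 0) ≤
      ∑ p ∈ N.natAbs.primeFactors, Real.log p := by
    simp only [mul_ite, mul_one, mul_zero]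
    rw [← Finset.sum_filter]
    apply Finset.sum_le_sum_of_subset_of_nonneg
    · intro p hp
      rw [Finset.mem_filter] at hp
      unfold PR at hp
      rw [Finset.mem_filter] at hp
      rw [Nat.mem_primeFactors]
      exact ⟨hp.1.2, Int.natCast_dvd.1 hp.2, hN'⟩
    · intro p hp _
      exact Real.log_nonneg (by exact_mod_cast (Nat.prime_of_mem_primeFactors hp).one_le)
  refine h1.trans ?_
  rw [← Real.log_prod]
  · have h2 : (∏ p ∈ N.natAbs.primeFactors, p) ≤ N.natAbs :=
      Nat.le_of_dvd (Nat.pos_of_ne_zero hN') (Nat.prod_primeFactors_dvd _)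
    have h3 : (0 : ℝ) < ∏ p ∈ N.natAbs.primeFactors, (p : ℝ) :=
      Finset.prod_pos fun p hp => by exact_mod_cast (Nat.prime_of_mem_primeFactors hp).pos
    apply Real.log_le_log h3
    have h4 : |(N : ℝ)| = ((N.natAbs : ℕ) : ℝ) := by
      rw [← Int.cast_abs, Int.abs_eq_natAbs]
      rfl
    rw [h4]
    have h5 : ((∏ p ∈ N.natAbs.primeFactors, p : ℕ) : ℝ) ≤ ((N.natAbs : ℕ) : ℝ) :=
      Nat.cast_le.2 h2
    rw [Nat.cast_prod] at h5
    exact h5
  · intro p hp
    exact_mod_cast (Nat.prime_of_mem_primeFactors hp).ne_zero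

/-- The constant in the bound for the bad primes. -/
noncomputable def CBd (g : Fin k → ℕ) (d : ℕ) : ℝ :=
  d * (1 + ∑ i, ((d * (2 * (2 * g i + 2)) : ℕ) + 1 : ℝ))

lemma CBd_nonneg : 0 ≤ CBd g d := by
  unfold CBd
  positivity

/-- The bound for the bad primes. -/
theorem bad_primes : ∃ B₀ : ℕ, ∀ B : ℕ, B₀ ≤ B → ∀ a ∈ bx (Idx g × Fin d) B,
    (∀ i, ND b i a ≠ 0) → ∀ T : ℕ,
      ∑ p ∈ PR T, Real.log p * BT (g := g) b p a ≤ CBd g d * Real.log B := by
  classical
  have h1 : ∀ i, ∃ C : ℕ, ∀ B : ℕ, 1 ≤ B → ∀ a ∈ bx (Idx g × Fin d) B,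
      |ND b i a| ≤ C * (B : ℤ) ^ (d * (2 * (2 * g i + 2))) := fun i => Pf.bound (Pf_ND b i)
  choose Cn hCn using h1
  refine ⟨2 + ∑ i, Cn i, fun B hB a ha hN T => ?_⟩
  have hB2 : 2 ≤ B := by omega
  have hBR : (2 : ℝ) ≤ B := by exact_mod_cast hB2
  have hlB : 0 < Real.log B := Real.log_pos (by linarith)
  have hPR : ∀ p ∈ PR T, p.Prime := fun p hp => (Finset.mem_filter.1 hp).2
  have h2 : ∑ p ∈ PR T, Real.log p * BT (g := g) b p a ≤
      d * (∑ p ∈ PR T, Real.log p * (if p = 2 then 1 else 0) +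
        ∑ i, ∑ p ∈ PR T, Real.log p * (if (p : ℤ) ∣ ND b i a then 1 else 0)) := by
    rw [Finset.sum_comm, ← Finset.sum_add_distrib, Finset.mul_sum]
    refine Finset.sum_le_sum fun p hp => ?_
    have h3 := BT_le b (hPR p hp) a
    have h4 : 0 ≤ Real.log p := Real.log_nonneg (by exact_mod_cast (hPR p hp).one_le)
    refine (mul_le_mul_of_nonneg_left h3 h4).trans (le_of_eq ?_)
    rw [← Finset.mul_sum]
    ring
  refine h2.trans ?_
  unfold CBd
  rw [mul_assoc]
  apply mul_le_mul_of_nonneg_left _ (Nat.cast_nonneg d)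
  rw [add_mul, one_mul, Finset.sum_mul]
  apply add_le_add
  · simp only [mul_ite, mul_one, mul_zero]
    rw [← Finset.sum_filter]
    have h3 : (PR T).filter (fun p => p = 2) ⊆ {2} := by
      intro p hp
      rw [Finset.mem_filter] at hp
      rw [Finset.mem_singleton]
      exact hp.2
    refine (Finset.sum_le_sum_of_subset_of_nonneg h3 ?_).trans ?_
    · intro p hp _
      rw [Finset.mem_singleton] at hp
      rw [hp]
      exact Real.log_nonneg (by norm_num)
    · rw [Finset.sum_singleton]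
      exact Real.log_le_log (by norm_num) (by exact_mod_cast hB2)
  · refine Finset.sum_le_sum fun i _ => ?_
    refine (sum_log_dvd (hN i) T).trans ?_
    have h3 := hCn i B (by omega) a ha
    have h4 : |(ND b i a : ℝ)| ≤ (B : ℝ) * (B : ℝ) ^ (d * (2 * (2 * g i + 2))) := by
      have h5 : |(ND b i a : ℝ)| ≤ (Cn i : ℝ) * (B : ℝ) ^ (d * (2 * (2 * g i + 2))) := by
        exact_mod_cast h3
      refine h5.trans (mul_le_mul_of_nonneg_right ?_ (by positivity))
      have h6 : Cn i ≤ B := by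
        have := Finset.single_le_sum (f := Cn) (fun i _ => Nat.zero_le _) (Finset.mem_univ i)
        omega
      exact_mod_cast h6
    have h5 : 0 < |(ND b i a : ℝ)| := abs_pos.2 (by exact_mod_cast hN i)
    refine (Real.log_le_log h5 h4).trans (le_of_eq ?_)
    rw [← pow_succ', Real.log_pow]
    push_cast
    ring

open Classical in
/-- The vectors for which some discriminant vanishes are rare. -/
theorem rare (B : ℕ) (hB : 1 ≤ B) :
    (((bx (Idx g × Fin d) B).filter fun a => ¬ ∀ i, ND b i a ≠ 0).card : ℝ) ≤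
      CBd g d / B * (bx (Idx g × Fin d) B).card := by
  have hB0 : (0 : ℝ) < B := by exact_mod_cast hB
  have hsub : ((bx (Idx g × Fin d) B).filter fun a => ¬ ∀ i, ND b i a ≠ 0) ⊆
      (univ : Finset (Fin k)).biUnion fun i =>
        (bx (Idx g × Fin d) B).filter fun a => ND b i a = 0 := by
    intro a ha
    rw [Finset.mem_filter] at ha
    obtain ⟨ha1, ha2⟩ := ha
    push Not at ha2
    obtain ⟨i, hi⟩ := ha2
    rw [Finset.mem_biUnion]
    exact ⟨i, Finset.mem_univ _, Finset.mem_filter.2 ⟨ha1, hi⟩⟩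
  have h1 : (((bx (Idx g × Fin d) B).filter fun a => ¬ ∀ i, ND b i a ≠ 0).card : ℝ) ≤
      ∑ i, ((((bx (Idx g × Fin d) B).filter fun a => ND b i a = 0).card : ℕ) : ℝ) := by
    exact_mod_cast (Finset.card_le_card hsub).trans Finset.card_biUnion_le
  have h2 : ∀ i, (((bx (Idx g × Fin d) B).filter fun a => ND b i a = 0).card : ℝ) ≤
      ((d * (2 * (2 * g i + 2)) : ℕ) : ℝ) * ((bx (Idx g × Fin d) B).card / B) := by
    intro i
    have h3 := Pf.zeros (Pf_ND (g := g) b i) (ND_ne (g := g) b i) B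
    rw [← mul_div_assoc, le_div_iff₀ hB0]
    refine le_trans ?_ h3
    apply mul_le_mul_of_nonneg_left _ (Nat.cast_nonneg _)
    linarith
  refine h1.trans ((Finset.sum_le_sum fun i _ => h2 i).trans ?_)
  rw [← Finset.sum_mul]
  have h4 : ∑ i, (((d * (2 * (2 * g i + 2)) : ℕ)) : ℝ) ≤ CBd g d := by
    unfold CBd
    rcases Nat.eq_zero_or_pos d with hd | hd
    · subst hd
      simp
    · have hd1 : (1 : ℝ) ≤ d := by exact_mod_cast hd
      have h5 : ∑ i, (((d * (2 * (2 * g i + 2)) : ℕ)) : ℝ) ≤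
          1 + ∑ i, ((d * (2 * (2 * g i + 2)) : ℕ) + 1 : ℝ) := by
        rw [Finset.sum_add_distrib]
        have : (0 : ℝ) ≤ ∑ _i : Fin k, (1 : ℝ) := Finset.sum_nonneg fun _ _ => zero_le_one
        linarith
      have h6 : (0 : ℝ) ≤ 1 + ∑ i, ((d * (2 * (2 * g i + 2)) : ℕ) + 1 : ℝ) := by positivity
      nlinarith
  calc _ ≤ CBd g d * ((bx (Idx g × Fin d) B).card / B) :=
        mul_le_mul_of_nonneg_right h4 (by positivity)
    _ = _ := by ring

end Bad

end Pool.Agent.Helper28.TL
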