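import Pool.Agent.Helper28.TL.Cnt

set_option autoImplicit false

namespace Pool.Agent.Helper28.TL

/-- The length of the small polynomials. -/
def kp (g : ℕ) : ℕ := (2 * g + 2) / 5

lemma adm_exists {g K B H M : ℕ} (hg : 7 ≤ g) (hK : K ^ 12 ≤ B ^ g)
    (hB : kp g ^ (3 * kp g) ≤ B) (hH : 1 ≤ H) (hM : M = 8 * B * H) {N : ℕ} (h1 : 1 ≤ N)
    (hN : N ≤ K ^ 4) :
    ∃ q0 q1, 1 ≤ q0 ∧ q0 ^ (4 * kp g) ≤ N ∧ Adm (2 * g + 2) M H (kp g) q0 q1 N := by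
  obtain ⟨κ, hκ⟩ : ∃ κ, κ = kp g := ⟨_, rfl⟩
  rw [← hκ] at hB ⊢
  have hκ1 : κ = (2 * g + 2) / 5 := hκ
  have hk1 : 1 ≤ κ := by omega
  have hk2 : g + 1 ≤ 3 * κ := by omega
  have hB1 : 1 ≤ B := le_trans (Nat.one_le_pow _ _ hk1) hB
  obtain ⟨q0, a1, a2, a3⟩ := exists_root (m := 4 * κ) h1 (by omega)
  obtain ⟨q1, b1, b2, b3⟩ := exists_root (m := κ) h1 hk1
  refine ⟨q0, q1, a1, a2, ?_⟩
  have hle : q0 ≤ q1 := by
    by_contra hcon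
    push Not at hcon
    have e1 : (q1 + 1) ^ κ ≤ q0 ^ κ := Nat.pow_le_pow_left hcon κ
    have e2 : q0 ^ κ ≤ q0 ^ (4 * κ) := Nat.pow_le_pow_right a1 (by omega)
    omega
  refine ⟨hk1, by omega, a3, b3, hle, ?_⟩
  have h2 : (κ * q1) ^ (3 * κ) ≤ B ^ (3 * κ) := by
    calc (κ * q1) ^ (3 * κ) = κ ^ (3 * κ) * (q1 ^ κ) ^ 3 := by
          rw [mul_pow, ← pow_mul, Nat.mul_comm κ 3]
      _ ≤ B * (K ^ 4) ^ 3 := by
          apply Nat.mul_le_mul hB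
          exact Nat.pow_le_pow_left (b2.trans hN) 3
      _ = B * K ^ 12 := by rw [← pow_mul]
      _ ≤ B * B ^ g := Nat.mul_le_mul_left _ hK
      _ = B ^ (g + 1) := by rw [pow_succ]; ring
      _ ≤ B ^ (3 * κ) := Nat.pow_le_pow_right hB1 hk2
  have h3 : κ * q1 ≤ B := (Nat.pow_le_pow_iff_left (by omega)).1 h2
  rw [hM]
  calc 4 * κ * q1 * H = 4 * (κ * q1) * H := by ring
    _ ≤ 4 * B * H := Nat.mul_le_mul_right _ (Nat.mul_le_mul_left _ h3)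
    _ < 8 * B * H := by nlinarith [Nat.mul_pos hB1 hH]

/-- The largest length. -/
lemma exists_K {k : ℕ} (g : Fin k → ℕ) (i₀ : Fin k) {B : ℕ} (hB : 1 ≤ B) :
    ∃ K : ℕ, 1 ≤ K ∧ (∀ i, K ^ 12 ≤ B ^ g i) ∧
      ∀ T : ℕ, (∀ i, T ^ 12 ≤ B ^ g i) → T ≤ K := by
  classical
  obtain ⟨i₁, _, hi₁⟩ := Finset.exists_min_image (Finset.univ : Finset (Fin k)) g
    ⟨i₀, Finset.mem_univ _⟩
  obtain ⟨K, h1, h2, h3⟩ := exists_root (N := B ^ g i₁) (m := 12) (Nat.one_le_pow _ _ hB)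
    (by norm_num)
  refine ⟨K, h1, fun i => ?_, fun T hT => ?_⟩
  · exact h2.trans (Nat.pow_le_pow_right hB (hi₁ i (Finset.mem_univ _)))
  · have h4 := (hT i₁).trans_lt h3
    have h5 := (Nat.pow_lt_pow_iff_left (n := 12) (by norm_num)).1 h4
    omega

end Pool.Agent.Helper28.TL
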