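import Pool.Agent.Helper28.TL.Lng
import Pool.Agent.Helper28.TC.NFin

set_option autoImplicit false

namespace Pool.Agent.Helper28.TL

open Polynomial Finset
open Pool.Agent.Helper28.TC (bx PR Bs rk)
open Pool.Agent.Helper28.TC.N (Idx tt box pol average primeAverage DB average_le CU main)

section Main

variable {R : Type} [CommRing R] {k d : ℕ} {g : Fin k → ℕ}

lemma CU_nonneg : 0 ≤ CU g d := by
  unfold CU Pool.Agent.Helper28.TC.CC
  have hl : 0 < Real.log 2 := Real.log_pos (by norm_num)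
  positivity

open Classical in
/-- The main theorem. -/
theorem mainL (b : Module.Basis (Fin d) ℤ R) (hg : ∀ i, 1 ≤ g i) :
    ∃ B₀ : ℕ, ∀ w : ∀ p : ℕ, (R →+* ZMod p) → ℝ, (∀ p φ, |w p φ| ≤ 1) → ∀ T₀ B : ℕ, 2 ≤ T₀ →
      (((box g d B).filter fun a => ∃ T : ℕ, T₀ ≤ T ∧
        (T ^ 2 ≤ B ∨ (B₀ ≤ B ∧ ∀ i, T ^ 12 ≤ B ^ g i)) ∧ ∃ m n : Fin k → ℕ,
        (∑ i, ((m i : ℝ) + n i)) ^ 2 * (Real.log T ^ 3 / Real.sqrt T) <
          |average w T g m n (pol b a) - rk m n * primeAverage w T|).card : ℝ) ≤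
      (CU g d + CL g d) / Real.log T₀ * (box g d B).card := by
  by_cases hk : k = 0
  · refine ⟨0, fun w hw T₀ B hT₀ => ?_⟩
    have hT0 : (2 : ℝ) ≤ T₀ := by exact_mod_cast hT₀
    have hlT : 0 < Real.log T₀ := Real.log_pos (by linarith)
    have h1 := CU_nonneg (g := g) (d := d)
    have h2 := CL_nonneg g d
    subst hk
    rw [Finset.filter_eq_empty_iff.2]
    · rw [Finset.card_empty, Nat.cast_zero]
      positivity
    · rintro a _ ⟨T, _, _, m, n, h3⟩
      have h4 := average_le m n b (w := w) (T := T) (a := a)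
        (E := ∑ β, |DB b w T a β|) fun β =>
          Finset.single_le_sum (f := fun β => |DB b w T a β|) (fun _ _ => abs_nonneg _)
            (Finset.mem_univ β)
      simp only [Finset.univ_eq_empty, Finset.sum_empty, ne_eq, OfNat.ofNat_ne_zero,
        not_false_eq_true, zero_pow, zero_mul] at h3 h4
      exact absurd h3 (not_lt.2 h4)
  have hk0 : 0 < k := Nat.pos_of_ne_zero hk
  by_cases h7 : ∀ i, 7 ≤ g i
  · obtain ⟨B₀, hB₀⟩ := long b h7 ⟨0, hk0⟩
    refine ⟨B₀, fun w hw T₀ B hT₀ => ?_⟩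
    have hT0 : (2 : ℝ) ≤ T₀ := by exact_mod_cast hT₀
    have hlT : 0 < Real.log T₀ := Real.log_pos (by linarith)
    have hCL := CL_nonneg g d
    have hs := main b hg hw T₀ B hT₀
    by_cases hB : B₀ ≤ B
    · have hl := hB₀ w hw T₀ B hT₀ hB
      have hsub : ((box g d B).filter fun a => ∃ T : ℕ, T₀ ≤ T ∧
          (T ^ 2 ≤ B ∨ (B₀ ≤ B ∧ ∀ i, T ^ 12 ≤ B ^ g i)) ∧ ∃ m n : Fin k → ℕ,
          (∑ i, ((m i : ℝ) + n i)) ^ 2 * (Real.log T ^ 3 / Real.sqrt T) <
            |average w T g m n (pol b a) - rk m n * primeAverage w T|) ⊆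
          ((box g d B).filter fun a => ∃ T : ℕ, T₀ ≤ T ∧ T ^ 2 ≤ B ∧ ∃ m n : Fin k → ℕ,
            (∑ i, ((m i : ℝ) + n i)) ^ 2 * (Real.log T ^ 3 / Real.sqrt T) <
            |average w T g m n (pol b a) - rk m n * primeAverage w T|) ∪
          ((bx (Idx g × Fin d) B).filter fun a => ∃ T : ℕ, T₀ ≤ T ∧ B < T ^ 2 ∧
            (∀ i, T ^ 12 ≤ B ^ g i) ∧ ∃ β : Bs k, Real.sqrt T * Real.log T ^ 3 <
              |∑ p ∈ PR T, Real.log p * tt b w β p a|) := by
        intro a ha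
        obtain ⟨ha1, T, h1, h2, m, n, h3⟩ := Finset.mem_filter.1 ha
        rw [Finset.mem_union]
        by_cases h4 : T ^ 2 ≤ B
        · left
          exact Finset.mem_filter.2 ⟨ha1, T, h1, h4, m, n, h3⟩
        · right
          have h5 : ∀ i, T ^ 12 ≤ B ^ g i := by
            rcases h2 with h2 | h2
            · exact absurd h2 h4
            · exact h2.2
          refine Finset.mem_filter.2 ⟨ha1, T, h1, not_le.1 h4, h5, ?_⟩
          by_contra hcon
          push Not at hcon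
          have hT2 : 2 ≤ T := hT₀.trans h1
          have hTp : (0 : ℝ) < T := by exact_mod_cast (by omega : 0 < T)
          have hs0 : 0 < Real.sqrt T := Real.sqrt_pos.2 hTp
          have h6 : ∀ β, |DB b w T a β| ≤ Real.log T ^ 3 / Real.sqrt T := by
            intro β
            unfold DB
            rw [abs_div, abs_of_pos hTp, div_le_div_iff₀ hTp hs0]
            calc |∑ p ∈ PR T, Real.log p * tt b w β p a| * Real.sqrt T ≤
                Real.sqrt T * Real.log T ^ 3 * Real.sqrt T :=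
                  mul_le_mul_of_nonneg_right (hcon β) hs0.le
              _ = Real.log T ^ 3 * (Real.sqrt T * Real.sqrt T) := by ring
              _ = _ := by rw [Real.mul_self_sqrt hTp.le]
          exact absurd h3 (not_lt.2 (average_le m n b h6))
      have h1 := (Finset.card_le_card hsub).trans (Finset.card_union_le _ _)
      have h2 : (((box g d B).filter fun a => ∃ T : ℕ, T₀ ≤ T ∧
          (T ^ 2 ≤ B ∨ (B₀ ≤ B ∧ ∀ i, T ^ 12 ≤ B ^ g i)) ∧ ∃ m n : Fin k → ℕ,
          (∑ i, ((m i : ℝ) + n i)) ^ 2 * (Real.log T ^ 3 / Real.sqrt T) <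
            |average w T g m n (pol b a) - rk m n * primeAverage w T|).card : ℝ) ≤
          (((box g d B).filter fun a => ∃ T : ℕ, T₀ ≤ T ∧ T ^ 2 ≤ B ∧ ∃ m n : Fin k → ℕ,
            (∑ i, ((m i : ℝ) + n i)) ^ 2 * (Real.log T ^ 3 / Real.sqrt T) <
            |average w T g m n (pol b a) - rk m n * primeAverage w T|).card : ℝ) +
          (((bx (Idx g × Fin d) B).filter fun a => ∃ T : ℕ, T₀ ≤ T ∧ B < T ^ 2 ∧
            (∀ i, T ^ 12 ≤ B ^ g i) ∧ ∃ β : Bs k, Real.sqrt T * Real.log T ^ 3 <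
              |∑ p ∈ PR T, Real.log p * tt b w β p a|).card : ℝ) := by
        exact_mod_cast h1
      refine h2.trans ((add_le_add hs hl).trans (le_of_eq ?_))
      have h3 : bx (Idx g × Fin d) B = box g d B := rfl
      rw [h3]
      ring
    · have hsub : ((box g d B).filter fun a => ∃ T : ℕ, T₀ ≤ T ∧
          (T ^ 2 ≤ B ∨ (B₀ ≤ B ∧ ∀ i, T ^ 12 ≤ B ^ g i)) ∧ ∃ m n : Fin k → ℕ,
          (∑ i, ((m i : ℝ) + n i)) ^ 2 * (Real.log T ^ 3 / Real.sqrt T) <
            |average w T g m n (pol b a) - rk m n * primeAverage w T|) ⊆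
          ((box g d B).filter fun a => ∃ T : ℕ, T₀ ≤ T ∧ T ^ 2 ≤ B ∧ ∃ m n : Fin k → ℕ,
            (∑ i, ((m i : ℝ) + n i)) ^ 2 * (Real.log T ^ 3 / Real.sqrt T) <
            |average w T g m n (pol b a) - rk m n * primeAverage w T|) := by
        intro a ha
        obtain ⟨ha1, T, h1, h2, m, n, h3⟩ := Finset.mem_filter.1 ha
        refine Finset.mem_filter.2 ⟨ha1, T, h1, ?_, m, n, h3⟩
        rcases h2 with h2 | h2
        · exact h2
        · exact absurd h2.1 hB
      refine (Nat.cast_le.2 (Finset.card_le_card hsub)).trans (hs.trans ?_)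
      apply mul_le_mul_of_nonneg_right _ (Nat.cast_nonneg _)
      exact div_le_div_of_nonneg_right (by linarith) hlT.le
  · push Not at h7
    obtain ⟨i, hi⟩ := h7
    refine ⟨1, fun w hw T₀ B hT₀ => ?_⟩
    have hT0 : (2 : ℝ) ≤ T₀ := by exact_mod_cast hT₀
    have hlT : 0 < Real.log T₀ := Real.log_pos (by linarith)
    have hCL := CL_nonneg g d
    have hs := main b hg hw T₀ B hT₀
    have hsub : ((box g d B).filter fun a => ∃ T : ℕ, T₀ ≤ T ∧
          (T ^ 2 ≤ B ∨ (1 ≤ B ∧ ∀ i, T ^ 12 ≤ B ^ g i)) ∧ ∃ m n : Fin k → ℕ,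
          (∑ i, ((m i : ℝ) + n i)) ^ 2 * (Real.log T ^ 3 / Real.sqrt T) <
            |average w T g m n (pol b a) - rk m n * primeAverage w T|) ⊆
          ((box g d B).filter fun a => ∃ T : ℕ, T₀ ≤ T ∧ T ^ 2 ≤ B ∧ ∃ m n : Fin k → ℕ,
            (∑ i, ((m i : ℝ) + n i)) ^ 2 * (Real.log T ^ 3 / Real.sqrt T) <
            |average w T g m n (pol b a) - rk m n * primeAverage w T|) := by
      intro a ha
      obtain ⟨ha1, T, h1, h2, m, n, h3⟩ := Finset.mem_filter.1 ha
      refine Finset.mem_filter.2 ⟨ha1, T, h1, ?_, m, n, h3⟩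
      rcases h2 with h2 | ⟨h2, h4⟩
      · exact h2
      · have h5 : (T ^ 2) ^ 6 ≤ B ^ 6 := by
          calc (T ^ 2) ^ 6 = T ^ 12 := by rw [← pow_mul]
            _ ≤ B ^ g i := h4 i
            _ ≤ B ^ 6 := Nat.pow_le_pow_right h2 (by omega)
        exact (Nat.pow_le_pow_iff_left (by norm_num)).1 h5
    refine (Nat.cast_le.2 (Finset.card_le_card hsub)).trans (hs.trans ?_)
    apply mul_le_mul_of_nonneg_right _ (Nat.cast_nonneg _)
    exact div_le_div_of_nonneg_right (by linarith) hlT.le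

end Main

end Pool.Agent.Helper28.TL
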