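import Pool.Agent.Helper28.TL.Dia

set_option autoImplicit false

namespace Pool.Agent.Helper28.TL

open Polynomial Finset
open Pool.Agent.Helper28.TC (WW WW_nonneg qc qc_abs ringCharK LP up cc cc_abs WF XK mem_XK)
open Pool.Agent.Helper28.TC.N (Idx)

/-- The constant of the moments. -/
noncomputable def SC {k : ℕ} (κ : Fin k → ℕ) : ℝ := 1 + ∑ i, (κ i : ℝ) ^ 4 * CGr (κ i)

section SC

variable {k : ℕ} (κ : Fin k → ℕ)

lemma SC_term (i : Fin k) : (κ i : ℝ) ^ 4 * CGr (κ i) + 1 ≤ SC κ := by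
  unfold SC
  have := Finset.single_le_sum (f := fun i => (κ i : ℝ) ^ 4 * CGr (κ i))
    (fun i _ => mul_nonneg (by positivity) (CGr_nonneg _)) (Finset.mem_univ i)
  linarith

lemma one_le_SC : 1 ≤ SC κ := by
  unfold SC
  have : 0 ≤ ∑ i, (κ i : ℝ) ^ 4 * CGr (κ i) :=
    Finset.sum_nonneg fun i _ => mul_nonneg (by positivity) (CGr_nonneg _)
  linarith

lemma SC_four {i : Fin k} {x : ℝ} {n : ℕ} (hx : 0 ≤ x) (hn : (n : ℝ) ≤ CGr (κ i) * x) :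
    ((n * (κ i * κ i * (κ i * κ i)) : ℕ) : ℝ) ≤ SC κ * x := by
  have h1 := SC_term κ i
  push_cast
  have h2 : (0 : ℝ) ≤ (κ i : ℝ) ^ 4 := by positivity
  calc (n : ℝ) * ((κ i : ℝ) * κ i * ((κ i : ℝ) * κ i)) = n * (κ i : ℝ) ^ 4 := by ring
    _ ≤ CGr (κ i) * x * (κ i : ℝ) ^ 4 := mul_le_mul_of_nonneg_right hn h2
    _ = ((κ i : ℝ) ^ 4 * CGr (κ i)) * x := by ring
    _ ≤ _ := mul_le_mul_of_nonneg_right (by linarith) hx

lemma SC_two {i : Fin k} {x : ℝ} {n : ℕ} (hx : 0 ≤ x) (hn : (n : ℝ) ≤ CGr (κ i) * x) :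
    ((n * (κ i * κ i) : ℕ) : ℝ) ≤ SC κ * x := by
  refine le_trans ?_ (SC_four κ hx hn)
  have h : n * (κ i * κ i) ≤ n * (κ i * κ i * (κ i * κ i)) := by
    apply Nat.mul_le_mul_left
    rcases Nat.eq_zero_or_pos (κ i) with h0 | h0
    · simp [h0]
    · exact Nat.le_mul_of_pos_right _ (Nat.mul_pos h0 h0)
  exact_mod_cast h

end SC

lemma sqrt_sqrt_mul (N : ℝ) : Real.sqrt (Real.sqrt N) * Real.sqrt (Real.sqrt N) = Real.sqrt N :=
  Real.mul_self_sqrt (Real.sqrt_nonneg _)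

lemma sqrt_sqrt_sq {x : ℝ} (hx : 0 ≤ x) : Real.sqrt (Real.sqrt (x ^ 2)) = Real.sqrt x := by
  rw [Real.sqrt_sq hx]

section Mts

variable {R : Type} [CommRing R] {k d : ℕ} {g : Fin k → ℕ} {M H p q K : ℕ} [NeZero M]
  [Fact p.Prime] [Fact q.Prime] (b : Fin d → R) (c : Fin d → ℤ) (hc : ∑ l, (c l : R) * b l = 1)
  (φ : R →+* ZMod p) (φ' : R →+* ZMod q) (h : p ∣ M) (h' : q ∣ M) {κ : Fin k → ℕ}
  (hA : ∀ i N, 1 ≤ N → N ≤ K ^ 4 → ∃ q0 q1, 1 ≤ q0 ∧ q0 ^ (4 * κ i) ≤ N ∧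
    Adm (2 * g i + 2) M H (κ i) q0 q1 N)

include hc hA

lemma mtS (hpq : p ≠ q) (hp : p ≠ 2) (hq : q ≠ 2) (hpK : p ≤ K) (hqK : q ≤ K) {i j : Fin k}
    (hij : j ≠ i) :
    |∑ a : Idx g × Fin d → ZMod M, WW H a * ((SA i (rdM b φ h a) * SA j (rdM b φ h a)) *
      (SA i (rdM b φ' h' a) * SA j (rdM b φ' h' a)))| ≤
      ZZ (Idx g × Fin d) M H * (SC κ ^ 2 * Real.sqrt ((p : ℝ) * q)) := by
  have hp1 := (Fact.out : p.Prime).one_le
  have hq1 := (Fact.out : q.Prime).one_le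
  have hN1 : 1 ≤ p * q := Nat.mul_pos hp1 hq1
  have hN2 : p * q ≤ K ^ 4 := by
    calc p * q ≤ K * K := Nat.mul_le_mul hpK hqK
      _ = K ^ 2 := (sq K).symm
      _ ≤ K ^ 4 := Nat.pow_le_pow_right (hp1.trans hpK) (by norm_num)
  obtain ⟨q0, q1, a1, a2, a3⟩ := hA i _ hN1 hN2
  obtain ⟨q0', q1', a1', a2', a3'⟩ := hA j _ hN1 hN2
  have h1 := pairS b c hc φ φ' h h' hpq hp hq hij a3 a3' le_rfl
  refine h1.trans (mul_le_mul_of_nonneg_left ?_ ZZ_nonneg)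
  have e1 := SC_two κ (i := i) (Real.sqrt_nonneg _) (cG_le a3.one a1 a2)
  have e2 := SC_two κ (i := j) (Real.sqrt_nonneg _) (cG_le a3'.one a1' a2')
  have hSC := one_le_SC κ
  push_cast at e1 e2 ⊢
  calc _ ≤ (SC κ * Real.sqrt (Real.sqrt ((p : ℝ) * q))) *
        (SC κ * Real.sqrt (Real.sqrt ((p : ℝ) * q))) := by
        apply mul_le_mul e1 e2 (by positivity) (by positivity)
    _ = SC κ ^ 2 * (Real.sqrt (Real.sqrt ((p : ℝ) * q)) * Real.sqrt (Real.sqrt ((p : ℝ) * q))) := by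
        ring
    _ = _ := by rw [sqrt_sqrt_mul]

lemma mtB (hpq : p ≠ q) (hp : p ≠ 2) (hq : q ≠ 2) (hpK : p ≤ K) (hqK : q ≤ K) {i : Fin k} :
    |∑ a : Idx g × Fin d → ZMod M, WW H a * (BB i (rdM b φ h a) * BB i (rdM b φ' h' a))| ≤
      ZZ (Idx g × Fin d) M H * (SC κ ^ 2 * Real.sqrt ((p : ℝ) * q)) := by
  have hp1 := (Fact.out : p.Prime).one_le
  have hq1 := (Fact.out : q.Prime).one_le
  have hN1 : 1 ≤ p ^ 2 * q ^ 2 := Nat.mul_pos (Nat.pow_pos hp1) (Nat.pow_pos hq1)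
  have hN2 : p ^ 2 * q ^ 2 ≤ K ^ 4 := by
    calc p ^ 2 * q ^ 2 ≤ K ^ 2 * K ^ 2 :=
          Nat.mul_le_mul (Nat.pow_le_pow_left hpK 2) (Nat.pow_le_pow_left hqK 2)
      _ = K ^ 4 := by ring
  obtain ⟨q0, q1, a1, a2, a3⟩ := hA i _ hN1 hN2
  have h1 := pairB b c hc φ φ' h h' hpq hp hq a3 le_rfl
  refine h1.trans (mul_le_mul_of_nonneg_left ?_ ZZ_nonneg)
  have e1 := SC_four κ (i := i) (Real.sqrt_nonneg _) (cG_le a3.one a1 a2)
  have hSC := one_le_SC κ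
  have e2 : ((p ^ 2 * q ^ 2 : ℕ) : ℝ) = ((p : ℝ) * q) ^ 2 := by push_cast; ring
  rw [e2, sqrt_sqrt_sq (by positivity)] at e1
  refine e1.trans (mul_le_mul_of_nonneg_right ?_ (Real.sqrt_nonneg _))
  nlinarith

lemma mtW (K₁ K₂ : Type) [Field K₁] [Fintype K₁] [Algebra (ZMod p) K₁] [Field K₂] [Fintype K₂]
    [Algebra (ZMod q) K₂] (hpq : p ≠ q) (hp : p ≠ 2) (hq : q ≠ 2)
    (hK₁ : Fintype.card K₁ = p ^ 2) (hK₂ : Fintype.card K₂ = q ^ 2) (hpK : p ≤ K) (hqK : q ≤ K)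
    {i : Fin k} :
    |∑ a : Idx g × Fin d → ZMod M, WW H a *
      (WF K₁ i (rdM b φ h a) * WF K₂ i (rdM b φ' h' a))| ≤
      ZZ (Idx g × Fin d) M H * (SC κ ^ 2 * Real.sqrt ((p : ℝ) * q)) := by
  have hp1 := (Fact.out : p.Prime).one_le
  have hq1 := (Fact.out : q.Prime).one_le
  have hN1 : 1 ≤ p ^ 2 * q ^ 2 := Nat.mul_pos (Nat.pow_pos hp1) (Nat.pow_pos hq1)
  have hN2 : p ^ 2 * q ^ 2 ≤ K ^ 4 := by
    calc p ^ 2 * q ^ 2 ≤ K ^ 2 * K ^ 2 :=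
          Nat.mul_le_mul (Nat.pow_le_pow_left hpK 2) (Nat.pow_le_pow_left hqK 2)
      _ = K ^ 4 := by ring
  obtain ⟨q0, q1, a1, a2, a3⟩ := hA i _ hN1 hN2
  have h1 := pairW b c hc φ φ' h h' K₁ K₂ hpq hp hq hK₁ hK₂ a3 le_rfl
  refine h1.trans (mul_le_mul_of_nonneg_left ?_ ZZ_nonneg)
  have e1 := SC_two κ (i := i) (Real.sqrt_nonneg _) (cG_le a3.one a1 a2)
  have hSC := one_le_SC κ
  have e2 : ((p ^ 2 * q ^ 2 : ℕ) : ℝ) = ((p : ℝ) * q) ^ 2 := by push_cast; ring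
  rw [e2, sqrt_sqrt_sq (by positivity)] at e1
  refine e1.trans (mul_le_mul_of_nonneg_right ?_ (Real.sqrt_nonneg _))
  nlinarith

lemma mtBB (hp : p ≠ 2) (hpK : p ≤ K) {i : Fin k} :
    ∑ a : Idx g × Fin d → ZMod M, WW H a * BB i (rdM b φ h a) ^ 2 ≤
      ZZ (Idx g × Fin d) M H * ((10 * SC κ) * (p : ℝ) ^ 2) := by
  have hp1 := (Fact.out : p.Prime).one_le
  obtain ⟨q0, q1, a1, a2, a3⟩ := hA i (p ^ 4) (Nat.pow_pos hp1) (Nat.pow_le_pow_left hpK 4)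
  have h1 := diagB b c hc φ h hp a3 le_rfl
  have h2 := (le_abs_self _).trans h1
  simp_rw [sq (BB i (rdM b φ h _))]
  refine h2.trans (mul_le_mul_of_nonneg_left ?_ ZZ_nonneg)
  have e0 := cG_le a3.one a1 a2
  have e2 : ((p ^ 4 : ℕ) : ℝ) = ((p : ℝ) ^ 2) ^ 2 := by push_cast; ring
  rw [e2, sqrt_sqrt_sq (by positivity), Real.sqrt_sq (by positivity)] at e0
  have e3 := SC_two κ (i := i) (by positivity) e0
  have e4 := SC_four κ (i := i) (by positivity) e0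
  have hSC := one_le_SC κ
  have hp1' : (1 : ℝ) ≤ p := by exact_mod_cast hp1
  have e5 : ((2 * p ^ 2 + 4 * (cG (κ i) q0 * (κ i * κ i * (p + κ i * κ i))) : ℕ) : ℝ) =
      2 * (p : ℝ) ^ 2 + 4 * (((cG (κ i) q0 * (κ i * κ i) : ℕ) : ℝ) * p +
        ((cG (κ i) q0 * (κ i * κ i * (κ i * κ i)) : ℕ) : ℝ)) := by
    push_cast
    ring
  rw [e5]
  have e6 : ((cG (κ i) q0 * (κ i * κ i) : ℕ) : ℝ) * p ≤ SC κ * (p : ℝ) ^ 2 := by
    calc _ ≤ SC κ * p * p := mul_le_mul_of_nonneg_right e3 (by positivity)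
      _ = _ := by ring
  have e7 : SC κ * p ≤ SC κ * (p : ℝ) ^ 2 := by
    apply mul_le_mul_of_nonneg_left _ (by linarith)
    nlinarith
  have e8 : (p : ℝ) ^ 2 ≤ SC κ * (p : ℝ) ^ 2 := le_mul_of_one_le_left (by positivity) hSC
  linarith

lemma mtWW (K₁ : Type) [Field K₁] [Fintype K₁] [Algebra (ZMod p) K₁] (hp : p ≠ 2)
    (hK₁ : Fintype.card K₁ = p ^ 2) (hpK : p ≤ K) {i : Fin k} :
    ∑ a : Idx g × Fin d → ZMod M, WW H a * WF K₁ i (rdM b φ h a) ^ 2 ≤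
      ZZ (Idx g × Fin d) M H * ((10 * SC κ) * (p : ℝ) ^ 2) := by
  have hp1 := (Fact.out : p.Prime).one_le
  obtain ⟨q0, q1, a1, a2, a3⟩ := hA i (p ^ 4) (Nat.pow_pos hp1) (Nat.pow_le_pow_left hpK 4)
  have h1 := diagW b c hc φ h K₁ hp hK₁ a3 le_rfl
  have h2 := (le_abs_self _).trans h1
  simp_rw [sq (WF K₁ i (rdM b φ h _))]
  refine h2.trans (mul_le_mul_of_nonneg_left ?_ ZZ_nonneg)
  have e0 := cG_le a3.one a1 a2
  have e2 : ((p ^ 4 : ℕ) : ℝ) = ((p : ℝ) ^ 2) ^ 2 := by push_cast; ring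
  rw [e2, sqrt_sqrt_sq (by positivity), Real.sqrt_sq (by positivity)] at e0
  have e3 := SC_two κ (i := i) (by positivity) e0
  have hSC := one_le_SC κ
  have hp1' : (1 : ℝ) ≤ p := by exact_mod_cast hp1
  have e5 : ((2 * p ^ 2 + cG (κ i) q0 * (κ i * κ i) : ℕ) : ℝ) =
      2 * (p : ℝ) ^ 2 + ((cG (κ i) q0 * (κ i * κ i) : ℕ) : ℝ) := by
    push_cast
    ring
  rw [e5]
  have e7 : SC κ * p ≤ SC κ * (p : ℝ) ^ 2 := by
    apply mul_le_mul_of_nonneg_left _ (by linarith)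
    nlinarith
  have e8 : (p : ℝ) ^ 2 ≤ SC κ * (p : ℝ) ^ 2 := le_mul_of_one_le_left (by positivity) hSC
  linarith

lemma mtS4 (hp : p ≠ 2) (hpK : p ≤ K) {i : Fin k} :
    ∑ a : Idx g × Fin d → ZMod M, WW H a * SA i (rdM b φ h a) ^ 4 ≤
      ZZ (Idx g × Fin d) M H * ((22 * SC κ) * (p : ℝ) ^ 2) := by
  have h1 := mtBB (H := H) b c hc φ h hA hp hpK (i := i)
  have hSC := one_le_SC κ
  have hp0 : (0 : ℝ) ≤ p := Nat.cast_nonneg _
  have h2 : ∀ a : Idx g × Fin d → ZMod M, WW H a * SA i (rdM b φ h a) ^ 4 ≤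
      2 * (WW H a * BB i (rdM b φ h a) ^ 2) + WW H a * (2 * (p : ℝ) ^ 2) := by
    intro a
    have e1 : SA i (rdM b φ h a) ^ 4 ≤ 2 * BB i (rdM b φ h a) ^ 2 + 2 * (p : ℝ) ^ 2 := by
      have e2 : SA i (rdM b φ h a) ^ 4 = (SA i (rdM b φ h a) ^ 2) ^ 2 := by ring
      rw [e2, SA_sq]
      have e3 := ZA_nonneg i (rdM b φ h a)
      have e4 := ZA_le i (rdM b φ h a)
      nlinarith [sq_nonneg (BB i (rdM b φ h a) - ZA i (rdM b φ h a))]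
    have e2 := mul_le_mul_of_nonneg_left e1 (WW_nonneg H a)
    linarith
  refine (Finset.sum_le_sum fun a _ => h2 a).trans ?_
  rw [Finset.sum_add_distrib, ← Finset.mul_sum, ← Finset.sum_mul]
  change 2 * _ + ZZ (Idx g × Fin d) M H * _ ≤ _
  have hZ : 0 ≤ ZZ (Idx g × Fin d) M H := ZZ_nonneg
  have e9 : ZZ (Idx g × Fin d) M H * (2 * (p : ℝ) ^ 2) ≤
      ZZ (Idx g × Fin d) M H * (2 * SC κ * (p : ℝ) ^ 2) := by
    apply mul_le_mul_of_nonneg_left _ hZ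
    nlinarith [sq_nonneg (p : ℝ)]
  linarith

lemma mtS2 (hp : p ≠ 2) (hpK : p ≤ K) {i : Fin k} :
    ∑ a : Idx g × Fin d → ZMod M, WW H a * SA i (rdM b φ h a) ^ 2 ≤
      ZZ (Idx g × Fin d) M H * ((12 * SC κ) * (p : ℝ)) := by
  have h1 := mtS4 (H := H) b c hc φ h hA hp hpK (i := i)
  have hSC := one_le_SC κ
  have hp0 : (0 : ℝ) < p := by exact_mod_cast (Fact.out : p.Prime).pos
  have h2 : ∀ a : Idx g × Fin d → ZMod M, WW H a * SA i (rdM b φ h a) ^ 2 ≤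
      (1 / (2 * p)) * (WW H a * SA i (rdM b φ h a) ^ 4) + WW H a * ((p : ℝ) / 2) := by
    intro a
    have e1 : SA i (rdM b φ h a) ^ 2 ≤ (1 / (2 * p)) * SA i (rdM b φ h a) ^ 4 + (p : ℝ) / 2 := by
      have e2 : (1 / (2 * p)) * SA i (rdM b φ h a) ^ 4 + (p : ℝ) / 2 - SA i (rdM b φ h a) ^ 2 =
          (SA i (rdM b φ h a) ^ 2 - p) ^ 2 / (2 * p) := by field_simp; ring
      have e3 : 0 ≤ (SA i (rdM b φ h a) ^ 2 - p) ^ 2 / (2 * p) := by positivity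
      linarith
    have e2 := mul_le_mul_of_nonneg_left e1 (WW_nonneg H a)
    linarith
  refine (Finset.sum_le_sum fun a _ => h2 a).trans ?_
  rw [Finset.sum_add_distrib, ← Finset.mul_sum, ← Finset.sum_mul]
  change _ + ZZ (Idx g × Fin d) M H * _ ≤ _
  have hZ : 0 ≤ ZZ (Idx g × Fin d) M H := ZZ_nonneg
  have e4 : (1 / (2 * (p : ℝ))) *
      ∑ a : Idx g × Fin d → ZMod M, WW H a * SA i (rdM b φ h a) ^ 4 ≤
      ZZ (Idx g × Fin d) M H * (11 * SC κ * p) := by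
    refine (mul_le_mul_of_nonneg_left h1 (by positivity)).trans (le_of_eq ?_)
    field_simp
    ring
  have e9 : ZZ (Idx g × Fin d) M H * ((p : ℝ) / 2) ≤
      ZZ (Idx g × Fin d) M H * (SC κ * p) := by
    apply mul_le_mul_of_nonneg_left _ hZ
    nlinarith
  linarith

lemma mtS1 (hp : p ≠ 2) (hpK : p ≤ K) {i : Fin k} :
    ∑ a : Idx g × Fin d → ZMod M, WW H a * |SA i (rdM b φ h a)| ≤
      ZZ (Idx g × Fin d) M H * ((7 * SC κ) * Real.sqrt p) := by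
  have h1 := mtS2 (H := H) b c hc φ h hA hp hpK (i := i)
  have hSC := one_le_SC κ
  have hp0 : (0 : ℝ) < p := by exact_mod_cast (Fact.out : p.Prime).pos
  have hs : 0 < Real.sqrt p := Real.sqrt_pos.2 hp0
  have hss : Real.sqrt p ^ 2 = p := Real.sq_sqrt hp0.le
  have h2 : ∀ a : Idx g × Fin d → ZMod M, WW H a * |SA i (rdM b φ h a)| ≤
      (1 / (2 * Real.sqrt p)) * (WW H a * SA i (rdM b φ h a) ^ 2) + WW H a * (Real.sqrt p / 2) := by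
    intro a
    have e1 : |SA i (rdM b φ h a)| ≤
        (1 / (2 * Real.sqrt p)) * SA i (rdM b φ h a) ^ 2 + Real.sqrt p / 2 := by
      have e2 : (1 / (2 * Real.sqrt p)) * SA i (rdM b φ h a) ^ 2 + Real.sqrt p / 2 -
          |SA i (rdM b φ h a)| = (|SA i (rdM b φ h a)| - Real.sqrt p) ^ 2 / (2 * Real.sqrt p) := by
        rw [sub_sq, sq_abs]
        field_simp
        ring
      have e3 : 0 ≤ (|SA i (rdM b φ h a)| - Real.sqrt p) ^ 2 / (2 * Real.sqrt p) := by positivity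
      linarith
    have e2 := mul_le_mul_of_nonneg_left e1 (WW_nonneg H a)
    linarith
  refine (Finset.sum_le_sum fun a _ => h2 a).trans ?_
  rw [Finset.sum_add_distrib, ← Finset.mul_sum, ← Finset.sum_mul]
  change _ + ZZ (Idx g × Fin d) M H * _ ≤ _
  have hZ : 0 ≤ ZZ (Idx g × Fin d) M H := ZZ_nonneg
  have e4 : (1 / (2 * Real.sqrt p)) *
      ∑ a : Idx g × Fin d → ZMod M, WW H a * SA i (rdM b φ h a) ^ 2 ≤
      ZZ (Idx g × Fin d) M H * (6 * SC κ * Real.sqrt p) := by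
    refine (mul_le_mul_of_nonneg_left h1 (by positivity)).trans (le_of_eq ?_)
    generalize Real.sqrt p = s at hs hss
    rw [← hss]
    field_simp
    ring
  have e9 : ZZ (Idx g × Fin d) M H * (Real.sqrt p / 2) ≤
      ZZ (Idx g × Fin d) M H * (SC κ * Real.sqrt p) := by
    apply mul_le_mul_of_nonneg_left _ hZ
    nlinarith
  linarith

end Mts

end Pool.Agent.Helper28.TL
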