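import Mathlib
import Pool.Agent.Helper28.TC.Box

set_option autoImplicit false

namespace Pool.Agent.Helper28.TL

open Finset
open Pool.Agent.Helper28.TC (bx card_box)

section Pf

variable {J : Type} {S : Type} [CommRing S]

/-- A polynomial function of degree at most `m` on the integer vectors. -/
def Pf (m : ℕ) (F : (J → ℤ) → S) : Prop :=
  ∃ P : MvPolynomial J S, P.totalDegree ≤ m ∧
    ∀ a : J → ℤ, MvPolynomial.eval (fun j => ((a j : ℤ) : S)) P = F a

lemma Pf.mono {m n : ℕ} {F : (J → ℤ) → S} (h : Pf m F) (hmn : m ≤ n) : Pf n F := by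
  obtain ⟨P, h1, h2⟩ := h
  exact ⟨P, h1.trans hmn, h2⟩

lemma Pf.const (m : ℕ) (s : S) : Pf m fun _ : J → ℤ => s :=
  ⟨MvPolynomial.C s, by rw [MvPolynomial.totalDegree_C]; exact Nat.zero_le _,
    fun _ => MvPolynomial.eval_C _⟩

lemma Pf.var (j : J) : Pf 1 fun a : J → ℤ => ((a j : ℤ) : S) := by
  rcases subsingleton_or_nontrivial S with hS | hS
  · exact ⟨0, by simp, fun a => Subsingleton.elim _ _⟩
  · exact ⟨MvPolynomial.X j, by rw [MvPolynomial.totalDegree_X], fun _ => MvPolynomial.eval_X _⟩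

lemma Pf.add {m : ℕ} {F G : (J → ℤ) → S} (hF : Pf m F) (hG : Pf m G) :
    Pf m fun a => F a + G a := by
  obtain ⟨P, h1, h2⟩ := hF
  obtain ⟨Q, h3, h4⟩ := hG
  refine ⟨P + Q, (MvPolynomial.totalDegree_add _ _).trans (max_le h1 h3), fun a => ?_⟩
  rw [map_add, h2, h4]

lemma Pf.mul {m n : ℕ} {F G : (J → ℤ) → S} (hF : Pf m F) (hG : Pf n G) :
    Pf (m + n) fun a => F a * G a := by
  obtain ⟨P, h1, h2⟩ := hF
  obtain ⟨Q, h3, h4⟩ := hG
  refine ⟨P * Q, (MvPolynomial.totalDegree_mul _ _).trans (add_le_add h1 h3), fun a => ?_⟩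
  rw [map_mul, h2, h4]

lemma Pf.const_mul {m : ℕ} {F : (J → ℤ) → S} (s : S) (hF : Pf m F) : Pf m fun a => s * F a := by
  have := (Pf.const (J := J) 0 s).mul hF
  rwa [zero_add] at this

lemma Pf.mul_const {m : ℕ} {F : (J → ℤ) → S} (s : S) (hF : Pf m F) : Pf m fun a => F a * s :=
  hF.mul (Pf.const 0 s)

lemma Pf.sum {m : ℕ} {ι : Type} (s : Finset ι) {F : ι → (J → ℤ) → S}
    (h : ∀ i ∈ s, Pf m (F i)) : Pf m fun a => ∑ i ∈ s, F i a := by
  classical
  induction s using Finset.induction_on with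
  | empty =>
      simp only [Finset.sum_empty]
      exact Pf.const m 0
  | insert i s hi ih =>
      simp only [Finset.sum_insert hi]
      exact (h i (Finset.mem_insert_self _ _)).add
        (ih fun j hj => h j (Finset.mem_insert_of_mem hj))

lemma Pf.prod {m : ℕ} {ι : Type} (s : Finset ι) {F : ι → (J → ℤ) → S}
    (h : ∀ i ∈ s, Pf m (F i)) : Pf (s.card * m) fun a => ∏ i ∈ s, F i a := by
  classical
  induction s using Finset.induction_on with
  | empty =>
      simp only [Finset.prod_empty]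
      exact Pf.const _ 1
  | insert i s hi ih =>
      simp only [Finset.prod_insert hi, Finset.card_insert_of_notMem hi]
      have h1 := (h i (Finset.mem_insert_self _ _)).mul
        (ih fun j hj => h j (Finset.mem_insert_of_mem hj))
      refine h1.mono (le_of_eq ?_)
      ring

lemma Pf.det {m : ℕ} {n : Type} [Fintype n] [DecidableEq n] (A : (J → ℤ) → Matrix n n S)
    (h : ∀ i j, Pf m fun a => A a i j) : Pf (Fintype.card n * m) fun a => (A a).det := by
  simp_rw [Matrix.det_apply']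
  refine Pf.sum _ fun σ _ => Pf.const_mul _ ?_
  exact Pf.prod (univ : Finset n) fun i _ => h _ _

lemma Pf.lin {m : ℕ} {F : (J → ℤ) → S} [Fintype J] (L : S →+ ℤ) (hF : Pf m F) :
    Pf m fun a => L (F a) := by
  classical
  obtain ⟨P, h1, h2⟩ := hF
  refine ⟨∑ s ∈ P.support, MvPolynomial.monomial s (L (P.coeff s)), ?_, fun a => ?_⟩
  · refine (MvPolynomial.totalDegree_finsetSum_le fun s hs => ?_)
    refine (MvPolynomial.totalDegree_monomial_le _ _).trans ?_
    exact (MvPolynomial.le_totalDegree hs).trans h1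
  · change _ = L (F a)
    rw [← h2, map_sum, MvPolynomial.eval_eq' (fun j => ((a j : ℤ) : S)) P, map_sum]
    refine Finset.sum_congr rfl fun s _ => ?_
    rw [MvPolynomial.eval_monomial, Finsupp.prod_fintype _ _ fun j => pow_zero _]
    have e1 : P.coeff s * ∏ j, ((a j : ℤ) : S) ^ s j = (∏ j, (a j) ^ s j) • P.coeff s := by
      rw [zsmul_eq_mul]
      push_cast
      ring
    rw [e1, map_zsmul, smul_eq_mul]
    simp only [Int.cast_id]
    ring

/-- A polynomial function is bounded on the box. -/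
lemma Pf.bound {m : ℕ} {F : (J → ℤ) → ℤ} [Fintype J] [DecidableEq J] (hF : Pf m F) :
    ∃ C : ℕ, ∀ B : ℕ, 1 ≤ B → ∀ a ∈ bx J B, |F a| ≤ C * (B : ℤ) ^ m := by
  obtain ⟨P, h1, h2⟩ := hF
  refine ⟨∑ s ∈ P.support, (P.coeff s).natAbs, fun B hB a ha => ?_⟩
  have hB' : (1 : ℤ) ≤ B := by exact_mod_cast hB
  have ha' : ∀ j, |a j| ≤ B := by
    intro j
    have := (Fintype.mem_piFinset.1 ha) j
    rw [Finset.mem_Icc] at this
    rw [abs_le]
    exact this
  rw [← h2, MvPolynomial.eval_eq']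
  push_cast
  rw [Finset.sum_mul]
  refine (Finset.abs_sum_le_sum_abs _ _).trans (Finset.sum_le_sum fun s hs => ?_)
  rw [abs_mul]
  apply mul_le_mul_of_nonneg_left _ (abs_nonneg _)
  rw [Finset.abs_prod]
  calc ∏ j, |((a j : ℤ) : ℤ) ^ s j| ≤ ∏ j, (B : ℤ) ^ s j := by
        apply Finset.prod_le_prod
        · intro j _; exact abs_nonneg _
        · intro j _
          rw [abs_pow]
          exact pow_le_pow_left₀ (abs_nonneg _) (ha' j) _
    _ = (B : ℤ) ^ ∑ j, s j := Finset.prod_pow_eq_pow_sum _ _ _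
    _ ≤ (B : ℤ) ^ m := by
        apply pow_le_pow_right₀ hB'
        have h3 := (MvPolynomial.le_totalDegree hs).trans h1
        rwa [Finsupp.sum_fintype _ _ (fun _ => rfl)] at h3

open Classical in
/-- The lemma of Schwartz and Zippel for the box. -/
lemma Pf.zeros {m : ℕ} {F : (J → ℤ) → ℤ} [Fintype J] [DecidableEq J] (hF : Pf m F)
    (hne : ∃ a, F a ≠ 0) (B : ℕ) :
    (((bx J B).filter fun a => F a = 0).card : ℝ) * (2 * B + 1) ≤ m * (bx J B).card := by
  obtain ⟨P, h1, h2⟩ := hF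
  obtain ⟨a₀, ha₀⟩ := hne
  obtain ⟨n, hn⟩ : ∃ n, n = Fintype.card J := ⟨_, rfl⟩
  obtain ⟨e⟩ : Nonempty (J ≃ Fin n) := ⟨hn ▸ Fintype.equivFin J⟩
  have hP : MvPolynomial.rename e P ≠ 0 := by
    intro h
    apply ha₀
    rw [← h2, (MvPolynomial.rename_injective e e.injective) (h.trans (map_zero _).symm), map_zero]
  have h3 := MvPolynomial.schwartz_zippel_totalDegree hP (Finset.Icc (-(B : ℤ)) B)
  have hc : (Finset.Icc (-(B : ℤ)) B).card = 2 * B + 1 := by
    rw [Int.card_Icc]; omega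
  rw [hc] at h3
  have h4 : ((Fintype.piFinset fun _ : Fin n => Finset.Icc (-(B : ℤ)) B).filter
      fun f => MvPolynomial.eval f (MvPolynomial.rename e P) = 0).card =
      ((bx J B).filter fun a => F a = 0).card := by
    apply Finset.card_bij' (fun f _ => fun j => f (e j)) (fun a _ => fun i => a (e.symm i))
    · intro f hf
      rw [Finset.mem_filter, Fintype.mem_piFinset] at hf
      rw [Finset.mem_filter]
      refine ⟨Fintype.mem_piFinset.2 fun j => hf.1 (e j), ?_⟩
      rw [← h2, ← hf.2, MvPolynomial.eval_rename]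
      rfl
    · intro a ha
      rw [Finset.mem_filter] at ha
      rw [Finset.mem_filter, Fintype.mem_piFinset]
      refine ⟨fun i => (Fintype.mem_piFinset.1 ha.1) (e.symm i), ?_⟩
      rw [← ha.2, ← h2, MvPolynomial.eval_rename]
      congr 2
      funext j
      simp
    · intro f _
      funext i
      simp
    · intro a _
      funext j
      simp
  rw [h4] at h3
  have h5 : (MvPolynomial.rename e P).totalDegree ≤ m :=
    (MvPolynomial.totalDegree_rename_le _ _).trans h1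
  have h6 : ((((bx J B).filter fun a => F a = 0).card : ℚ) / ((2 * B + 1 : ℕ) : ℚ) ^ n) ≤
      (m : ℚ) / ((2 * B + 1 : ℕ) : ℚ) := by
    have h7 : (((((bx J B).filter fun a => F a = 0).card : ℚ≥0) / ((2 * B + 1 : ℕ) : ℚ≥0) ^ n :
        ℚ≥0) : ℚ) ≤ (((((MvPolynomial.rename e P).totalDegree : ℕ) : ℚ≥0) /
          ((2 * B + 1 : ℕ) : ℚ≥0) : ℚ≥0) : ℚ) := by
      exact_mod_cast h3
    have h8 : (((((bx J B).filter fun a => F a = 0).card : ℚ≥0) / ((2 * B + 1 : ℕ) : ℚ≥0) ^ n :
        ℚ≥0) : ℚ) = (((bx J B).filter fun a => F a = 0).card : ℚ) / ((2 * B + 1 : ℕ) : ℚ) ^ n := by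
      push_cast
      rfl
    have h9 : (((((MvPolynomial.rename e P).totalDegree : ℕ) : ℚ≥0) /
          ((2 * B + 1 : ℕ) : ℚ≥0) : ℚ≥0) : ℚ) =
          ((MvPolynomial.rename e P).totalDegree : ℚ) / ((2 * B + 1 : ℕ) : ℚ) := by
      push_cast
      rfl
    rw [h8, h9] at h7
    refine h7.trans ?_
    apply div_le_div_of_nonneg_right _ (by positivity)
    exact_mod_cast h5
  have h7 : (0 : ℚ) < ((2 * B + 1 : ℕ) : ℚ) := by positivity
  rw [div_le_div_iff₀ (by positivity) h7] at h6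
  have h8 : ((bx J B).card : ℝ) = (2 * (B : ℝ) + 1) ^ n := by
    rw [card_box, hn]
  rw [h8]
  have h9 : ((((bx J B).filter fun a => F a = 0).card : ℝ) * ((2 * B + 1 : ℕ) : ℝ)) ≤
      (m : ℝ) * ((2 * B + 1 : ℕ) : ℝ) ^ n := by
    exact_mod_cast h6
  push_cast at h9
  exact h9

end Pf

end Pool.Agent.Helper28.TL
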