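import Pool.Agent.Helper28.TL.Cnt

set_option autoImplicit false

namespace Pool.Agent.Helper28.TL

open Polynomial Finset
open Pool.Agent.Helper28.TC (WW WW_nonneg qc qc_abs ringCharK LP up cc cc_abs WF XK mem_XK)
open Pool.Agent.Helper28.TC.N (Idx)

section Defs

variable {p : ℕ} [Fact p.Prime] {k : ℕ} {g : Fin k → ℕ}

/-- The character sum over the affine points. -/
noncomputable def SA (i : Fin k) (u : Idx g → ZMod p) : ℝ := ∑ x : ZMod p, cc i (some x) u

/-- The number of affine points which are not zeros. -/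
noncomputable def ZA (i : Fin k) (u : Idx g → ZMod p) : ℝ := ∑ x : ZMod p, cc i (some x) u ^ 2

/-- The sum over the pairs of distinct points. -/
noncomputable def BB (i : Fin k) (u : Idx g → ZMod p) : ℝ :=
  ∑ z ∈ (univ : Finset (ZMod p)).offDiag, cc i (some z.1) u * cc i (some z.2) u

lemma SA_sq (i : Fin k) (u : Idx g → ZMod p) : SA i u ^ 2 = BB i u + ZA i u := by
  unfold SA BB ZA
  rw [sq, Finset.sum_mul_sum, ← Finset.sum_product',
    ← Finset.diag_union_offDiag (univ : Finset (ZMod p)),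
    Finset.sum_union (Finset.disjoint_diag_offDiag _), Finset.sum_diag, add_comm]
  congr 1
  exact Finset.sum_congr rfl fun x _ => by rw [sq]

lemma ZA_nonneg (i : Fin k) (u : Idx g → ZMod p) : 0 ≤ ZA i u :=
  Finset.sum_nonneg fun _ _ => sq_nonneg _

lemma ZA_le (i : Fin k) (u : Idx g → ZMod p) : ZA i u ≤ p := by
  unfold ZA
  calc _ ≤ ∑ _x : ZMod p, (1 : ℝ) := by
        refine Finset.sum_le_sum fun x _ => ?_
        rw [← sq_abs]
        have := cc_abs i (some x) u
        nlinarith [abs_nonneg (cc i (some x) u)]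
    _ = p := by rw [Finset.sum_const, Finset.card_univ, nsmul_eq_mul, mul_one, ZMod.card]

end Defs

section Cards

open Classical in
lemma card_pairs {p q : ℕ} [Fact p.Prime] [Fact q.Prime] {K₁ K₂ : Type} [Field K₁] [Fintype K₁]
    [Algebra (ZMod p) K₁] [Field K₂] [Fintype K₂] [Algebra (ZMod q) K₂] (κ q0 : ℕ) :
    ((univ : Finset (K₁ × K₂)).filter fun z => ∃ G, Sml κ q0 G ∧
      (aeval z.1 G = 0 ∧ aeval z.2 G = 0)).card ≤ cG κ q0 * (κ * κ) := by
  apply card_exists
  intro G hG
  refine ⟨((univ : Finset K₁).filter fun x => aeval x G = 0) ×ˢ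
        ((univ : Finset K₂).filter fun x => aeval x G = 0), ?_, ?_⟩
  · rw [Finset.card_product]
    exact Nat.mul_le_mul (card_root (p := p) hG) (card_root (p := q) hG)
  · intro z hz
    rw [Finset.mem_product, Finset.mem_filter, Finset.mem_filter]
    exact ⟨⟨Finset.mem_univ _, hz.1⟩, ⟨Finset.mem_univ _, hz.2⟩⟩

open Classical in
lemma card_quads {p q : ℕ} [Fact p.Prime] [Fact q.Prime] {K₁ K₂ : Type} [Field K₁] [Fintype K₁]
    [Algebra (ZMod p) K₁] [Field K₂] [Fintype K₂] [Algebra (ZMod q) K₂] (κ q0 : ℕ) :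
    ((univ : Finset ((K₁ × K₁) × (K₂ × K₂))).filter fun z => ∃ G, Sml κ q0 G ∧
      ((aeval z.1.1 G = 0 ∧ aeval z.1.2 G = 0) ∧ (aeval z.2.1 G = 0 ∧ aeval z.2.2 G = 0))).card ≤
      cG κ q0 * (κ * κ * (κ * κ)) := by
  apply card_exists
  intro G hG
  refine ⟨(((univ : Finset K₁).filter fun x => aeval x G = 0) ×ˢ
        ((univ : Finset K₁).filter fun x => aeval x G = 0)) ×ˢ
        (((univ : Finset K₂).filter fun x => aeval x G = 0) ×ˢ
        ((univ : Finset K₂).filter fun x => aeval x G = 0)), ?_, ?_⟩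
  · rw [Finset.card_product, Finset.card_product, Finset.card_product]
    exact Nat.mul_le_mul (Nat.mul_le_mul (card_root (p := p) hG) (card_root (p := p) hG))
      (Nat.mul_le_mul (card_root (p := q) hG) (card_root (p := q) hG))
  · intro z hz
    simp only [Finset.mem_product, Finset.mem_filter, Finset.mem_univ, true_and]
    exact hz

end Cards

section Pairs

variable {R : Type} [CommRing R] {k d : ℕ} {g : Fin k → ℕ} {M H p q : ℕ} [NeZero M]
  [Fact p.Prime] [Fact q.Prime] (b : Fin d → R) (c : Fin d → ℤ) (hc : ∑ l, (c l : R) * b l = 1)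
  (φ : R →+* ZMod p) (φ' : R →+* ZMod q) (h : p ∣ M) (h' : q ∣ M)

lemma abs_mul_le_one {x y : ℝ} (hx : |x| ≤ 1) (hy : |y| ≤ 1) : |x * y| ≤ 1 := by
  rw [abs_mul]
  exact mul_le_one₀ hx (abs_nonneg _) hy

include hc in
/-- The products of two character sums of different polynomials, at different primes. -/
lemma pairS (hpq : p ≠ q) (hp : p ≠ 2) (hq : q ≠ 2) {i j : Fin k} (hij : j ≠ i)
    {κ q0 q1 κ' q0' q1' N : ℕ} (ha : Adm (2 * g i + 2) M H κ q0 q1 N)
    (ha' : Adm (2 * g j + 2) M H κ' q0' q1' N) (hN : p * q ≤ N) :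
    |∑ a : Idx g × Fin d → ZMod M, WW H a * ((SA i (rdM b φ h a) * SA j (rdM b φ h a)) *
      (SA i (rdM b φ' h' a) * SA j (rdM b φ' h' a)))| ≤
      ZZ (Idx g × Fin d) M H * ((cG κ q0 * (κ * κ) * (cG κ' q0' * (κ' * κ')) : ℕ) : ℝ) := by
  classical
  have e0 : ∀ a : Idx g × Fin d → ZMod M, (SA i (rdM b φ h a) * SA j (rdM b φ h a)) *
      (SA i (rdM b φ' h' a) * SA j (rdM b φ' h' a)) =
      ∑ z ∈ (univ : Finset ((ZMod p × ZMod p) × (ZMod q × ZMod q))),
        (cc i (some z.1.1) (rdM b φ h a) * cc j (some z.1.2) (rdM b φ h a)) *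
        (cc i (some z.2.1) (rdM b φ' h' a) * cc j (some z.2.2) (rdM b φ' h' a)) := by
    intro a
    unfold SA
    rw [Finset.sum_mul_sum, Finset.sum_mul_sum, ← Fintype.sum_prod_type', ← Fintype.sum_prod_type',
      Finset.sum_mul_sum, ← Fintype.sum_prod_type']
  simp_rw [e0]
  have h1 := sum_terms (M := M) (H := H) (J := Idx g × Fin d)
    (univ : Finset ((ZMod p × ZMod p) × (ZMod q × ZMod q)))
    ((univ : Finset ((ZMod p × ZMod p) × (ZMod q × ZMod q))).filter fun z =>
      (∃ G, Sml κ q0 G ∧ (aeval z.1.1 G = 0 ∧ aeval z.2.1 G = 0)) ∧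
      (∃ G, Sml κ' q0' G ∧ (aeval z.1.2 G = 0 ∧ aeval z.2.2 G = 0)))
    (fun z a => (cc i (some z.1.1) (rdM b φ h a) * cc j (some z.1.2) (rdM b φ h a)) *
        (cc i (some z.2.1) (rdM b φ' h' a) * cc j (some z.2.2) (rdM b φ' h' a)))
    (fun z a => abs_mul_le_one (abs_mul_le_one (cc_abs _ _ _) (cc_abs _ _ _))
      (abs_mul_le_one (cc_abs _ _ _) (cc_abs _ _ _)))
    (by
      rintro ⟨⟨x, x'⟩, ⟨y, y'⟩⟩ _ hne
      rw [Finset.mem_filter]
      refine ⟨Finset.mem_univ _, ?_, ?_⟩
      · obtain ⟨G, hG, hG1, hG2⟩ := two_clusters (H := H) b c hc φ φ' h h' (ZMod p) (ZMod q) hpq hp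
          hq i (X₁ := fun _ : Unit => x) (X₂ := fun _ : Unit => y)
          (itp_inj (fun _ _ _ => rfl) (by simp)) (itp_inj (fun _ _ _ => rfl) (by simp)) ha
          (by simpa [ZMod.card] using hN)
          (fun a => cc j (some x') (rdM b φ h a) * cc j (some y') (rdM b φ' h' a))
          (by
            intro a l P
            have e1 : cc j (some x') (rdM b φ h (a + kap i l P)) = cc j (some x') (rdM b φ h a) := by
              change qc (ZMod p) (LX b φ h (ZMod p) j x' (a + kap i l P)) =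
                qc (ZMod p) (LX b φ h (ZMod p) j x' a)
              rw [map_add, LX_kap_ne b φ h (ZMod p) hij, add_zero]
            have e2 : cc j (some y') (rdM b φ' h' (a + kap i l P)) =
                cc j (some y') (rdM b φ' h' a) := by
              change qc (ZMod q) (LX b φ' h' (ZMod q) j y' (a + kap i l P)) =
                qc (ZMod q) (LX b φ' h' (ZMod q) j y' a)
              rw [map_add, LX_kap_ne b φ' h' (ZMod q) hij, add_zero]
            rw [e1, e2])
          (by
            intro h0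
            apply hne
            rw [← h0]
            refine Finset.sum_congr rfl fun a _ => ?_
            rw [Fintype.prod_unique, Fintype.prod_unique]
            change WW H a * ((cc i (some x) (rdM b φ h a) * cc j (some x') (rdM b φ h a)) *
              (cc i (some y) (rdM b φ' h' a) * cc j (some y') (rdM b φ' h' a))) =
              WW H a * (cc i (some x) (rdM b φ h a) * cc i (some y) (rdM b φ' h' a) *
              (cc j (some x') (rdM b φ h a) * cc j (some y') (rdM b φ' h' a)))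
            ring)
        exact ⟨G, hG, hG1 (), hG2 ()⟩
      · obtain ⟨G, hG, hG1, hG2⟩ := two_clusters (H := H) b c hc φ φ' h h' (ZMod p) (ZMod q) hpq hp
          hq j (X₁ := fun _ : Unit => x') (X₂ := fun _ : Unit => y')
          (itp_inj (fun _ _ _ => rfl) (by simp)) (itp_inj (fun _ _ _ => rfl) (by simp)) ha'
          (by simpa [ZMod.card] using hN)
          (fun a => cc i (some x) (rdM b φ h a) * cc i (some y) (rdM b φ' h' a))
          (by
            intro a l P
            have e1 : cc i (some x) (rdM b φ h (a + kap j l P)) = cc i (some x) (rdM b φ h a) := by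
              change qc (ZMod p) (LX b φ h (ZMod p) i x (a + kap j l P)) =
                qc (ZMod p) (LX b φ h (ZMod p) i x a)
              rw [map_add, LX_kap_ne b φ h (ZMod p) hij.symm, add_zero]
            have e2 : cc i (some y) (rdM b φ' h' (a + kap j l P)) =
                cc i (some y) (rdM b φ' h' a) := by
              change qc (ZMod q) (LX b φ' h' (ZMod q) i y (a + kap j l P)) =
                qc (ZMod q) (LX b φ' h' (ZMod q) i y a)
              rw [map_add, LX_kap_ne b φ' h' (ZMod q) hij.symm, add_zero]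
            rw [e1, e2])
          (by
            intro h0
            apply hne
            rw [← h0]
            refine Finset.sum_congr rfl fun a _ => ?_
            rw [Fintype.prod_unique, Fintype.prod_unique]
            change WW H a * ((cc i (some x) (rdM b φ h a) * cc j (some x') (rdM b φ h a)) *
              (cc i (some y) (rdM b φ' h' a) * cc j (some y') (rdM b φ' h' a))) =
              WW H a * (cc j (some x') (rdM b φ h a) * cc j (some y') (rdM b φ' h' a) *
              (cc i (some x) (rdM b φ h a) * cc i (some y) (rdM b φ' h' a)))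
            ring)
        exact ⟨G, hG, hG1 (), hG2 ()⟩)
  refine h1.trans ?_
  apply mul_le_mul_of_nonneg_left _ ZZ_nonneg
  have h2 : ((univ : Finset ((ZMod p × ZMod p) × (ZMod q × ZMod q))).filter fun z =>
      (∃ G, Sml κ q0 G ∧ (aeval z.1.1 G = 0 ∧ aeval z.2.1 G = 0)) ∧
      (∃ G, Sml κ' q0' G ∧ (aeval z.1.2 G = 0 ∧ aeval z.2.2 G = 0))).card ≤
      (((univ : Finset (ZMod p × ZMod q)).filter fun z => ∃ G, Sml κ q0 G ∧
        (aeval z.1 G = 0 ∧ aeval z.2 G = 0)) ×ˢ
        ((univ : Finset (ZMod p × ZMod q)).filter fun z => ∃ G, Sml κ' q0' G ∧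
        (aeval z.1 G = 0 ∧ aeval z.2 G = 0))).card := by
    apply Finset.card_le_card_of_injOn (fun z => ((z.1.1, z.2.1), (z.1.2, z.2.2)))
    · intro z hz
      rw [Finset.mem_coe, Finset.mem_filter] at hz
      rw [Finset.mem_coe, Finset.mem_product, Finset.mem_filter, Finset.mem_filter]
      exact ⟨⟨Finset.mem_univ _, hz.2.1⟩, ⟨Finset.mem_univ _, hz.2.2⟩⟩
    · rintro ⟨⟨x, x'⟩, ⟨y, y'⟩⟩ _ ⟨⟨w, w'⟩, ⟨v, v'⟩⟩ _ he
      simp only [Prod.mk.injEq] at he
      obtain ⟨⟨rfl, rfl⟩, ⟨rfl, rfl⟩⟩ := he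
      rfl
  rw [Finset.card_product] at h2
  have h3 := h2.trans (Nat.mul_le_mul (card_pairs (p := p) (q := q) κ q0)
    (card_pairs (p := p) (q := q) κ' q0'))
  exact_mod_cast h3

include hc in
/-- The sums over pairs of distinct points, at different primes. -/
lemma pairB (hpq : p ≠ q) (hp : p ≠ 2) (hq : q ≠ 2) {i : Fin k}
    {κ q0 q1 N : ℕ} (ha : Adm (2 * g i + 2) M H κ q0 q1 N) (hN : p ^ 2 * q ^ 2 ≤ N) :
    |∑ a : Idx g × Fin d → ZMod M, WW H a * (BB i (rdM b φ h a) * BB i (rdM b φ' h' a))| ≤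
      ZZ (Idx g × Fin d) M H * ((cG κ q0 * (κ * κ * (κ * κ)) : ℕ) : ℝ) := by
  classical
  have e0 : ∀ a : Idx g × Fin d → ZMod M, BB i (rdM b φ h a) * BB i (rdM b φ' h' a) =
      ∑ z ∈ (univ : Finset (ZMod p)).offDiag ×ˢ (univ : Finset (ZMod q)).offDiag,
        (cc i (some z.1.1) (rdM b φ h a) * cc i (some z.1.2) (rdM b φ h a)) *
        (cc i (some z.2.1) (rdM b φ' h' a) * cc i (some z.2.2) (rdM b φ' h' a)) := by
    intro a
    unfold BB
    rw [Finset.sum_mul_sum, ← Finset.sum_product']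
  simp_rw [e0]
  have h1 := sum_terms (M := M) (H := H) (J := Idx g × Fin d)
    ((univ : Finset (ZMod p)).offDiag ×ˢ (univ : Finset (ZMod q)).offDiag)
    ((univ : Finset ((ZMod p × ZMod p) × (ZMod q × ZMod q))).filter fun z => ∃ G, Sml κ q0 G ∧
      ((aeval z.1.1 G = 0 ∧ aeval z.1.2 G = 0) ∧ (aeval z.2.1 G = 0 ∧ aeval z.2.2 G = 0)))
    (fun z a => (cc i (some z.1.1) (rdM b φ h a) * cc i (some z.1.2) (rdM b φ h a)) *
        (cc i (some z.2.1) (rdM b φ' h' a) * cc i (some z.2.2) (rdM b φ' h' a)))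
    (fun z a => abs_mul_le_one (abs_mul_le_one (cc_abs _ _ _) (cc_abs _ _ _))
      (abs_mul_le_one (cc_abs _ _ _) (cc_abs _ _ _)))
    (by
      rintro ⟨⟨x, x'⟩, ⟨y, y'⟩⟩ hz hne
      rw [Finset.mem_product, Finset.mem_offDiag, Finset.mem_offDiag] at hz
      have hxx : x ≠ x' := hz.1.2.2
      have hyy : y ≠ y' := hz.2.2.2
      rw [Finset.mem_filter]
      refine ⟨Finset.mem_univ _, ?_⟩
      have i1 : Function.Injective ![x, x'] := by
        intro m n hmn
        fin_cases m <;> fin_cases n <;> first | rfl | exact absurd hmn hxx | exact absurd hmn hxx.symm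
      have i2 : Function.Injective ![y, y'] := by
        intro m n hmn
        fin_cases m <;> fin_cases n <;> first | rfl | exact absurd hmn hyy | exact absurd hmn hyy.symm
      obtain ⟨G, hG, hG1, hG2⟩ := two_clusters (H := H) b c hc φ φ' h h' (ZMod p) (ZMod q) hpq hp
          hq i (X₁ := ![x, x']) (X₂ := ![y, y'])
          (itp_inj i1 (by simp)) (itp_inj i2 (by simp)) ha
          (by simpa [ZMod.card] using hN) (fun _ => 1) (fun _ _ _ => rfl)
          (by
            intro h0
            apply hne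
            rw [← h0]
            refine Finset.sum_congr rfl fun a _ => ?_
            rw [Fin.prod_univ_two, Fin.prod_univ_two, mul_one]
            rfl)
      exact ⟨G, hG, ⟨hG1 0, hG1 1⟩, ⟨hG2 0, hG2 1⟩⟩)
  refine h1.trans ?_
  apply mul_le_mul_of_nonneg_left _ ZZ_nonneg
  exact_mod_cast card_quads (p := p) (q := q) κ q0

variable (K₁ K₂ : Type) [Field K₁] [Fintype K₁] [Algebra (ZMod p) K₁] [Field K₂] [Fintype K₂]
  [Algebra (ZMod q) K₂]

include hc in
/-- The sums over the points of degree two, at different primes. -/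
lemma pairW (hpq : p ≠ q) (hp : p ≠ 2) (hq : q ≠ 2) (hK₁ : Fintype.card K₁ = p ^ 2)
    (hK₂ : Fintype.card K₂ = q ^ 2) {i : Fin k}
    {κ q0 q1 N : ℕ} (ha : Adm (2 * g i + 2) M H κ q0 q1 N) (hN : p ^ 2 * q ^ 2 ≤ N) :
    |∑ a : Idx g × Fin d → ZMod M, WW H a *
      (WF K₁ i (rdM b φ h a) * WF K₂ i (rdM b φ' h' a))| ≤
      ZZ (Idx g × Fin d) M H * ((cG κ q0 * (κ * κ) : ℕ) : ℝ) := by
  classical
  have e0 : ∀ a : Idx g × Fin d → ZMod M, WF K₁ i (rdM b φ h a) * WF K₂ i (rdM b φ' h' a) =
      ∑ z ∈ (XK (p := p) K₁) ×ˢ (XK (p := q) K₂),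
        qc K₁ (LP K₁ i (some z.1) (rdM b φ h a)) * qc K₂ (LP K₂ i (some z.2) (rdM b φ' h' a)) := by
    intro a
    unfold WF
    rw [Finset.sum_mul_sum, ← Finset.sum_product']
  simp_rw [e0]
  have h1 := sum_terms (M := M) (H := H) (J := Idx g × Fin d)
    ((XK (p := p) K₁) ×ˢ (XK (p := q) K₂))
    ((univ : Finset (K₁ × K₂)).filter fun z => ∃ G, Sml κ q0 G ∧
      (aeval z.1 G = 0 ∧ aeval z.2 G = 0))
    (fun z a => qc K₁ (LP K₁ i (some z.1) (rdM b φ h a)) *
      qc K₂ (LP K₂ i (some z.2) (rdM b φ' h' a)))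
    (fun z a => abs_mul_le_one (qc_abs _) (qc_abs _))
    (by
      rintro ⟨x, y⟩ hz hne
      rw [Finset.mem_product, mem_XK, mem_XK] at hz
      rw [Finset.mem_filter]
      refine ⟨Finset.mem_univ _, ?_⟩
      obtain ⟨G, hG, hG1, hG2⟩ := two_clusters (H := H) b c hc φ φ' h h' K₁ K₂ hpq hp
          hq i (X₁ := fun _ : Unit => x) (X₂ := fun _ : Unit => y)
          (itp_unit hK₁ hz.1) (itp_unit hK₂ hz.2) ha
          (by rw [hK₁, hK₂]; simpa using hN) (fun _ => 1) (fun _ _ _ => rfl)
          (by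
            intro h0
            apply hne
            rw [← h0]
            refine Finset.sum_congr rfl fun a _ => ?_
            rw [Fintype.prod_unique, Fintype.prod_unique, mul_one]
            rfl)
      exact ⟨G, hG, hG1 (), hG2 ()⟩)
  refine h1.trans ?_
  apply mul_le_mul_of_nonneg_left _ ZZ_nonneg
  exact_mod_cast card_pairs (p := p) (q := q) κ q0

end Pairs

end Pool.Agent.Helper28.TL
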