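import Mathlib

set_option autoImplicit false

namespace Pool.Agent.Helper28.TL

open Polynomial Finset

section Height

/-- The coefficients of a factor of an integer polynomial. -/
lemma factor_coeff {G Q : ℤ[X]} (hGQ : G ∣ Q) (hQ : Q ≠ 0) {K m : ℕ} {q : ℕ}
    (hG : G.natDegree ≤ K) (hm : Q.natDegree < m)
    (hq : ∀ n, |Q.coeff n| ≤ (q : ℤ)) (n : ℕ) : |G.coeff n| ≤ ((2 ^ K * (m * q) : ℕ) : ℤ) := by
  obtain ⟨S, hS⟩ := hGQ
  have hS0 : S ≠ 0 := by
    rintro rfl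
    apply hQ
    rw [hS, mul_zero]
  have h1 := norm_coeff_le_choose_mul_mahlerMeasure_of_one_le_mahlerMeasure n
    (G.map (Int.castRingHom ℂ)) (S.map (Int.castRingHom ℂ)) (one_le_mahlerMeasure_of_ne_zero hS0)
  rw [← Polynomial.map_mul, ← hS] at h1
  have h2 := mahlerMeasure_le_sum_norm_coeff (Q.map (Int.castRingHom ℂ))
  have h3 : (Q.map (Int.castRingHom ℂ)).sum (fun _ a => ‖a‖) ≤ m * q := by
    rw [Polynomial.sum_over_range' (n := m) _ (fun n => norm_zero)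
      (lt_of_le_of_lt natDegree_map_le hm)]
    calc _ ≤ ∑ _i ∈ range m, (q : ℝ) := by
          refine Finset.sum_le_sum fun i _ => ?_
          rw [coeff_map, eq_intCast, Complex.norm_intCast]
          exact_mod_cast hq i
      _ = m * q := by rw [Finset.sum_const, Finset.card_range, nsmul_eq_mul]
  have h4 : ((G.map (Int.castRingHom ℂ)).natDegree.choose n : ℝ) ≤ 2 ^ K := by
    have h5 : (G.map (Int.castRingHom ℂ)).natDegree.choose n ≤ 2 ^ K :=
      (Nat.choose_le_two_pow _ _).trans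
        (Nat.pow_le_pow_right (by norm_num) (natDegree_map_le.trans hG))
    exact_mod_cast h5
  rw [coeff_map, eq_intCast, Complex.norm_intCast] at h1
  have h6 : |((G.coeff n : ℤ) : ℝ)| ≤ 2 ^ K * (m * q) := by
    refine h1.trans (mul_le_mul h4 (h2.trans h3) (mahlerMeasure_nonneg _) (by positivity))
  have h7 : ((|G.coeff n| : ℤ) : ℝ) ≤ ((2 ^ K * (m * q) : ℕ) : ℝ) := by
    push_cast
    exact h6
  exact_mod_cast h7

end Height

section Pigeon

/-- A small integer polynomial which vanishes at an element of a finite ring. -/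
lemma pigeon {𝓡 : Type} [CommRing 𝓡] [Fintype 𝓡] (τ : 𝓡) {m q : ℕ}
    (h : Fintype.card 𝓡 < (q + 1) ^ m) :
    ∃ Q : ℤ[X], Q ≠ 0 ∧ Q.natDegree < m ∧ (∀ n, |Q.coeff n| ≤ (q : ℤ)) ∧ aeval τ Q = 0 := by
  obtain ⟨c, c', hne, heq⟩ := Fintype.exists_ne_map_eq_of_card_lt
    (fun c : Fin m → Fin (q + 1) => ∑ i, (((c i : ℕ) : ℤ) : 𝓡) * τ ^ (i : ℕ))
    (by simpa using h)
  obtain ⟨Q, hQ⟩ : ∃ Q : ℤ[X], Q = ∑ i : Fin m, C (((c i : ℕ) : ℤ) - ((c' i : ℕ) : ℤ)) * X ^ (i : ℕ) :=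
    ⟨_, rfl⟩
  have hc : ∀ n, Q.coeff n = if h : n < m then ((c ⟨n, h⟩ : ℕ) : ℤ) - ((c' ⟨n, h⟩ : ℕ) : ℤ) else 0 := by
    intro n
    rw [hQ, finsetSum_coeff]
    by_cases h : n < m
    · rw [dif_pos h, Finset.sum_eq_single (⟨n, h⟩ : Fin m)]
      · rw [coeff_C_mul, coeff_X_pow, if_pos rfl, mul_one]
      · intro j _ hj
        rw [coeff_C_mul, coeff_X_pow, if_neg, mul_zero]
        intro h'
        exact hj (Fin.ext h'.symm)
      · intro h'; exact absurd (Finset.mem_univ _) h'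
    · rw [dif_neg h]
      refine Finset.sum_eq_zero fun j _ => ?_
      rw [coeff_C_mul, coeff_X_pow, if_neg, mul_zero]
      intro h'
      exact h (h' ▸ j.2)
  have hQ0 : Q ≠ 0 := by
    intro h0
    apply hne
    funext i
    have h1 := hc i
    rw [h0, coeff_zero, dif_pos i.2] at h1
    have h2 : (c i : ℕ) = (c' i : ℕ) := by
      have : ((c i : ℕ) : ℤ) = ((c' i : ℕ) : ℤ) := by linarith
      exact_mod_cast this
    exact Fin.ext h2
  refine ⟨Q, hQ0, ?_, ?_, ?_⟩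
  · by_contra hcon
    push Not at hcon
    have h1 := hc Q.natDegree
    rw [dif_neg (by omega)] at h1
    exact hQ0 (leadingCoeff_eq_zero.1 h1)
  · intro n
    rw [hc]
    split_ifs with hn
    · have h1 := (c ⟨n, hn⟩).2
      have h2 := (c' ⟨n, hn⟩).2
      rw [abs_le]
      constructor <;> omega
    · simp
  · rw [hQ, map_sum]
    have h1 : ∑ i : Fin m, (aeval τ) (C (((c i : ℕ) : ℤ) - ((c' i : ℕ) : ℤ)) * X ^ (i : ℕ)) =
        ∑ i, (((c i : ℕ) : ℤ) : 𝓡) * τ ^ (i : ℕ) - ∑ i, (((c' i : ℕ) : ℤ) : 𝓡) * τ ^ (i : ℕ) := by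
      rw [← Finset.sum_sub_distrib]
      refine Finset.sum_congr rfl fun i _ => ?_
      rw [map_mul, map_pow, aeval_X, aeval_C]
      simp only [algebraMap_int_eq, eq_intCast]
      push_cast
      ring
    rw [h1]
    exact sub_eq_zero.2 heq

end Pigeon

section Rec

/-- The linear functional on rational polynomials. -/
noncomputable def lam (θ : ℕ → ℤ) (D : ℕ) (P : ℚ[X]) : ℚ :=
  ∑ j ∈ range (D + 1), (θ j : ℚ) * P.coeff j

lemma lam_add (θ : ℕ → ℤ) (D : ℕ) (P Q : ℚ[X]) : lam θ D (P + Q) = lam θ D P + lam θ D Q := by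
  unfold lam
  rw [← Finset.sum_add_distrib]
  refine Finset.sum_congr rfl fun j _ => ?_
  rw [coeff_add]
  ring

lemma lam_C_mul (θ : ℕ → ℤ) (D : ℕ) (c : ℚ) (P : ℚ[X]) : lam θ D (C c * P) = c * lam θ D P := by
  unfold lam
  rw [Finset.mul_sum]
  refine Finset.sum_congr rfl fun j _ => ?_
  rw [coeff_C_mul]
  ring

lemma lam_sum (θ : ℕ → ℤ) (D : ℕ) {ι : Type} (s : Finset ι) (P : ι → ℚ[X]) :
    lam θ D (∑ i ∈ s, P i) = ∑ i ∈ s, lam θ D (P i) := by
  classical
  induction s using Finset.induction_on with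
  | empty => simp [lam]
  | insert a s ha ih => rw [Finset.sum_insert ha, Finset.sum_insert ha, lam_add, ih]

lemma lam_mul {θ : ℕ → ℤ} {D : ℕ} {Q : ℚ[X]} (hQ : Q ≠ 0)
    (h : ∀ j, j + Q.natDegree ≤ D → lam θ D (X ^ j * Q) = 0) {A : ℚ[X]}
    (hA : (A * Q).natDegree ≤ D) : lam θ D (A * Q) = 0 := by
  by_cases hA0 : A = 0
  · rw [hA0, zero_mul]
    simp [lam]
  rw [natDegree_mul hA0 hQ] at hA
  conv_lhs => rw [A.as_sum_range_C_mul_X_pow]
  rw [Finset.sum_mul, lam_sum]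
  refine Finset.sum_eq_zero fun j hj => ?_
  rw [Finset.mem_range] at hj
  rw [mul_assoc, lam_C_mul, h j (by omega), mul_zero]

lemma bezout {q0 q1 : ℚ[X]} (h0 : q0 ≠ 0) (h1 : q1 ≠ 0) :
    ∃ g A B : ℚ[X], g ∣ q0 ∧ g ∣ q1 ∧ g ≠ 0 ∧ g = A * q0 + B * q1 ∧
      (A * q0).natDegree ≤ q0.natDegree + q1.natDegree - 1 ∧
      (B * q1).natDegree ≤ q0.natDegree + q1.natDegree - 1 := by
  obtain ⟨g, hg⟩ : ∃ g, g = EuclideanDomain.gcd q0 q1 := ⟨_, rfl⟩
  obtain ⟨t, ht⟩ : g ∣ q0 := hg ▸ EuclideanDomain.gcd_dvd_left q0 q1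
  obtain ⟨s, hs⟩ : g ∣ q1 := hg ▸ EuclideanDomain.gcd_dvd_right q0 q1
  have hab : g = q0 * EuclideanDomain.gcdA q0 q1 + q1 * EuclideanDomain.gcdB q0 q1 :=
    hg ▸ EuclideanDomain.gcd_eq_gcd_ab q0 q1
  have hg0 : g ≠ 0 := by
    rintro rfl
    apply h0
    rw [ht, zero_mul]
  have hs0 : s ≠ 0 := by
    rintro rfl
    apply h1
    rw [hs, mul_zero]
  have ht0 : t ≠ 0 := by
    rintro rfl
    apply h0
    rw [ht, mul_zero]
  obtain ⟨A', hA'⟩ : ∃ A', A' = EuclideanDomain.gcdA q0 q1 := ⟨_, rfl⟩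
  obtain ⟨B', hB'⟩ : ∃ B', B' = EuclideanDomain.gcdB q0 q1 := ⟨_, rfl⟩
  rw [← hA', ← hB'] at hab
  have hdm := EuclideanDomain.div_add_mod A' s
  have hdeg1 : q1.natDegree = g.natDegree + s.natDegree := by rw [hs, natDegree_mul hg0 hs0]
  have hdeg0 : q0.natDegree = g.natDegree + t.natDegree := by rw [ht, natDegree_mul hg0 ht0]
  have hA : ((A' % s) * q0).natDegree ≤ q0.natDegree + q1.natDegree - 1 := by
    by_cases hsd : s.natDegree = 0
    · have hu : IsUnit s := by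
        rw [eq_C_of_natDegree_eq_zero hsd] at hs0 ⊢
        rw [isUnit_C]
        exact isUnit_iff_ne_zero.2 fun h2 => hs0 (by rw [h2, C_0])
      have : A' % s = 0 := (EuclideanDomain.mod_eq_zero).2 hu.dvd
      rw [this, zero_mul, natDegree_zero]
      exact Nat.zero_le _
    · have h2 := natDegree_mod_lt A' hsd
      have h3 := natDegree_mul_le (p := A' % s) (q := q0)
      omega
  have hB : ((A' / s) * t + B') * q1 = g - (A' % s) * q0 := by
    have e1 : (A' / s) * t * q1 = (A' / s) * s * q0 := by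
      rw [hs, ht]; ring
    have e2 : A' = s * (A' / s) + A' % s := hdm.symm
    calc ((A' / s) * t + B') * q1 = (A' / s) * t * q1 + q1 * B' := by ring
      _ = (A' / s) * s * q0 + q1 * B' := by rw [e1]
      _ = (q0 * (s * (A' / s) + A' % s) + q1 * B') - (A' % s) * q0 := by ring
      _ = _ := by rw [← e2, ← hab]
  refine ⟨g, A' % s, (A' / s) * t + B', ⟨t, ht⟩, ⟨s, hs⟩, hg0, ?_, hA, ?_⟩
  · rw [hB]; ring
  · rw [hB]
    refine (natDegree_sub_le _ _).trans (max_le ?_ hA)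
    by_cases h3 : s.natDegree = 0 ∧ t.natDegree = 0 ∧ g.natDegree = 0
    · omega
    · by_cases h4 : g.natDegree = 0
      · omega
      · omega

lemma exists_primitive {g : ℚ[X]} (hg : g ≠ 0) : ∃ G : ℤ[X], G.IsPrimitive ∧
    ∃ c : ℚ, c ≠ 0 ∧ G.map (Int.castRingHom ℚ) = C c * g := by
  obtain ⟨b, hb, hb2⟩ := IsLocalization.integerNormalization_spec (nonZeroDivisors ℤ) g
  obtain ⟨G', hG'⟩ : ∃ G', G' = IsLocalization.integerNormalization (nonZeroDivisors ℤ) g :=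
    ⟨_, rfl⟩
  rw [← hG'] at hb2
  have hb0 : b ≠ 0 := nonZeroDivisors.ne_zero hb
  have h1 : G'.map (Int.castRingHom ℚ) = C (b : ℚ) * g := by
    have h2 : G'.map (Int.castRingHom ℚ) = b • g := hb2
    rw [h2, zsmul_eq_mul]
    rfl
  have hG0 : G' ≠ 0 := by
    intro h
    rw [h, Polynomial.map_zero] at h1
    rcases mul_eq_zero.1 h1.symm with h2 | h2
    · rw [C_eq_zero] at h2
      exact hb0 (by exact_mod_cast h2)
    · exact hg h2
  refine ⟨G'.primPart, G'.isPrimitive_primPart, (G'.content : ℚ)⁻¹ * b, ?_, ?_⟩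
  · have hc : G'.content ≠ 0 := by rwa [Ne, content_eq_zero_iff]
    have hc' : (G'.content : ℚ) ≠ 0 := by exact_mod_cast hc
    have hb' : (b : ℚ) ≠ 0 := by exact_mod_cast hb0
    exact mul_ne_zero (inv_ne_zero hc') hb'
  · have hc : G'.content ≠ 0 := by rwa [Ne, content_eq_zero_iff]
    have hc' : (G'.content : ℚ) ≠ 0 := by exact_mod_cast hc
    have h3 := congrArg (Polynomial.map (Int.castRingHom ℚ)) G'.eq_C_content_mul_primPart
    rw [h1, Polynomial.map_mul, Polynomial.map_C, eq_intCast] at h3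
    rw [C_mul, mul_assoc, h3, ← mul_assoc, ← C_mul, inv_mul_cancel₀ hc', C_1, one_mul]

/-- The greatest common divisor of two polynomials which annihilate a sequence annihilates it. -/
theorem exists_rec {Q0 Q1 : ℤ[X]} (h0 : Q0 ≠ 0) (h1 : Q1 ≠ 0) :
    ∃ G : ℤ[X], G.IsPrimitive ∧ G ∣ Q0 ∧ G.natDegree ≤ Q1.natDegree ∧
      ∀ (θ : ℕ → ℤ) (D : ℕ),
        (∀ j, j + Q0.natDegree ≤ D → ∑ i ∈ range (D + 1), θ i * (X ^ j * Q0).coeff i = 0) →
        (∀ j, j + Q1.natDegree ≤ D → ∑ i ∈ range (D + 1), θ i * (X ^ j * Q1).coeff i = 0) →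
        ∀ P : ℤ[X], P.natDegree + (Q0.natDegree + Q1.natDegree - 1) ≤ D →
          ∑ i ∈ range (D + 1), θ i * (P * G).coeff i = 0 := by
  have hinj : Function.Injective (Int.castRingHom ℚ) := Int.cast_injective
  have m0 : Q0.map (Int.castRingHom ℚ) ≠ 0 := (Polynomial.map_ne_zero_iff hinj).2 h0
  have m1 : Q1.map (Int.castRingHom ℚ) ≠ 0 := (Polynomial.map_ne_zero_iff hinj).2 h1
  have n0 : (Q0.map (Int.castRingHom ℚ)).natDegree = Q0.natDegree := natDegree_map_eq_of_injective hinj _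
  have n1 : (Q1.map (Int.castRingHom ℚ)).natDegree = Q1.natDegree := natDegree_map_eq_of_injective hinj _
  obtain ⟨g, A, B, g0, g1, hg, hgAB, hA, hB⟩ := bezout m0 m1
  obtain ⟨G, hG, c, hc, hGg⟩ := exists_primitive hg
  have hlink : ∀ (θ : ℕ → ℤ) (D : ℕ) (P : ℤ[X]), lam θ D (P.map (Int.castRingHom ℚ)) =
      ((∑ i ∈ range (D + 1), θ i * P.coeff i : ℤ) : ℚ) := by
    intro θ D P
    unfold lam
    push_cast
    refine Finset.sum_congr rfl fun i _ => ?_
    rw [coeff_map, eq_intCast]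
  have hGdvd : ∀ {q : ℚ[X]}, g ∣ q → G.map (Int.castRingHom ℚ) ∣ q := by
    rintro q ⟨r, rfl⟩
    refine ⟨C c⁻¹ * r, ?_⟩
    rw [hGg]
    have : C c * g * (C c⁻¹ * r) = C (c * c⁻¹) * (g * r) := by rw [C_mul]; ring
    rw [this, mul_inv_cancel₀ hc, C_1, one_mul]
  refine ⟨G, hG, ?_, ?_, ?_⟩
  · rw [IsPrimitive.Int.dvd_iff_map_cast_dvd_map_cast G Q0 hG]
    exact hGdvd g0
  · have h2 := natDegree_le_of_dvd (hGdvd g1) m1
    rwa [natDegree_map_eq_of_injective hinj, n1] at h2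
  · intro θ D H0 H1 P hP
    have e0 : ∀ j, j + (Q0.map (Int.castRingHom ℚ)).natDegree ≤ D →
        lam θ D (X ^ j * Q0.map (Int.castRingHom ℚ)) = 0 := by
      intro j hj
      rw [n0] at hj
      have := hlink θ D (X ^ j * Q0)
      rw [H0 j hj, Polynomial.map_mul, Polynomial.map_pow, Polynomial.map_X] at this
      rw [this, Int.cast_zero]
    have e1 : ∀ j, j + (Q1.map (Int.castRingHom ℚ)).natDegree ≤ D →
        lam θ D (X ^ j * Q1.map (Int.castRingHom ℚ)) = 0 := by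
      intro j hj
      rw [n1] at hj
      have := hlink θ D (X ^ j * Q1)
      rw [H1 j hj, Polynomial.map_mul, Polynomial.map_pow, Polynomial.map_X] at this
      rw [this, Int.cast_zero]
    rw [n0, n1] at hA hB
    have hPd : (P.map (Int.castRingHom ℚ)).natDegree ≤ P.natDegree := natDegree_map_le
    have f0 : lam θ D ((P.map (Int.castRingHom ℚ) * A) * Q0.map (Int.castRingHom ℚ)) = 0 := by
      apply lam_mul m0 e0
      rw [mul_assoc]
      exact natDegree_mul_le.trans (by omega)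
    have f1 : lam θ D ((P.map (Int.castRingHom ℚ) * B) * Q1.map (Int.castRingHom ℚ)) = 0 := by
      apply lam_mul m1 e1
      rw [mul_assoc]
      exact natDegree_mul_le.trans (by omega)
    have h2 := hlink θ D (P * G)
    rw [Polynomial.map_mul, hGg] at h2
    have h3 : P.map (Int.castRingHom ℚ) * (C c * g) =
        C c * ((P.map (Int.castRingHom ℚ) * A) * Q0.map (Int.castRingHom ℚ) +
          (P.map (Int.castRingHom ℚ) * B) * Q1.map (Int.castRingHom ℚ)) := by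
      rw [hgAB]; ring
    rw [h3, lam_C_mul, lam_add, f0, f1, add_zero, mul_zero] at h2
    exact_mod_cast h2.symm

end Rec

end Pool.Agent.Helper28.TL
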