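import Pool.Agent.Helper28.TC.Box
import Pool.Agent.Helper28.TC.NDefs
import Pool.Agent.Helper28.TL.Rec

set_option autoImplicit false

namespace Pool.Agent.Helper28.TL

open Polynomial Finset
open Pool.Agent.Helper28.TC (ker kerC ker_eq WW)
open Pool.Agent.Helper28.TC.N (Idx)

section Eth

variable {M : ℕ} [NeZero M] {J : Type} [Fintype J] [DecidableEq J]

/-- The exponential function with frequency `θ`. -/
noncomputable def eth (θ : J → ℤ) (a : J → ZMod M) : ℂ :=
  ZMod.stdAddChar (∑ j, ((θ j : ℤ) : ZMod M) * a j)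

omit [DecidableEq J] in
lemma eth_add (θ : J → ℤ) (a b : J → ZMod M) : eth θ (a + b) = eth θ a * eth θ b := by
  unfold eth
  rw [← AddChar.map_add_eq_mul]
  congr 1
  rw [← Finset.sum_add_distrib]
  refine Finset.sum_congr rfl fun j _ => ?_
  rw [Pi.add_apply, mul_add]

omit [DecidableEq J] in
lemma eth_sum (θ : J → ℤ) {ι : Type} (s : Finset ι) (a : ι → J → ZMod M)
    (h : ∀ i ∈ s, eth θ (a i) = 1) : eth θ (∑ i ∈ s, a i) = 1 := by
  classical
  induction s using Finset.induction_on with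
  | empty => simp [eth]
  | insert x s hx ih =>
      rw [Finset.sum_insert hx, eth_add, h x (Finset.mem_insert_self _ _),
        ih fun i hi => h i (Finset.mem_insert_of_mem hi), one_mul]

omit [DecidableEq J] [NeZero M] [Fintype J] in
lemma addChar_sum {A ι : Type} [AddCommGroup A] (ψ : AddChar A ℂ) (s : Finset ι) (f : ι → A) :
    ψ (∑ i ∈ s, f i) = ∏ i ∈ s, ψ (f i) := by
  classical
  induction s using Finset.induction_on with
  | empty => rw [Finset.sum_empty, Finset.prod_empty, AddChar.map_zero_eq_one]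
  | insert x s hx ih => rw [Finset.sum_insert hx, Finset.prod_insert hx, AddChar.map_add_eq_mul, ih]

lemma WW_eq (H : ℕ) (a : J → ZMod M) : (WW H a : ℂ) =
    ∑ z ∈ Fintype.piFinset (fun _ : J => range (H + 1) ×ˢ range (H + 1)),
      eth (fun j => ((z j).1 : ℤ) - ((z j).2 : ℤ)) a := by
  unfold WW
  push_cast
  have h : ∀ j, (ker H (a j) : ℂ) = ∑ z ∈ range (H + 1) ×ˢ range (H + 1),
      ZMod.stdAddChar (((((z.1 : ℤ) - (z.2 : ℤ)) : ℤ) : ZMod M) * a j) := by
    intro j
    rw [ker_eq, Finset.sum_product]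
    refine Finset.sum_congr rfl fun x _ => Finset.sum_congr rfl fun y _ => ?_
    push_cast
    rfl
  rw [Finset.prod_congr rfl fun j _ => h j, Finset.prod_univ_sum]
  refine Finset.sum_congr rfl fun z _ => ?_
  unfold eth
  rw [addChar_sum]

/-- A nonvanishing weighted sum has a nonvanishing small frequency. -/
lemma exists_eth {H : ℕ} {f : (J → ZMod M) → ℝ} (h : ∑ a, WW H a * f a ≠ 0) :
    ∃ θ : J → ℤ, (∀ j, |θ j| ≤ (H : ℤ)) ∧ ∑ a : J → ZMod M, eth θ a * (f a : ℂ) ≠ 0 := by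
  by_contra hcon
  push Not at hcon
  apply h
  have h1 : ((∑ a : J → ZMod M, WW H a * f a : ℝ) : ℂ) = 0 := by
    push_cast
    simp_rw [WW_eq, Finset.sum_mul]
    rw [Finset.sum_comm]
    refine Finset.sum_eq_zero fun z hz => ?_
    apply hcon
    intro j
    have h2 := Fintype.mem_piFinset.1 hz j
    rw [Finset.mem_product, Finset.mem_range, Finset.mem_range] at h2
    rw [abs_le]
    constructor <;> omega
  exact_mod_cast h1

/-- A translation which does not change the function. -/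
lemma eth_eq_one {θ : J → ℤ} {f : (J → ZMod M) → ℝ}
    (h : ∑ a : J → ZMod M, eth θ a * (f a : ℂ) ≠ 0) {v : J → ZMod M} (hv : ∀ a, f (a + v) = f a) :
    eth θ v = 1 := by
  have h1 : ∑ a : J → ZMod M, eth θ a * (f a : ℂ) =
      (∑ a : J → ZMod M, eth θ a * (f a : ℂ)) * eth θ v := by
    conv_lhs => rw [← Equiv.sum_comp (Equiv.addRight v)]
    rw [Finset.sum_mul]
    refine Finset.sum_congr rfl fun a _ => ?_
    rw [Equiv.coe_addRight, eth_add, hv]
    ring
  have h2 : (∑ a : J → ZMod M, eth θ a * (f a : ℂ)) * (eth θ v - 1) = 0 := by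
    rw [mul_sub, ← h1, mul_one, sub_self]
  rcases mul_eq_zero.1 h2 with h3 | h3
  · exact absurd h3 h
  · exact sub_eq_zero.1 h3

end Eth

section Kap

variable {k d : ℕ} {g : Fin k → ℕ} {M : ℕ} [NeZero M]

/-- The coordinates of a multiple of an integer polynomial. -/
def kap (i : Fin k) (l : Fin d) : ℤ[X] →+ (Idx g × Fin d → ZMod M) where
  toFun P := fun x => if x.1.1 = i ∧ x.2 = l then ((P.coeff (x.1.2 : ℕ) : ℤ) : ZMod M) else 0
  map_zero' := by
    funext x
    simp
  map_add' P Q := by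
    funext x
    rw [Pi.add_apply]
    split_ifs with h
    · rw [coeff_add, Int.cast_add]
    · rw [add_zero]

omit [NeZero M] in
lemma kap_apply (i : Fin k) (l : Fin d) (P : ℤ[X]) (x : Idx g × Fin d) :
    (kap i l P : Idx g × Fin d → ZMod M) x =
      if x.1.1 = i ∧ x.2 = l then ((P.coeff (x.1.2 : ℕ) : ℤ) : ZMod M) else 0 := rfl

/-- The frequencies of the polynomial `i` and the basis vector `l`. -/
def frq (θ : Idx g × Fin d → ℤ) (i : Fin k) (l : Fin d) (j : ℕ) : ℤ :=
  if h : j < 2 * g i + 3 then θ (⟨i, ⟨j, h⟩⟩, l) else 0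

lemma frq_abs {θ : Idx g × Fin d → ℤ} {H : ℕ} (h : ∀ x, |θ x| ≤ (H : ℤ)) (i : Fin k) (l : Fin d)
    (j : ℕ) : |frq θ i l j| ≤ (H : ℤ) := by
  unfold frq
  split_ifs
  · exact h _
  · simp

lemma eth_kap (θ : Idx g × Fin d → ℤ) (i : Fin k) (l : Fin d) (P : ℤ[X]) :
    eth θ (kap i l P : Idx g × Fin d → ZMod M) = ZMod.stdAddChar
      (((∑ j ∈ range (2 * g i + 2 + 1), frq θ i l j * P.coeff j : ℤ)) : ZMod M) := by
  unfold eth
  congr 1
  rw [Fintype.sum_prod_type, Fintype.sum_sigma, Finset.sum_eq_single i]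
  · rw [Finset.sum_range]
    push_cast
    refine Finset.sum_congr rfl fun j _ => ?_
    rw [Finset.sum_eq_single l]
    · rw [kap_apply, if_pos ⟨rfl, rfl⟩]
      unfold frq
      rw [dif_pos (show (j : ℕ) < 2 * g i + 3 from j.2)]
    · intro l' _ hl'
      rw [kap_apply, if_neg fun h => hl' h.2, mul_zero]
    · intro h; exact absurd (Finset.mem_univ _) h
  · intro i' _ hi'
    refine Finset.sum_eq_zero fun j _ => Finset.sum_eq_zero fun l' _ => ?_
    rw [kap_apply, if_neg fun h => hi' h.1, mul_zero]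
  · intro h; exact absurd (Finset.mem_univ _) h

omit [NeZero M] in
lemma sum_shift_abs {f : ℕ → ℤ} {H D m q j : ℕ} (hf : ∀ n, |f n| ≤ (H : ℤ)) {Q : ℤ[X]}
    (hm : Q.natDegree < m) (hq : ∀ n, |Q.coeff n| ≤ (q : ℤ)) :
    |∑ n ∈ range D, f n * (X ^ j * Q).coeff n| ≤ m * (H * q) := by
  have h2 : ∀ n ∈ range D, |f n * (X ^ j * Q).coeff n| ≤
      if j ≤ n ∧ n < j + m then (H : ℤ) * q else 0 := by
    intro n _
    rw [coeff_X_pow_mul', abs_mul]
    by_cases h3 : j ≤ n
    · rw [if_pos h3]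
      by_cases h4 : n < j + m
      · rw [if_pos ⟨h3, h4⟩]
        exact mul_le_mul (hf n) (hq _) (abs_nonneg _) (by positivity)
      · rw [if_neg fun h => h4 h.2, coeff_eq_zero_of_natDegree_lt (by omega), abs_zero, mul_zero]
    · rw [if_neg h3, if_neg fun h => h3 h.1, abs_zero, mul_zero]
  have h3 : (∑ n ∈ range D, if j ≤ n ∧ n < j + m then (H : ℤ) * q else 0) ≤
      m * (H * q) := by
    rw [← Finset.sum_filter, Finset.sum_const, nsmul_eq_mul]
    apply mul_le_mul_of_nonneg_right _ (by positivity)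
    have h4 : ((range D).filter fun n => j ≤ n ∧ n < j + m).card ≤ m := by
      calc _ ≤ (Ico j (j + m)).card := by
            apply Finset.card_le_card
            intro n hn
            rw [Finset.mem_Ico]
            exact (Finset.mem_filter.1 hn).2
        _ = m := by rw [Nat.card_Ico]; omega
    exact_mod_cast h4
  exact (Finset.abs_sum_le_sum_abs _ _).trans ((Finset.sum_le_sum h2).trans h3)

/-- The frequencies which are trivial at the multiples of a small polynomial annihilate it. -/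
lemma frq_zero {θ : Idx g × Fin d → ℤ} {H : ℕ} (h : ∀ x, |θ x| ≤ (H : ℤ)) (i : Fin k) (l : Fin d)
    {Q : ℤ[X]} {m q j : ℕ} (hm : Q.natDegree < m) (hq : ∀ n, |Q.coeff n| ≤ (q : ℤ))
    (hM : m * q * H < M) (he : eth θ (kap i l (X ^ j * Q) : Idx g × Fin d → ZMod M) = 1) :
    ∑ n ∈ range (2 * g i + 2 + 1), frq θ i l n * (X ^ j * Q).coeff n = 0 := by
  rw [eth_kap] at he
  obtain ⟨S, hS⟩ : ∃ S, S = ∑ n ∈ range (2 * g i + 2 + 1), frq θ i l n * (X ^ j * Q).coeff n :=
    ⟨_, rfl⟩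
  rw [← hS] at he ⊢
  have h1 : ((S : ℤ) : ZMod M) = 0 := by
    apply ZMod.injective_stdAddChar
    rw [he, AddChar.map_zero_eq_one]
  rw [ZMod.intCast_zmod_eq_zero_iff_dvd] at h1
  apply Int.eq_zero_of_abs_lt_dvd h1
  have h2 : |S| ≤ m * (H * q) := by
    rw [hS]
    exact sum_shift_abs (frq_abs h i l) hm hq
  refine lt_of_le_of_lt h2 ?_
  have : m * (H * q) < M := by
    calc m * (H * q) = m * q * H := by ring
      _ < M := hM
  exact_mod_cast this

/-- The main lemma: if a weighted sum does not vanish, then the points are zeros of a small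
polynomial of small degree. -/
theorem lemB {𝓡 : Type} [CommRing 𝓡] [Fintype 𝓡] {H : ℕ} (i : Fin k) (τ : 𝓡) (β : Fin d → 𝓡)
    (c : Fin d → ℤ) (hc : ∑ l, (c l : 𝓡) * β l = 1) (L : (Idx g × Fin d → ZMod M) →+ 𝓡)
    (hL : ∀ l (P : ℤ[X]), P.natDegree ≤ 2 * g i + 2 → L (kap i l P) = β l * aeval τ P)
    (Φ : 𝓡 → ℝ) (F : (Idx g × Fin d → ZMod M) → ℝ) (hF : ∀ a l P, F (a + kap i l P) = F a)
    {κ q0 q1 N : ℕ} (hκ : 1 ≤ κ) (hκg : 5 * κ ≤ 2 * g i + 2) (hN : Fintype.card 𝓡 ≤ N)
    (h0 : N < (q0 + 1) ^ (4 * κ)) (h1 : N < (q1 + 1) ^ κ) (hq : q0 ≤ q1)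
    (hM : 4 * κ * q1 * H < M) (hI : ∀ r : 𝓡, ∃ P : ℤ[X], P.natDegree ≤ 3 ∧ aeval τ P = r)
    (hne : ∑ a, WW H a * (Φ (L a) * F a) ≠ 0) :
    ∃ G : ℤ[X], G.IsPrimitive ∧ G.natDegree < κ ∧
      (∀ n, |G.coeff n| ≤ ((2 ^ κ * (4 * κ * q0) : ℕ) : ℤ)) ∧
      ∀ I : Finset 𝓡, I.Nonempty → (∀ r, ∑ s ∈ I, Φ (r + s) = 0) →
        ∃ s ∈ I, ¬ (aeval τ G ∣ s) := by
  obtain ⟨θ, hθ, hS⟩ := exists_eth hne
  obtain ⟨Q0, Q0ne, Q0d, Q0c, Q0z⟩ := pigeon τ (lt_of_le_of_lt hN h0)
  obtain ⟨Q1, Q1ne, Q1d, Q1c, Q1z⟩ := pigeon τ (lt_of_le_of_lt hN h1)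
  have key : ∀ Q : ℤ[X], aeval τ Q = 0 → Q.natDegree < 4 * κ → (∀ n, |Q.coeff n| ≤ (q1 : ℤ)) →
      ∀ l j, j + Q.natDegree ≤ 2 * g i + 2 →
      ∑ n ∈ range (2 * g i + 2 + 1), frq θ i l n * (X ^ j * Q).coeff n = 0 := by
    intro Q hQz hQd hQc l j hj
    apply frq_zero hθ i l hQd hQc hM
    apply eth_eq_one hS
    intro a
    have hd : (X ^ j * Q).natDegree ≤ 2 * g i + 2 := by
      refine natDegree_mul_le.trans ?_
      rw [natDegree_X_pow]
      exact hj
    rw [hF, map_add, hL l _ hd, map_mul, hQz, mul_zero, mul_zero, add_zero]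
  obtain ⟨G, hG1, hG2, hG3, hG4⟩ := exists_rec Q0ne Q1ne
  refine ⟨G, hG1, lt_of_le_of_lt hG3 Q1d, fun n => ?_, ?_⟩
  · exact factor_coeff hG2 Q0ne (hG3.trans Q1d.le) Q0d Q0c n
  · intro I hIn hIΦ
    by_contra hcon
    push Not at hcon
    have htr : ∀ s ∈ I, ∃ v : Idx g × Fin d → ZMod M, L v = s ∧ eth θ v = 1 ∧
        ∀ a, F (a + v) = F a := by
      intro s hs
      obtain ⟨r, hr⟩ := hcon s hs
      obtain ⟨P, hPd, hPr⟩ := hI r
      have hPG : ∀ l, (C (c l) * P * G).natDegree ≤ 2 * g i + 2 := by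
        intro l
        refine natDegree_mul_le.trans ?_
        have h2 := natDegree_C_mul_le (c l) P
        omega
      refine ⟨∑ l, kap i l (C (c l) * P * G), ?_, ?_, ?_⟩
      · rw [map_sum, Finset.sum_congr rfl fun l _ => hL l _ (hPG l)]
        have h2 : ∀ l, β l * aeval τ (C (c l) * P * G) = ((c l : 𝓡) * β l) * s := by
          intro l
          rw [map_mul, map_mul, aeval_C, hPr, hr]
          simp only [algebraMap_int_eq, eq_intCast]
          ring
        rw [Finset.sum_congr rfl fun l _ => h2 l, ← Finset.sum_mul, hc, one_mul]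
      · apply eth_sum
        intro l _
        rw [eth_kap, hG4 (frq θ i l) (2 * g i + 2) (fun j hj => key Q0 Q0z Q0d
          (fun n => (Q0c n).trans (by exact_mod_cast hq)) l j hj)
          (fun j hj => key Q1 Q1z (by omega) Q1c l j hj) (C (c l) * P) (by
            have h2 := natDegree_C_mul_le (c l) P
            omega), Int.cast_zero, AddChar.map_zero_eq_one]
      · have h2 : ∀ (T : Finset (Fin d)) a, F (a + ∑ l ∈ T, kap i l (C (c l) * P * G)) = F a := by
          intro T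
          induction T using Finset.induction_on with
          | empty => intro a; rw [Finset.sum_empty, add_zero]
          | insert x T hx ih =>
              intro a
              rw [Finset.sum_insert hx, ← add_assoc, ih, hF]
        exact h2 Finset.univ
    have hs : ∀ s ∈ I, ∑ a : Idx g × Fin d → ZMod M, eth θ a * ((Φ (L a) * F a : ℝ) : ℂ) =
        ∑ a : Idx g × Fin d → ZMod M, eth θ a * ((Φ (L a + s) * F a : ℝ) : ℂ) := by
      intro s hs
      obtain ⟨v, hv1, hv2, hv3⟩ := htr s hs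
      conv_lhs => rw [← Equiv.sum_comp (Equiv.addRight v)]
      refine Finset.sum_congr rfl fun a _ => ?_
      rw [Equiv.coe_addRight, eth_add, hv2, mul_one, map_add, hv1, hv3]
    have h3 : (I.card : ℂ) *
        ∑ a : Idx g × Fin d → ZMod M, eth θ a * ((Φ (L a) * F a : ℝ) : ℂ) = 0 := by
      rw [← nsmul_eq_mul, ← Finset.sum_const, Finset.sum_congr rfl hs, Finset.sum_comm]
      refine Finset.sum_eq_zero fun a _ => ?_
      rw [← Finset.mul_sum, ← Complex.ofReal_sum, ← Finset.sum_mul, hIΦ, zero_mul,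
        Complex.ofReal_zero, mul_zero]
    rcases mul_eq_zero.1 h3 with h4 | h4
    · have h5 : I.card ≠ 0 := Finset.card_ne_zero.2 hIn
      exact h5 (by exact_mod_cast h4)
    · exact hS h4

end Kap

end Pool.Agent.Helper28.TL
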